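import Mathlib
import Pool.Agent.Y114.RM.Stm5
import Pool.Agent.W569.FM.Stmts

/-!
# One prime and all primes: task statements
-/

set_option autoImplicit false

namespace Pool.Agent.Y114.OP

open Module Polynomial TensorProduct NumberField Pool.Agent.Y114.RM Pool.Agent.Y114.TF
  Pool.Agent.W569.FM

/-- LAT: a reductive Lie algebra which contains a maximal torus of `G` and has the same centralizer
in `End V` as `G` is equal to `G`. -/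
def S_LAT : Prop := ∀ (K : Type) [Field K] [CharZero K] [IsAlgClosed K] (V : Type)
  [AddCommGroup V] [Module K V] [FiniteDimensional K V] (G L t : Submodule K (End K V)), IsLie G →
  NonDeg G → L ≤ G → IsLie L → NonDeg L → t ≤ L → (∀ a ∈ t, ⨆ μ, End.eigenspace a μ = ⊤) →
  (∀ a ∈ t, ∀ b ∈ t, a * b = b * a) → (∀ x ∈ G, (∀ a ∈ t, a * x = x * a) → x ∈ t) →
  (∀ Y : End K V, (∀ X ∈ L, X * Y = Y * X) → ∀ X ∈ G, X * Y = Y * X) → L = G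

/-- REL: bounds for the multiplicative relations between Weil numbers. -/
def S_REL : Prop := ∀ (ι : Type) [Fintype ι] (n : ι → ℕ) (w : ι → ℤ) (c N : ℕ),
  ∃ B M : ℕ, 0 < M ∧ ∀ p : ℕ, p.Prime → ∀ P : ι → ℚ[X],
  (∀ i, P i ≠ 0 ∧ (P i).natDegree ≤ n i) →
  (∀ i, ∀ a ∈ (P i).aroots ℂ, ‖a‖ ^ 2 = (p : ℝ) ^ w i ∧ IsIntegral ℤ ((p : ℂ) ^ c * a)) →
  ∀ z : Fin N → ℂ, (∀ j, ∃ i, z j ∈ (P i).aroots ℂ) →
  ((∃ e : Fin N → ℤ, e ≠ 0 ∧ ∏ j, z j ^ e j = 1) →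
    ∃ e : Fin N → ℤ, e ≠ 0 ∧ (∀ j, |e j| ≤ B) ∧ (∏ j, z j ^ e j) ^ M = 1) ∧
  ((∃ (e : Fin N → ℤ) (m : ℕ), 0 < m ∧ (∏ j, z j ^ e j) ^ m = 1 ∧ ∏ j, z j ^ e j ≠ 1) →
    ∃ e : Fin N → ℤ, (∀ j, |e j| ≤ B) ∧ (∏ j, z j ^ e j) ^ M = 1 ∧ ∏ j, z j ^ e j ≠ 1)

/-- ROOT: the bounded relations between the eigenvalues are locally constant. -/
def S_ROOT : Prop := ∀ (ℓ : ℕ) [Fact ℓ.Prime] (ι : Type) [Fintype ι] (n : ι → ℕ) (Γ : Type)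
  [Group Γ] [TopologicalSpace Γ] [IsTopologicalGroup Γ]
  (ρ : ∀ i, Representation ℚ_[ℓ] Γ (Fin (n i) → ℚ_[ℓ])),
  (∀ i, Continuous fun g => LinearMap.toMatrix' (ρ i g)) →
  ∀ (B M N : ℕ) (k : Fin N → ι) (γ₀ : Γ), 0 < M → ∃ O : Set Γ, IsOpen O ∧ γ₀ ∈ O ∧ ∀ γ ∈ O,
  (∀ z : Fin N → AlgebraicClosure ℚ_[ℓ], (∀ j, aeval (z j) (ρ (k j) γ₀).charpoly = 0) →
    ∃ z' : Fin N → AlgebraicClosure ℚ_[ℓ], (∀ j, aeval (z' j) (ρ (k j) γ).charpoly = 0) ∧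
      ∀ e : Fin N → ℤ, (∀ j, |e j| ≤ B) → (∏ j, z j ^ e j) ^ M ≠ 1 →
        (∏ j, z' j ^ e j) ^ M ≠ 1) ∧
  (∀ z' : Fin N → AlgebraicClosure ℚ_[ℓ], (∀ j, aeval (z' j) (ρ (k j) γ).charpoly = 0) →
    ∃ z : Fin N → AlgebraicClosure ℚ_[ℓ], (∀ j, aeval (z j) (ρ (k j) γ₀).charpoly = 0) ∧
      ∀ e : Fin N → ℤ, (∀ j, |e j| ≤ B) → (∏ j, z' j ^ e j) ^ M = 1 → ∏ j, z' j ^ e j ≠ 1 →
        (∏ j, z j ^ e j) ^ M = 1 ∧ ∏ j, z j ^ e j ≠ 1)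

/-- PW: an endomorphism which commutes with `g ^ M` commutes with `g`, if different eigenvalues of
`g` have different `M`-th powers. -/
def S_PW : Prop := ∀ (k : Type) [Field k] [CharZero k] (V : Type) [AddCommGroup V] [Module k V]
  [FiniteDimensional k V] (g g' : End k V) (M : ℕ), g * g' = 1 → g' * g = 1 → 0 < M →
  (∀ a b : AlgebraicClosure k, aeval a g.charpoly = 0 → aeval b g.charpoly = 0 → a ^ M = b ^ M →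
    a = b) → ∀ Y : End k V, g ^ M * Y = Y * g ^ M → g * Y = Y * g

/-- CTR: an endomorphism which commutes with the Galois group of `ℚ` and is a `θ`-operator of a
Frobenius element is a scalar. -/
def S_CTR : Prop := ∀ (ℓ : ℕ) [Fact ℓ.Prime] (n : ℕ)
  (ρ : Representation ℚ_[ℓ] (GF ℚ) (Fin n → ℚ_[ℓ])),
  Continuous (fun g => LinearMap.toMatrix' (ρ g)) → ∀ (w : ℤ) (l : Fin 3 → ℕ),
  (∀ i, (l i).Prime) → Function.Injective l → (∀ i, l i ≠ ℓ) →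
  ∀ Q : Fin 3 → Ideal (OO ℚ), (∀ i, (Q i).IsPrime) → (∀ i, (l i : OO ℚ) ∈ Q i) →
  ∀ σ : Fin 3 → GF ℚ, (∀ i, FrobAt (l i) (Q i) (σ i)) → ∀ P : Fin 3 → ℚ[X],
  (∀ i, (ρ (σ i)⁻¹).charpoly = (P i).map (algebraMap ℚ ℚ_[ℓ])) →
  (∀ i, ∀ a ∈ (P i).aroots ℂ, ‖a‖ ^ 2 = (l i : ℝ) ^ w) →
  ∀ z : End ℚ_[ℓ] (Fin n → ℚ_[ℓ]), (∀ g, z * ρ g = ρ g * z) →
  ∀ [Algebra ℚ_[ℓ] ℂ] (θ : Additive ℂˣ →+ ℂ),
  IsOp θ ((ρ (σ 0)⁻¹).baseChange ℂ) (z.baseChange ℂ) → ∃ c : ℚ_[ℓ], z = c • 1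

end Pool.Agent.Y114.OP
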