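import Mathlib
import Pool.Agent.Y114.RM.All3
import Pool.Agent.Y114.OP.Stm

/-!
# Maximal Frobenius tori: semisimplicity, for representations of a compact group `Γ` with a
homomorphism from the Galois group of a number field
-/

set_option autoImplicit false
set_option linter.unusedSectionVars false
set_option linter.unusedVariables false

namespace Pool.Agent.Y114.OP

open NumberField IsDedekindDomain Module Polynomial TensorProduct Pool.Agent.TH118.SG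
  Pool.Agent.Y114.MU Pool.Agent.Y114.TF Pool.Agent.Y114.GF Pool.Agent.H204R3.GP Pool.Agent.Y114.RM
open Pool.Agent.W569.FM Pool.Agent.W571.FM Pool.Agent.Y115.R Pool.Agent.Y115.T Pool.Agent.Y115.Chi

variable {F : Type} [Field F] [NumberField F] {ι : Type} [Fintype ι] [DecidableEq ι] {n : ι → ℕ}
  {w : ι → ℤ} {ℓ : ℕ} [hℓ : Fact ℓ.Prime] {Γ : Type} [Group Γ] [TopologicalSpace Γ]
  [IsTopologicalGroup Γ] [CompactSpace Γ]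

/-- The conclusions. -/
structure Semi (ρ : ∀ i, Representation ℚ_[ℓ] Γ (Fin (n i) → ℚ_[ℓ]))
    (𝔤 L : Submodule ℚ_[ℓ] (End ℚ_[ℓ] (∀ i, Fin (n i) → ℚ_[ℓ]))) (r : ℕ) (g₀ : Γ)
    [Algebra ℚ_[ℓ] ℂ] : Prop where
  ss : FiniteIndexSemisimple (sumRep ρ)
  mem : ∀ X, X ∈ L ↔ ∀ (m : ℕ) (φ : Tensor ℚ_[ℓ] (∀ i, Fin (n i) → ℚ_[ℓ]) m),
    TateTensor (sumRep ρ) φ → KillsTensor X φ
  memLT : ∀ X, X ∈ L ↔ X ∈ LT (sumRep ρ)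
  lie : IsLie L
  le : L ≤ 𝔤
  nondeg : NonDeg L
  rk : ∀ x ∈ L, r ≤ finrank ℚ_[ℓ] (cen L x)
  hlog : ∀ (τ : Γ) (d : ℕ), 2 ≤ d → (sumRep ρ τ - 1) ^ d = 0 → lgA d (sumRep ρ τ - 1) 1 ∈ L
  tor_le : tor ((sumRep ρ g₀).baseChange ℂ) ≤ bcS ℂ L
  tor_cen : ∀ x ∈ bcS ℂ 𝔤, (∀ a ∈ tor ((sumRep ρ g₀).baseChange ℂ), a * x = x * a) →
    x ∈ tor ((sumRep ρ g₀).baseChange ℂ)
  fixed : ∃ Δ : Subgroup Γ, Δ.FiniteIndex ∧ ∀ γ ∈ Δ, ∀ Y ∈ RM.comm L,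
    sumRep ρ γ * Y = Y * sumRep ρ γ
  order : ∀ γ : Γ, ∃ M : ℕ, 0 < M ∧ ∀ Y ∈ RM.comm L, sumRep ρ γ ^ M * Y = Y * sumRep ρ γ ^ M

theorem semi_gen (h : Inputs) (h2 : Inputs2) (hrank : S_RANK.{0, 0})
    (ρ : ∀ i, Representation ℚ_[ℓ] Γ (Fin (n i) → ℚ_[ℓ])) (s : GF F →* Γ) (hs : Continuous s)
    (hρ : ∀ i, Continuous fun g => LinearMap.toMatrix' (ρ i g))
    (𝔤 : Submodule ℚ_[ℓ] (End ℚ_[ℓ] (∀ i, Fin (n i) → ℚ_[ℓ]))) (h𝔤 : IsMotivic ρ 𝔤)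
    (P : HeightOneSpectrum (𝓞 F) → ι → ℚ[X])
    (T : Set ℕ) (hT3 : 3 ≤ T.encard) (hT : ∀ p ∈ T, p.Prime ∧ p ≠ ℓ ∧ UnramifiedIn F p)
    (hgood : ∀ p ∈ T, ∀ v, Above v p → GoodPlace (fun i => (ρ i).comp s) w v (P v))
    {p₀ : ℕ} (hp₀ : p₀ ∈ T) (hind₀ : IndependentPlaces P p₀) {v₀ : HeightOneSpectrum (𝓞 F)}
    (hv₀ : Above v₀ p₀) (r : ℕ) (hr : IndependentRoots r (P v₀))
    (hrk : RankAtMost 𝔤 r) :
    ∃ (L : Submodule ℚ_[ℓ] (End ℚ_[ℓ] (∀ i, Fin (n i) → ℚ_[ℓ]))) (_ : Algebra ℚ_[ℓ] ℂ),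
      ∀ σ₀ : GF F, (∃ Q, PrimeOver Q v₀ ∧ IsFrobAt Q (q v₀) σ₀) → Semi ρ 𝔤 L r (s σ₀⁻¹) := by
  classical
  obtain ⟨j, hj⟩ := exists_j ℓ ℚ_[ℓ] ℚ (algebraMap ℚ ℚ_[ℓ]) (algebraMap ℚ ℂ)
  let _ : Algebra ℚ_[ℓ] ℂ := j.toAlgebra
  have hjalg : ∀ x : ℚ_[ℓ], algebraMap ℚ_[ℓ] ℂ x = j x := fun _ => rfl
  obtain ⟨L, hL, hLie, hAd, hlog⟩ := h.lie ℚ_[ℓ] (∀ i, Fin (n i) → ℚ_[ℓ]) _ (sumRep ρ)
  have hLG : L ≤ 𝔤 := fun X hX => h𝔤.algebraic X fun m φ hφ => ((hL X).1 hX).2 m φ (h𝔤.tate m φ hφ)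
  obtain ⟨ψ₀, hψ₀c, hψ₀⟩ := h.cont ℓ ι n _ ρ hρ L hAd
  set ψ : GF F →* ℚ_[ℓ]ˣ := ψ₀.comp s with hψdef
  have hψc : Continuous ψ := hψ₀c.comp hs
  have hψ : ∀ g : GF F, (ψ g : ℚ_[ℓ]) = detOn L (AdE (sumRep ρ (s g)) (sumRep ρ (s g)⁻¹))
    (hAd (s g)) := fun g => hψ₀ (s g)
  refine ⟨L, j.toAlgebra, fun σ' hσ' => ?_⟩
  -- Frobenius elements
  have hfr₀ : ∀ v : HeightOneSpectrum (𝓞 F), ∃ (Q : Ideal (OO F)) (σ : GF F), Q.IsPrime ∧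
      cm Q = v.asIdeal ∧ FrobAt (Ideal.absNorm v.asIdeal) Q σ ∧ (v = v₀ → σ = σ') := by
    intro v
    by_cases hv : v = v₀
    · subst hv
      obtain ⟨Q, hQ, hQσ⟩ := hσ'
      exact ⟨Q, σ', hQ.1, hQ.2, hQσ, fun _ => rfl⟩
    · obtain ⟨Q, σ, h1, h2, h3⟩ := frob_cm v
      exact ⟨Q, σ, h1.isPrime, h2, h3, fun h => absurd h hv⟩
  choose Q₀ σ₀ hQ₀ hQ₀v hσ₀ hσ₀' using hfr₀
  have hinv : ∀ g : GF F, (ψ g⁻¹ : ℚ_[ℓ]) = (ψ g : ℚ_[ℓ])⁻¹ := by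
    intro g
    rw [map_inv, Units.val_inv_eq_inv_val]
  -- places of good reduction
  have hgoodin : ∀ v : HeightOneSpectrum (𝓞 F), ∀ P', GoodPlace (fun i => (ρ i).comp s) w v P' →
      (∀ Q : Ideal (OO F), Q.IsPrime → cm Q = v.asIdeal → ∀ g, InInertia Q g → ψ g = 1) ∧
      IsAlgebraic ℚ (ψ (σ₀ v) : ℚ_[ℓ]) ∧ ‖j (ψ (σ₀ v) : ℚ_[ℓ])‖ = 1 ∧
      ∃ u ∈ ratioGroup P', (u : ℂ) = j (ψ (σ₀ v)⁻¹ : ℚ_[ℓ]) := by
    rintro v P' hP'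
    refine ⟨fun Q hQ hQv g hg => ?_, ?_⟩
    · apply Units.ext
      rw [hψ, Units.val_one]
      have h1 : sumRep ρ (s g) = 1 := by
        rw [← map_one (sumRep ρ)]
        refine sumRep_congr ρ fun i => ?_
        have h4 : ρ i (s g) = 1 := hP'.unramified i Q ⟨hQ, hQv⟩ g hg
        rw [h4, map_one]
      have h2 : sumRep ρ (s g)⁻¹ = 1 := by
        have h3 := RM.rho_mul_inv (sumRep ρ) (s g)
        rwa [h1, one_mul] at h3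
      have h3 : ∀ (a b : End ℚ_[ℓ] (∀ i, Fin (n i) → ℚ_[ℓ])) (hab : ∀ X ∈ L, AdE a b X ∈ L),
          a = 1 → b = 1 → detOn L (AdE a b) hab = 1 := by
        rintro a b hab rfl rfl
        exact detOn_one hab
      exact h3 _ _ _ h1 h2
    · obtain ⟨h1, h3⟩ := h.adw ℓ j ι n (sumRep ρ (s (σ₀ v)⁻¹)) (sumRep ρ (s (σ₀ v)⁻¹)⁻¹)
        (fun i => ρ i (s (σ₀ v)⁻¹)) P' (fun i => (q v : ℝ) ^ w i) (RM.rho_mul_inv _ _) (RM.rho_inv_mul _ _)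
        (fun _ _ => rfl) (fun i => hP'.frobenius i (Q₀ v) ⟨hQ₀ v, hQ₀v v⟩ (σ₀ v) (hσ₀ v))
        hP'.pure L (fun X hX => h𝔤.parts X (hLG hX)) (hAd _)
      obtain ⟨u, hu, hu'⟩ := h2.ratio ℓ j ι n (sumRep ρ (s (σ₀ v)⁻¹)) (sumRep ρ (s (σ₀ v)⁻¹)⁻¹)
        (fun i => ρ i (s (σ₀ v)⁻¹)) P' (RM.rho_mul_inv _ _) (RM.rho_inv_mul _ _)
        (fun _ _ => rfl) (fun i => hP'.frobenius i (Q₀ v) ⟨hQ₀ v, hQ₀v v⟩ (σ₀ v) (hσ₀ v))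
        L (fun X hX => h𝔤.parts X (hLG hX)) (hAd _)
      rw [← hψ] at h1 h3 hu'
      refine ⟨?_, ?_, u, hu, hu'⟩
      · rw [hinv] at h1
        exact IsAlgebraic.inv_iff.1 h1
      · rw [hinv, map_inv₀, norm_inv, inv_eq_one] at h3
        exact h3
  -- rank data
  have hG₀ := hgood p₀ hp₀ v₀ hv₀
  obtain ⟨z, hz, hind⟩ := hr
  have hz' : ∀ i, End.HasEigenvalue ((sumRep ρ (s (σ₀ v₀)⁻¹)).baseChange ℂ) (z i) := by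
    intro i
    obtain ⟨a, ha⟩ := hz i
    exact sumRep_eigen ρ (s (σ₀ v₀)⁻¹) (hG₀.frobenius a (Q₀ v₀) ⟨hQ₀ v₀, hQ₀v v₀⟩ (σ₀ v₀)
      (hσ₀ v₀)) ha
  -- the character is a root of unity at `v₀`
  have htor : ∃ m : ℕ, 0 < m ∧ (algebraMap ℚ_[ℓ] ℂ (detOn L (AdE (sumRep ρ (s (σ₀ v₀)⁻¹))
      (sumRep ρ (s (σ₀ v₀)⁻¹)⁻¹)) (hAd (s (σ₀ v₀)⁻¹)))) ^ m = 1 := by
    obtain ⟨M, hM, S, hS, hprod⟩ := prod_torsion ψ hψc T hT3 hT (fun v => ψ (σ₀ v)) (by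
      intro p hp v hv Q hQ hQv
      have hin := (hgoodin v (P v) (hgood p hp v hv)).1
      exact ⟨hin Q hQ hQv, fun φ hφ => frob_value ψ v hin (hQ₀ v) hQ (hQ₀v v) hQv (hσ₀ v)
        hφ⟩) (fun p hp v hv => (hgoodin v (P v) (hgood p hp v hv)).2.1) j
      (fun p hp v hv => (hgoodin v (P v) (hgood p hp v hv)).2.2.1) p₀ hp₀
    have hu : ∀ v : HeightOneSpectrum (𝓞 F), ∃ u : ℂˣ, Above v p₀ →
        u ∈ ratioGroup (P v) ∧ (u : ℂ) = j (ψ (σ₀ v)⁻¹ : ℚ_[ℓ]) := by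
      intro v
      by_cases hv : Above v p₀
      · obtain ⟨u, hu, hu'⟩ := (hgoodin v (P v) (hgood p₀ hp₀ v hv)).2.2.2
        exact ⟨u, fun _ => ⟨hu, hu'⟩⟩
      · exact ⟨1, fun h => absurd h hv⟩
    choose u hu using hu
    obtain ⟨m, hm, hm'⟩ := hind₀ u (fun v hv => (hu v hv).1) ⟨M, hM, by
      have h3 : (∏ᶠ (v : HeightOneSpectrum (𝓞 F)) (_ : Above v p₀), u v) = ∏ v ∈ S, u v :=
        finprod_cond_eq_prod_of_cond_iff _ fun {v} _ => (hS v).symm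
      rw [h3]
      apply Units.ext
      rw [Units.val_pow_eq_pow_val, Units.coe_prod, Units.val_one]
      have h4 : ∏ v ∈ S, (u v : ℂ) = (j (((∏ v ∈ S, ψ (σ₀ v) : ℚ_[ℓ]ˣ)) : ℚ_[ℓ]))⁻¹ := by
        rw [Units.coe_prod, map_prod, ← Finset.prod_inv_distrib]
        refine Finset.prod_congr rfl fun v hv => ?_
        rw [(hu v ((hS v).1 hv)).2, hinv, map_inv₀]
      rw [h4, inv_pow, ← map_pow, ← Units.val_pow_eq_pow_val, hprod, Units.val_one, map_one,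
        inv_one]⟩ v₀ hv₀
    refine ⟨m, hm, ?_⟩
    rw [← hψ, hjalg, ← (hu v₀ hv₀).2, ← Units.val_pow_eq_pow_val, hm', Units.val_one]
  -- the torus
  set t := tor ((sumRep ρ (s (σ₀ v₀)⁻¹)).baseChange ℂ) with ht
  have hcen := torus_cen (sumRep ρ) h h2.jord h2.cartan hL hLG h𝔤.bracket h𝔤.nondeg h𝔤.algebraic
    hrk (s (σ₀ v₀)⁻¹) z hz' hind
  have htr := torus_local (sumRep ρ) h hL hLie hAd (s (σ₀ v₀)⁻¹) htor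
  obtain ⟨hND, hproj⟩ := exists_proj h h2 hLie hLG h𝔤.bracket h𝔤.nondeg
    (tor_le (sumRep ρ) h hL (s (σ₀ v₀)⁻¹)) (tor_diag _) (tor_comm _) hcen htr
  -- semisimplicity
  obtain ⟨Δ', hΔ', hcomm⟩ := h2.tfr ℓ ι n _ ρ hρ (comm L) (comm_conj (sumRep ρ) hAd)
    (comm_order (sumRep ρ) h h2 hL)
  have hss : FiniteIndexSemisimple (sumRep ρ) := by
    intro Δ hΔ U hU
    obtain ⟨P, hP1, hP2, hP3⟩ := hproj U fun X hX => ((hL X).1 hX).1 U ⟨Δ, hΔ, hU⟩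
    exact Pool.Agent.Y41.RM.exists_compl_of_commute (sumRep ρ) Δ Δ' hΔ' U hU P hP2 hP3
      fun s hs => (hcomm s hs P hP1).symm
  have hσe : σ₀ v₀ = σ' := hσ₀' v₀ rfl
  rw [← hσe]
  refine ⟨hss, fun X => ⟨fun hX => ((hL X).1 hX).2, fun hX =>
    (hL X).2 (mem_LT_of_semisimple (sumRep ρ) hss hX)⟩, hL, hLie, hLG, ?_, ?_, hlog,
    tor_le (sumRep ρ) h hL (s (σ₀ v₀)⁻¹), hcen, ⟨Δ', hΔ', hcomm⟩,
    comm_order (sumRep ρ) h h2 hL⟩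
  · intro X hX hXY
    have h1 : X.baseChange ℂ = 0 := by
      refine hND _ (mem_bcS hX) fun Y hY => ?_
      induction hY using Submodule.span_induction with
      | mem Y hY =>
        obtain ⟨Z, hZ, rfl⟩ := hY
        rw [← bc_mul, LinearMap.trace_baseChange, hXY Z hZ, map_zero]
      | zero => rw [mul_zero, map_zero]
      | add Y Z _ _ hY hZ => rw [mul_add, map_add, hY, hZ, add_zero]
      | smul c Y _ hY => rw [mul_smul_comm, map_smul, hY, smul_zero]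
    exact bc_inj (h1.trans LinearMap.baseChange_zero.symm)
  · intro x hx
    obtain ⟨θ', θ, p, hp⟩ := h.rd _ ((sumRep ρ (s (σ₀ v₀)⁻¹)).baseChange ℂ)
      (injective_of_mul (g' := (sumRep ρ (s (σ₀ v₀)⁻¹)⁻¹).baseChange ℂ)
        (by rw [← bc_mul, RM.rho_inv_mul, bc_one])) r z hz' hind
    obtain ⟨h', hh'⟩ := exists_op ((sumRep ρ (s (σ₀ v₀)⁻¹)).baseChange ℂ) (fun z => ext0 θ' z)
    have hex : ∀ j, ∃ t : End ℂ (ℂ ⊗[ℚ_[ℓ]] (∀ i, Fin (n i) → ℚ_[ℓ])),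
        IsOp (θ j) ((sumRep ρ (s (σ₀ v₀)⁻¹)).baseChange ℂ) t := fun j =>
      exists_op ((sumRep ρ (s (σ₀ v₀)⁻¹)).baseChange ℂ) (fun z => ext0 (θ j) z)
    choose t ht using hex
    have h3 := hrank ℂ _ (bcS ℂ L) ((h.bc ℚ_[ℓ] ℂ _ L).2.1 hLie) h'
      (op_mem (sumRep ρ) h hL _ θ' h' hh') r p t
      (fun j => op_mem (sumRep ρ) h hL _ (θ j) (t j) (ht j)) (hp h' t hh' ht) (x.baseChange ℂ)
      (mem_bcS hx)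
    rwa [(h.bc ℚ_[ℓ] ℂ _ L).2.2.2.1 x] at h3


end Pool.Agent.Y114.OP
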