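import Mathlib
import Pool.Agent.Y114.OP.Semi

/-!
# Endomorphisms suffice
-/

set_option autoImplicit false
set_option linter.unusedSectionVars false
set_option linter.unusedVariables false

namespace Pool.Agent.Y114.OP

open NumberField IsDedekindDomain Module Polynomial TensorProduct Pool.Agent.TH118.SG
  Pool.Agent.Y114.MU Pool.Agent.Y114.TF Pool.Agent.Y114.GF Pool.Agent.H204R3.GP Pool.Agent.Y114.RM

section bc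

variable {k : Type} [Field k] {C : Type} [Field C] [Algebra k C] {V : Type} [AddCommGroup V]
  [Module k V] [FiniteDimensional k V]

theorem bcS_comm_comm {G : Submodule k (End k V)} :
    ∀ Y ∈ bcS C (RM.comm G), ∀ X ∈ bcS C G, X * Y = Y * X := by
  intro Y hY
  induction hY using Submodule.span_induction with
  | mem Y hY =>
    obtain ⟨Z, hZ, rfl⟩ := hY
    exact bcS_comm hZ
  | zero => intro X _; rw [zero_mul, mul_zero]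
  | add Y Z _ _ hY hZ => intro X hX; rw [mul_add, add_mul, hY X hX, hZ X hX]
  | smul c Y _ hY => intro X hX; rw [mul_smul_comm, smul_mul_assoc, hY X hX]

/-- The centralizer of the base change. -/
theorem comm_bcS (hbc : S_BC) {L G : Submodule k (End k V)} (hE : ∀ Y ∈ RM.comm L, Y ∈ RM.comm G)
    (Y : End C (C ⊗[k] V)) (hY : ∀ X ∈ bcS C L, X * Y = Y * X) : ∀ X ∈ bcS C G, X * Y = Y * X := by
  have h1 : Y ∈ bcS C (RM.comm L) := by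
    rw [(hbc k C V (RM.comm L)).1]
    intro π X hX
    have h2 := hY _ (mem_bcS hX)
    rw [← pM_bc_mul, ← pM_mul_bc, h2]
  exact bcS_comm_comm Y (bcS_mono (fun Z hZ => hE Z hZ) h1)

end bc

section main

variable {ι : Type} [Fintype ι] [DecidableEq ι] {n : ι → ℕ} {ℓ : ℕ} [hℓ : Fact ℓ.Prime]
  {Γ : Type} [Group Γ] [TopologicalSpace Γ] [IsTopologicalGroup Γ] [CompactSpace Γ]

/-- If the centralizer of `L` is the centralizer of `𝔤`, then `L = 𝔤`. -/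
theorem eq_of_comm (h : Inputs) (hlat : S_LAT)
    {ρ : ∀ i, Representation ℚ_[ℓ] Γ (Fin (n i) → ℚ_[ℓ])}
    {𝔤 L : Submodule ℚ_[ℓ] (End ℚ_[ℓ] (∀ i, Fin (n i) → ℚ_[ℓ]))} {r : ℕ} {g₀ : Γ}
    [Algebra ℚ_[ℓ] ℂ] (hS : Semi ρ 𝔤 L r g₀) (h𝔤 : IsMotivic ρ 𝔤)
    (hE : ∀ Y ∈ RM.comm L, Y ∈ RM.comm 𝔤) : L = 𝔤 := by
  refine (h.bc ℚ_[ℓ] ℂ _ 𝔤).2.2.2.2.1 L hS.le ?_
  exact hlat ℂ _ (bcS ℂ 𝔤) (bcS ℂ L) (tor ((sumRep ρ g₀).baseChange ℂ))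
    ((h.bc ℚ_[ℓ] ℂ _ 𝔤).2.1 h𝔤.bracket) ((h.bc ℚ_[ℓ] ℂ _ 𝔤).2.2.1 h𝔤.nondeg) (bcS_mono hS.le)
    ((h.bc ℚ_[ℓ] ℂ _ L).2.1 hS.lie) ((h.bc ℚ_[ℓ] ℂ _ L).2.2.1 hS.nondeg) hS.tor_le
    (tor_diag _) (tor_comm _) hS.tor_cen (comm_bcS h.bc hE)

/-- The endomorphisms which commute with a subgroup of finite index commute with `𝔤`. -/
def EndTate' (ρ : ∀ i, Representation ℚ_[ℓ] Γ (Fin (n i) → ℚ_[ℓ]))
    (𝔤 : Submodule ℚ_[ℓ] (End ℚ_[ℓ] (∀ i, Fin (n i) → ℚ_[ℓ]))) : Prop :=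
  ∀ Y, (∃ Δ : Subgroup Γ, Δ.FiniteIndex ∧ ∀ γ ∈ Δ, sumRep ρ γ * Y = Y * sumRep ρ γ) →
    ∀ X ∈ 𝔤, X * Y = Y * X

theorem eq_of_endTate (h : Inputs) (hlat : S_LAT)
    {ρ : ∀ i, Representation ℚ_[ℓ] Γ (Fin (n i) → ℚ_[ℓ])}
    {𝔤 L : Submodule ℚ_[ℓ] (End ℚ_[ℓ] (∀ i, Fin (n i) → ℚ_[ℓ]))} {r : ℕ} {g₀ : Γ}
    [Algebra ℚ_[ℓ] ℂ] (hS : Semi ρ 𝔤 L r g₀) (h𝔤 : IsMotivic ρ 𝔤) (hE : EndTate' ρ 𝔤) : L = 𝔤 := by
  refine eq_of_comm h hlat hS h𝔤 fun Y hY => hE Y ?_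
  obtain ⟨Δ, hΔ, h1⟩ := hS.fixed
  exact ⟨Δ, hΔ, fun γ hγ => h1 γ hγ Y hY⟩

end main

end Pool.Agent.Y114.OP
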