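import Mathlib
import Pool.Agent.Y114.OP.Semi
import Pool.Agent.Y405.ZO.Frob
import Pool.Agent.Y726.ZI.Core

/-!
# Places of `ℚ`, Frobenius elements with independent eigenvalues
-/

set_option autoImplicit false
set_option linter.unusedSectionVars false
set_option linter.unusedVariables false

namespace Pool.Agent.Y114.OP

open NumberField IsDedekindDomain Module Polynomial TensorProduct Pool.Agent.TH118.SG
  Pool.Agent.Y114.MU Pool.Agent.Y114.TF Pool.Agent.Y114.GF Pool.Agent.H204R3.GP Pool.Agent.Y114.RM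
  Pool.Agent.W569.FM

section places

theorem asIdeal_eq {v : HeightOneSpectrum (𝓞 ℚ)} {p : ℕ} (hp : p.Prime) (h : Above v p) :
    v.asIdeal = Pool.Agent.W571.FM.pl p := by
  have h1 : Pool.Agent.W571.FM.pl p ≤ v.asIdeal := by
    unfold Pool.Agent.W571.FM.pl
    rw [Ideal.span_singleton_le_iff_mem]
    exact h
  exact ((Pool.Agent.W571.FM.pl_max hp).eq_of_le v.isPrime.ne_top h1).symm

theorem above_unique {v₁ v₂ : HeightOneSpectrum (𝓞 ℚ)} {p : ℕ} (hp : p.Prime) (h₁ : Above v₁ p)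
    (h₂ : Above v₂ p) : v₁ = v₂ :=
  HeightOneSpectrum.ext ((asIdeal_eq hp h₁).trans (asIdeal_eq hp h₂).symm)

theorem q_eq {v : HeightOneSpectrum (𝓞 ℚ)} {p : ℕ} (hp : p.Prime) (h : Above v p) : q v = p := by
  unfold q
  rw [asIdeal_eq hp h, Pool.Agent.W571.FM.absNorm_pl]

theorem exists_above (v : HeightOneSpectrum (𝓞 ℚ)) : ∃ p : ℕ, p.Prime ∧ Above v p := by
  obtain ⟨l, hl, rfl⟩ := Pool.Agent.Y726.ZI.exists_pv v
  exact ⟨l, hl, Ideal.mem_span_singleton_self _⟩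

theorem unramifiedIn_rat {p : ℕ} (hp : p.Prime) : UnramifiedIn ℚ p := by
  intro v hv h2
  rw [asIdeal_eq hp hv] at h2
  unfold Pool.Agent.W571.FM.pl at h2
  rw [Ideal.span_singleton_pow, Ideal.mem_span_singleton] at h2
  obtain ⟨c, hc⟩ := h2
  have h3 : (p : 𝓞 ℚ) ≠ 0 := by exact_mod_cast hp.ne_zero
  have h4 : (1 : 𝓞 ℚ) = p * c := by
    apply mul_left_cancel₀ h3
    rw [mul_one, ← mul_assoc, ← pow_two]
    exact hc
  apply (Pool.Agent.W571.FM.pl_prime hp).ne_top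
  rw [Ideal.eq_top_iff_one, h4]
  exact Ideal.mul_mem_right _ _ (Ideal.mem_span_singleton_self _)

theorem finite_above (p : ℕ) (hp : p.Prime) : {v : HeightOneSpectrum (𝓞 ℚ) | Above v p}.Finite :=
  Set.Subsingleton.finite fun _ h₁ _ h₂ => above_unique hp h₁ h₂

theorem independentPlaces_rat {ι : Type} [Fintype ι] [DecidableEq ι] (P : HeightOneSpectrum (𝓞 ℚ) → ι → ℚ[X]) {p : ℕ}
    (hp : p.Prime) {v₀ : HeightOneSpectrum (𝓞 ℚ)} (hv₀ : Above v₀ p) : IndependentPlaces P p :=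
  independentPlaces_of_one P (v₀ := v₀) fun v =>
    ⟨fun h => above_unique hp h hv₀, fun h => h ▸ hv₀⟩

/-- The primes of good reduction different from `ℓ`. -/
def goodPrimes (S : Set (HeightOneSpectrum (𝓞 ℚ))) (ℓ : ℕ) : Set ℕ :=
  {p | p.Prime ∧ p ≠ ℓ ∧ ∀ v, Above v p → v ∉ S}

theorem infinite_goodPrimes {S : Set (HeightOneSpectrum (𝓞 ℚ))} (hS : S.Finite) (ℓ : ℕ) :
    (goodPrimes S ℓ).Infinite := by
  intro hfin
  have h2 : {p : ℕ | p.Prime} ⊆ goodPrimes S ℓ ∪ {ℓ} ∪ q '' S := by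
    intro p hp
    by_cases h3 : p = ℓ
    · exact Or.inl (Or.inr h3)
    by_cases h4 : ∀ v, Above v p → v ∉ S
    · exact Or.inl (Or.inl ⟨hp, h3, h4⟩)
    · push Not at h4
      obtain ⟨v, hv, hvS⟩ := h4
      exact Or.inr ⟨v, hvS, q_eq hp hv⟩
  exact Nat.infinite_setOfPred_prime
    (((hfin.union (Set.finite_singleton ℓ)).union (hS.image _)).subset h2)

theorem three_le_goodPrimes {S : Set (HeightOneSpectrum (𝓞 ℚ))} (hS : S.Finite) (ℓ : ℕ) :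
    3 ≤ (goodPrimes S ℓ).encard := by
  rw [(infinite_goodPrimes hS ℓ).encard_eq]
  exact le_top

theorem exists_three {T : Set ℕ} (hT : T.Infinite) {p₀ : ℕ} (hp₀ : p₀ ∈ T) :
    ∃ l : Fin 3 → ℕ, l 0 = p₀ ∧ Function.Injective l ∧ ∀ i, l i ∈ T := by
  classical
  obtain ⟨p₁, h1, h1'⟩ := hT.exists_notMem_finset {p₀}
  obtain ⟨p₂, h2, h2'⟩ := hT.exists_notMem_finset {p₀, p₁}
  rw [Finset.mem_singleton] at h1'
  rw [Finset.mem_insert, Finset.mem_singleton, not_or] at h2'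
  refine ⟨![p₀, p₁, p₂], rfl, ?_, ?_⟩
  · intro i j hij
    fin_cases i <;> fin_cases j <;> simp_all
  · intro i
    fin_cases i
    · exact hp₀
    · exact h1
    · exact h2

end places

section eig

variable {Γ : Type} [Group Γ] {ι : Type} {n : ι → ℕ} {ℓ : ℕ} [Fact ℓ.Prime]

/-- There are `r` multiplicatively independent eigenvalues of `γ`. -/
def IndepAt (ρ : ∀ i, Representation ℚ_[ℓ] Γ (Fin (n i) → ℚ_[ℓ])) (r : ℕ) (γ : Γ) : Prop :=
  ∃ z : Fin r → AlgebraicClosure ℚ_[ℓ], (∀ j, ∃ i, aeval (z j) (ρ i γ).charpoly = 0) ∧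
    ∀ e : Fin r → ℤ, ∏ j, z j ^ e j = 1 → e = 0

/-- The group generated by the eigenvalues of `γ` is torsion free. -/
def TorsionFreeAt (ρ : ∀ i, Representation ℚ_[ℓ] Γ (Fin (n i) → ℚ_[ℓ])) (γ : Γ) : Prop :=
  ∀ u ∈ Subgroup.closure {u : (AlgebraicClosure ℚ_[ℓ])ˣ |
    ∃ i, aeval (u : AlgebraicClosure ℚ_[ℓ]) (ρ i γ).charpoly = 0}, ∀ m : ℕ, 0 < m → u ^ m = 1 →
    u = 1

end eig

theorem exists_J (ℓ : ℕ) [Fact ℓ.Prime] : ∃ J : AlgebraicClosure ℚ_[ℓ] →+* ℂ, True := by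
  obtain ⟨j, hj⟩ := Pool.Agent.Y115.R.exists_j ℓ ℚ_[ℓ] ℚ (algebraMap ℚ ℚ_[ℓ]) (algebraMap ℚ ℂ)
  let _ : Algebra ℚ_[ℓ] ℂ := j.toAlgebra
  exact ⟨(IsAlgClosed.lift (R := ℚ_[ℓ]) (S := AlgebraicClosure ℚ_[ℓ]) (M := ℂ)).toRingHom, trivial⟩

section main

variable {ι : Type} [Fintype ι] {n : ι → ℕ} {w : ι → ℤ}

/-- Weil numbers: the roots have the right absolute values and bounded denominators. -/
def WeilFor (w : ι → ℤ) (c : ℕ) (v : HeightOneSpectrum (𝓞 ℚ)) (P : ι → ℚ[X]) : Prop :=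
  ∀ i, ∀ a ∈ (P i).aroots ℂ, ‖a‖ ^ 2 = (q v : ℝ) ^ w i ∧ IsIntegral ℤ ((q v : ℂ) ^ c * a)

/-- The charpoly is given by `P` for the geometric Frobenius elements. -/
def FrobFor {ℓ : ℕ} [Fact ℓ.Prime] (ρ : ∀ i, Representation ℚ_[ℓ] (GF ℚ) (Fin (n i) → ℚ_[ℓ]))
    (v : HeightOneSpectrum (𝓞 ℚ)) (P : ι → ℚ[X]) : Prop :=
  ∀ i, ∀ Q, PrimeOver Q v → ∀ g, IsFrobAt Q (q v) g →
    (ρ i g⁻¹).charpoly = (P i).map (algebraMap ℚ ℚ_[ℓ])


theorem aeval_J {ℓ : ℕ} [Fact ℓ.Prime] (J : AlgebraicClosure ℚ_[ℓ] →+* ℂ) (f : ℚ[X])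
    (x : AlgebraicClosure ℚ_[ℓ]) : aeval (J x) f = J (aeval x f) := by
  rw [aeval_def, aeval_def, hom_eval₂]
  congr 1
  exact Subsingleton.elim _ _

theorem aeval_map_iff {ℓ : ℕ} [Fact ℓ.Prime] (f : ℚ[X]) (x : AlgebraicClosure ℚ_[ℓ]) :
    aeval x (f.map (algebraMap ℚ ℚ_[ℓ])) = aeval x f := by
  rw [aeval_map_algebraMap]

theorem exists_pre {ℓ : ℕ} [Fact ℓ.Prime] (J : AlgebraicClosure ℚ_[ℓ] →+* ℂ) {f : ℚ[X]}
    (hf : f ≠ 0) {a : ℂ} (ha : aeval a f = 0) : ∃ x, aeval x f = 0 ∧ J x = a := by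
  have hs := IsAlgClosed.splits (f.map (algebraMap ℚ (AlgebraicClosure ℚ_[ℓ])))
  have h0 : f.map (algebraMap ℚ (AlgebraicClosure ℚ_[ℓ])) ≠ 0 := by
    rwa [Ne, Polynomial.map_eq_zero]
  have h1 : a ∈ ((f.map (algebraMap ℚ (AlgebraicClosure ℚ_[ℓ]))).map J).roots := by
    rw [mem_roots ((Polynomial.map_ne_zero_iff J.injective).2 h0), IsRoot.def, Polynomial.map_map,
      eval_map, ← ha, aeval_def]
    congr 1
    exact Subsingleton.elim _ _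
  rw [hs.roots_map J, Multiset.mem_map] at h1
  obtain ⟨x, hx, hxa⟩ := h1
  rw [mem_roots h0, IsRoot.def, eval_map, ← aeval_def] at hx
  exact ⟨x, hx, hxa⟩

theorem root_ne_zero {Γ : Type} [Group Γ] {ℓ : ℕ} [Fact ℓ.Prime] {m : ℕ}
    (ρ : Representation ℚ_[ℓ] Γ (Fin m → ℚ_[ℓ])) (γ : Γ) {x : AlgebraicClosure ℚ_[ℓ]}
    (hx : aeval x (ρ γ).charpoly = 0) : x ≠ 0 := by
  rintro rfl
  rw [← coeff_zero_eq_aeval_zero'] at hx
  have h1 : (ρ γ).charpoly.coeff 0 = 0 := by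
    apply (algebraMap ℚ_[ℓ] (AlgebraicClosure ℚ_[ℓ])).injective
    rw [hx, map_zero]
  have h2 : LinearMap.det (ρ γ) = 0 := by
    rw [LinearMap.det_eq_sign_charpoly_coeff, h1, mul_zero]
  have h3 : LinearMap.det (ρ γ) * LinearMap.det (ρ γ⁻¹) = 1 := by
    rw [← map_mul, ← map_mul, mul_inv_cancel, map_one, map_one]
  rw [h2, zero_mul] at h3
  exact zero_ne_one h3

end main

section place

variable {ι : Type} [Fintype ι] {n : ι → ℕ} {w : ι → ℤ} {ℓ : ℕ} [Fact ℓ.Prime]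
  (ρ : ∀ i, Representation ℚ_[ℓ] (GF ℚ) (Fin (n i) → ℚ_[ℓ]))

/-- Roots with the same powers are equal. -/
def PairFree {ι : Type} (P : ι → ℚ[X]) : Prop :=
  ∀ i j (a b : ℂ), aeval a (P i) = 0 → aeval b (P j) = 0 → ∀ m : ℕ, 0 < m → a ^ m = b ^ m → a = b

theorem exists_place (hREL : S_REL) (hROOT : S_ROOT)
    (hρ : ∀ i, Continuous fun g => LinearMap.toMatrix' (ρ i g))
    {S : Set (HeightOneSpectrum (𝓞 ℚ))} (hS : S.Finite)
    (P : HeightOneSpectrum (𝓞 ℚ) → ι → ℚ[X])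
    (hP : ∀ v ∉ S, ¬ Above v ℓ → FrobFor ρ v (P v)) {c : ℕ}
    (hW : ∀ v ∉ S, WeilFor w c v (P v)) {r : ℕ} {γ₀ : GF ℚ} (hγ₀ : IndepAt ρ r γ₀)
    (T : Set (HeightOneSpectrum (𝓞 ℚ))) (hT : T.Finite) {O' : Set (GF ℚ)} (hO' : IsOpen O')
    (hγO : γ₀ ∈ O') :
    ∃ v, v ∉ T ∧ v ∉ S ∧ ¬ Above v ℓ ∧ IndependentRoots r (P v) ∧
      (TorsionFreeAt ρ γ₀ → PairFree (P v)) ∧
      ∃ σ, (∃ Q, PrimeOver Q v ∧ IsFrobAt Q (q v) σ) ∧ σ⁻¹ ∈ O' := by
  classical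
  obtain ⟨B, M, hM, hB⟩ := hREL ι n w c r
  obtain ⟨B₂, M₂, hM₂, hB₂⟩ := hREL ι n w c 2
  obtain ⟨z, hz, hind⟩ := hγ₀
  choose k hk using hz
  obtain ⟨O, hO, hO1, hO2⟩ := hROOT ℓ ι n (GF ℚ) ρ hρ B M r k γ₀ hM
  have hpair := fun k₂ : Fin 2 → ι => hROOT ℓ ι n (GF ℚ) ρ hρ B₂ M₂ 2 k₂ γ₀ hM₂
  choose Op hOp hOp1 hOp2 using hpair
  obtain ⟨v, hvT, σ, ⟨Q, hQ, hQv, hσ⟩, hσO⟩ := Pool.Agent.Y405.ZO.t ℚ
    (O' ∩ (O ∩ ⋂ k₂ : Fin 2 → ι, Op k₂)) (hO'.inter (hO.inter (isOpen_iInter_of_finite hOp)))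
    ⟨γ₀, hγO, hO1, Set.mem_iInter.2 hOp1⟩
    (T ∪ S ∪ {v | Above v ℓ}) ((hT.union hS).union (finite_above ℓ Fact.out))
  have hv1 : v ∉ T := fun h => hvT (Or.inl (Or.inl h))
  have hv2 : v ∉ S := fun h => hvT (Or.inl (Or.inr h))
  have hv3 : ¬ Above v ℓ := fun h => hvT (Or.inr h)
  have hch : ∀ i, (ρ i σ⁻¹).charpoly = (P v i).map (algebraMap ℚ ℚ_[ℓ]) := fun i =>
    hP v hv2 hv3 i Q ⟨hQ.isPrime, hQv⟩ σ hσ
  have hne : ∀ i, P v i ≠ 0 := by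
    intro i h0
    have h1 := (LinearMap.charpoly_monic (ρ i σ⁻¹)).ne_zero
    rw [hch i, h0, Polynomial.map_zero] at h1
    exact h1 rfl
  have hdeg : ∀ i, (P v i).natDegree ≤ n i := by
    intro i
    have h1 := LinearMap.charpoly_natDegree (ρ i σ⁻¹)
    rw [hch i, natDegree_map, finrank_fin_fun] at h1
    exact h1.le
  obtain ⟨z', hz', hz''⟩ := (hO2 σ⁻¹ hσO.2.1).1 z hk
  obtain ⟨J, -⟩ := exists_J ℓ
  have hroot : ∀ j, aeval (J (z' j)) (P v (k j)) = 0 := by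
    intro j
    have h1 := hz' j
    rw [hch, aeval_map_iff] at h1
    rw [aeval_J, h1, map_zero]
  obtain ⟨p, hp, hvp⟩ := exists_above v
  have hWp : ∀ i, ∀ a ∈ (P v i).aroots ℂ, ‖a‖ ^ 2 = (p : ℝ) ^ w i ∧ IsIntegral ℤ ((p : ℂ) ^ c * a) := by
    intro i a ha
    have h1 := hW v hv2 i a ha
    rwa [q_eq hp hvp] at h1
  refine ⟨v, hv1, hv2, hv3, ⟨fun j => J (z' j), fun j => ⟨k j, hroot j⟩, fun e he => ?_⟩,
    fun htf i j a b ha hb m hm hab => ?_, σ, ⟨Q, ⟨hQ.isPrime, hQv⟩, hσ⟩, hσO.1⟩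
  · by_contra hne0
    obtain ⟨e', he', hbd, hpow⟩ := (hB p hp (P v) (fun i => ⟨hne i, hdeg i⟩) hWp
      (fun j => J (z' j)) (fun j => ⟨k j, (mem_aroots).2 ⟨hne _, hroot j⟩⟩)).1 ⟨e, hne0, he⟩
    refine hz'' e' hbd ?_ ?_
    · intro h1
      apply he'
      have h2 := hind (fun j => (M : ℤ) * e' j) (by
        rw [← h1, ← Finset.prod_pow]
        refine Finset.prod_congr rfl fun j _ => ?_
        rw [← zpow_natCast, ← zpow_mul, mul_comm])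
      funext j
      have h3 := congrFun h2 j
      simp only [Pi.zero_apply, mul_eq_zero] at h3
      rcases h3 with h3 | h3
      · exfalso; omega
      · exact h3
    · apply J.injective
      rw [map_pow, map_prod, map_one, ← hpow]
      congr 1
      refine Finset.prod_congr rfl fun j _ => ?_
      rw [map_zpow₀]
  · by_contra hne0
    obtain ⟨x, hx, rfl⟩ := exists_pre J (hne i) ha
    obtain ⟨y, hy, rfl⟩ := exists_pre J (hne j) hb
    have hx' : aeval x (ρ i σ⁻¹).charpoly = 0 := by rw [hch, aeval_map_iff, hx]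
    have hy' : aeval y (ρ j σ⁻¹).charpoly = 0 := by rw [hch, aeval_map_iff, hy]
    have hy0 : y ≠ 0 := root_ne_zero (ρ j) σ⁻¹ hy'
    have hJy : J y ≠ 0 := fun h => hy0 (J.injective (by rw [h, map_zero]))
    obtain ⟨e', hbd, hpow, hne1⟩ := (hB₂ p hp (P v) (fun i => ⟨hne i, hdeg i⟩) hWp
      ![J x, J y] (by
        intro l
        fin_cases l
        · exact ⟨i, mem_aroots.2 ⟨hne i, ha⟩⟩
        · exact ⟨j, mem_aroots.2 ⟨hne j, hb⟩⟩)).2 ⟨![1, -1], m, hm, by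
        simp only [Fin.prod_univ_two, Matrix.cons_val_zero, Matrix.cons_val_one, zpow_one,
          zpow_neg]
        rw [mul_pow, hab, inv_pow, mul_inv_cancel₀ (pow_ne_zero _ hJy)], by
        simp only [Fin.prod_univ_two, Matrix.cons_val_zero, Matrix.cons_val_one, zpow_one,
          zpow_neg]
        intro h1
        apply hne0
        rwa [mul_inv_eq_one₀ hJy] at h1⟩
    simp only [Fin.prod_univ_two, Matrix.cons_val_zero, Matrix.cons_val_one] at hpow hne1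
    rw [← map_zpow₀, ← map_zpow₀, ← map_mul] at hpow hne1
    rw [← map_pow] at hpow
    have hpow' : (x ^ e' 0 * y ^ e' 1) ^ M₂ = 1 := J.injective (by rw [hpow, map_one])
    have hne' : x ^ e' 0 * y ^ e' 1 ≠ 1 := fun h => hne1 (by rw [h, map_one])
    obtain ⟨t, ht, ht'⟩ := (hOp2 ![i, j] σ⁻¹ (Set.mem_iInter.1 hσO.2.2 _)).2 ![x, y] (by
      intro l
      fin_cases l
      · exact hx'
      · exact hy')
    obtain ⟨h1, h2⟩ := ht' e' hbd (by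
      simpa only [Fin.prod_univ_two, Matrix.cons_val_zero, Matrix.cons_val_one] using hpow') (by
      simpa only [Fin.prod_univ_two, Matrix.cons_val_zero, Matrix.cons_val_one] using hne')
    have ht0 : ∀ l, t l ≠ 0 := fun l => root_ne_zero (ρ (![i, j] l)) γ₀ (ht l)
    apply h2
    set u : (AlgebraicClosure ℚ_[ℓ])ˣ := ∏ l, Units.mk0 (t l) (ht0 l) ^ e' l with hu
    have huv : (u : AlgebraicClosure ℚ_[ℓ]) = ∏ l, t l ^ e' l := by
      rw [hu, Units.coe_prod]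
      refine Finset.prod_congr rfl fun l _ => ?_
      rw [Units.val_zpow_eq_zpow_val, Units.val_mk0]
    have humem : u ∈ Subgroup.closure {u : (AlgebraicClosure ℚ_[ℓ])ˣ |
        ∃ i, aeval (u : AlgebraicClosure ℚ_[ℓ]) (ρ i γ₀).charpoly = 0} := by
      refine Subgroup.prod_mem _ fun l _ => Subgroup.zpow_mem _ (Subgroup.subset_closure ?_) _
      exact ⟨![i, j] l, ht l⟩
    have h3 := htf u humem M₂ hM₂ (by
      apply Units.ext
      rw [Units.val_pow_eq_pow_val, huv, Units.val_one, h1])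
    rw [← huv, h3, Units.val_one]

end place

end Pool.Agent.Y114.OP
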