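import Mathlib
import Pool.Agent.Y114.OP.Ends
import Pool.Agent.Y114.OP.Place

/-!
# One prime and all primes
-/

set_option autoImplicit false
set_option linter.unusedSectionVars false
set_option linter.unusedVariables false

namespace Pool.Agent.Y114.OP

open NumberField IsDedekindDomain Module Polynomial TensorProduct Pool.Agent.TH118.SG
  Pool.Agent.Y114.MU Pool.Agent.Y114.TF Pool.Agent.Y114.GF Pool.Agent.H204R3.GP Pool.Agent.Y114.RM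
  Pool.Agent.W569.FM

theorem not_above {v : HeightOneSpectrum (𝓞 ℚ)} {p ℓ : ℕ} (hp : p.Prime) (hℓ : ℓ.Prime)
    (h : p ≠ ℓ) (hv : Above v p) : ¬ Above v ℓ := by
  intro h1
  exact h ((q_eq hp hv).symm.trans (q_eq hℓ h1))

section main

variable {Γ : Type} [Group Γ] [TopologicalSpace Γ] [IsTopologicalGroup Γ] [CompactSpace Γ]
  {ι : Type} [Fintype ι] [DecidableEq ι] {n : ι → ℕ}

/-- A system of representations with good reduction outside `S`. -/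
structure System (s : GF ℚ →* Γ) (ρ : ∀ (ℓ : ℕ) [Fact ℓ.Prime], Reps Γ n ℓ)
    (𝔤 : ∀ (ℓ : ℕ) [Fact ℓ.Prime], EndSpace n ℓ) (w : ι → ℤ) (r : ℕ)
    (S : Set (HeightOneSpectrum (𝓞 ℚ))) (P : HeightOneSpectrum (𝓞 ℚ) → ι → ℚ[X]) (c : ℕ) :
    Prop where
  cont : ∀ (ℓ : ℕ) [Fact ℓ.Prime], Conts (ρ ℓ)
  motivic : ∀ (ℓ : ℕ) [Fact ℓ.Prime], Motivic (ρ ℓ) (𝔤 ℓ)
  rank : ∀ (ℓ : ℕ) [Fact ℓ.Prime], RankLE (𝔤 ℓ) r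
  finite : S.Finite
  good : ∀ v ∉ S, ∀ (ℓ : ℕ) [Fact ℓ.Prime], ¬ Above v ℓ → ∀ i,
    GoodReduction (restrictTo (ρ ℓ) s) i (w i) v (P v i)
  int : ∀ v ∉ S, ∀ i, ∀ a ∈ (P v i).aroots ℂ, IsIntegral ℤ ((q v : ℂ) ^ c * a)

variable {s : GF ℚ →* Γ} {ρ : ∀ (ℓ : ℕ) [Fact ℓ.Prime], Reps Γ n ℓ}
    {𝔤 : ∀ (ℓ : ℕ) [Fact ℓ.Prime], EndSpace n ℓ} {w : ι → ℤ} {r : ℕ}
    {S : Set (HeightOneSpectrum (𝓞 ℚ))} {P : HeightOneSpectrum (𝓞 ℚ) → ι → ℚ[X]} {c : ℕ}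

theorem System.place (hREL : S_REL) (hROOT : S_ROOT) (h : System s ρ 𝔤 w r S P c)
    (hs : Continuous s) (ℓ₀ : ℕ) [Fact ℓ₀.Prime] {γ₀ : GF ℚ}
    (hγ₀ : IndepAt (restrictTo (ρ ℓ₀) s) r γ₀) (T : Set (HeightOneSpectrum (𝓞 ℚ))) (hT : T.Finite)
    {O' : Set (GF ℚ)} (hO' : IsOpen O') (hγO : γ₀ ∈ O') :
    ∃ v, v ∉ T ∧ v ∉ S ∧ ¬ Above v ℓ₀ ∧ IndependentRoots r (P v) ∧
      (TorsionFreeAt (restrictTo (ρ ℓ₀) s) γ₀ → PairFree (P v)) ∧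
      ∃ σ, (∃ Q, PrimeOver Q v ∧ IsFrobAt Q (q v) σ) ∧ σ⁻¹ ∈ O' := by
  have hc : ∀ i, Continuous fun g => LinearMap.toMatrix' (restrictTo (ρ ℓ₀) s i g) :=
    fun i => (h.cont ℓ₀ i).comp hs
  exact exists_place (w := w) (restrictTo (ρ ℓ₀) s) hREL hROOT hc h.finite P
    (fun v hv hvℓ i Q hQ g hg => ((h.good v hv ℓ₀ hvℓ i).2 Q hQ g).2 hg) (c := c)
    (fun v hv i a ha => by
      obtain ⟨p, hp, hvp⟩ := exists_above v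
      obtain ⟨ℓ, hℓ, hne⟩ : ∃ ℓ : ℕ, ℓ.Prime ∧ p ≠ ℓ := by
        obtain ⟨ℓ, h1, h2⟩ := Nat.exists_infinite_primes (p + 1)
        exact ⟨ℓ, h2, by omega⟩
      have : Fact ℓ.Prime := ⟨hℓ⟩
      exact ⟨(h.good v hv ℓ (not_above hp hℓ hne hvp) i).1 a ha, h.int v hv i a ha⟩)
    hγ₀ T hT hO' hγO

theorem System.semi (hREL : S_REL) (hROOT : S_ROOT) (h : System s ρ 𝔤 w r S P c)
    (hs : Continuous s) (ℓ₀ : ℕ) [Fact ℓ₀.Prime] {γ₀ : GF ℚ}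
    (hγ₀ : IndepAt (restrictTo (ρ ℓ₀) s) r γ₀) (ℓ : ℕ) [Fact ℓ.Prime] :
    ∃ (v₀ : HeightOneSpectrum (𝓞 ℚ))
      (L : Submodule ℚ_[ℓ] (End ℚ_[ℓ] (∀ i, Fin (n i) → ℚ_[ℓ]))) (_ : Algebra ℚ_[ℓ] ℂ),
      v₀ ∉ S ∧ ¬ Above v₀ ℓ ∧ ∀ σ₀ : GF ℚ, (∃ Q, PrimeOver Q v₀ ∧ IsFrobAt Q (q v₀) σ₀) →
        Semi (ρ ℓ) (𝔤 ℓ) L r (s σ₀⁻¹) := by
  have hℓp : ℓ.Prime := Fact.out
  obtain ⟨v₀, hv1, hv2, -, hind, -⟩ := h.place hREL hROOT hs ℓ₀ hγ₀ {v | Above v ℓ}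
    (finite_above ℓ hℓp) isOpen_univ (Set.mem_univ γ₀)
  obtain ⟨p₀, hp₀, hvp₀⟩ := exists_above v₀
  have hp₀T : p₀ ∈ goodPrimes S ℓ := by
    refine ⟨hp₀, ?_, fun v hv => ?_⟩
    · rintro rfl
      exact hv1 hvp₀
    · rw [above_unique hp₀ hv hvp₀]
      exact hv2
  obtain ⟨L, alg, hL⟩ := semi_gen (w := w) inputs inputs2 inputs3.rank (ρ ℓ) s hs (h.cont ℓ) (𝔤 ℓ)
    (h.motivic ℓ) P (goodPrimes S ℓ) (three_le_goodPrimes h.finite ℓ)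
    (fun p hp => ⟨hp.1, hp.2.1, unramifiedIn_rat hp.1⟩)
    (fun p hp v hv => goodPlace_of (restrictTo (ρ ℓ) s)
      (h.good v (hp.2.2 v hv) ℓ (not_above hp.1 hℓp hp.2.1 hv)))
    hp₀T (independentPlaces_rat P hp₀ hvp₀) hvp₀ r hind (h.rank ℓ)
  exact ⟨v₀, L, alg, hv2, hv1, hL⟩

end main

end Pool.Agent.Y114.OP
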