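import Mathlib
import Pool.Agent.Y114.OP.Main1
import Pool.Agent.Y114.AP.Charpoly

/-!
# Connectedness and the centre
-/

set_option autoImplicit false
set_option linter.unusedSectionVars false
set_option linter.unusedVariables false

namespace Pool.Agent.Y114.OP

open NumberField IsDedekindDomain Module Polynomial TensorProduct Pool.Agent.TH118.SG
  Pool.Agent.Y114.MU Pool.Agent.Y114.TF Pool.Agent.Y114.GF Pool.Agent.H204R3.GP Pool.Agent.Y114.RM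
  Pool.Agent.W569.FM

section kernel

variable {G : Type} [Group G] [TopologicalSpace G] [IsTopologicalGroup G] {Γ : Type} [Group Γ]
  [TopologicalSpace Γ] {ι : Type} [Fintype ι] {n : ι → ℕ} {ℓ : ℕ} [Fact ℓ.Prime]

/-- The elements which commute with `A`. -/
def fixer (ρ : ∀ i, Representation ℚ_[ℓ] Γ (Fin (n i) → ℚ_[ℓ])) (s : G →* Γ)
    (A : Submodule ℚ_[ℓ] (End ℚ_[ℓ] (∀ i, Fin (n i) → ℚ_[ℓ]))) : Subgroup G where
  carrier := {g | ∀ Y ∈ A, sumRep ρ (s g) * Y = Y * sumRep ρ (s g)}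
  one_mem' := fun Y _ => by rw [map_one, map_one, one_mul, mul_one]
  mul_mem' := by
    intro a b ha hb Y hY
    rw [map_mul, map_mul, mul_assoc, hb Y hY, ← mul_assoc, ha Y hY, mul_assoc]
  inv_mem' := by
    intro a ha Y hY
    have h1 := ha Y hY
    have h2 : sumRep ρ (s a⁻¹) * sumRep ρ (s a) = 1 := by
      rw [← map_mul, ← map_mul, inv_mul_cancel, map_one, map_one]
    have h3 : sumRep ρ (s a) * sumRep ρ (s a⁻¹) = 1 := by
      rw [← map_mul, ← map_mul, mul_inv_cancel, map_one, map_one]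
    calc sumRep ρ (s a⁻¹) * Y = sumRep ρ (s a⁻¹) * (Y * sumRep ρ (s a)) * sumRep ρ (s a⁻¹) := by
          rw [mul_assoc, mul_assoc, h3, mul_one]
      _ = Y * sumRep ρ (s a⁻¹) := by rw [← h1, ← mul_assoc, h2, one_mul]

theorem isClosed_fixer {ρ : ∀ i, Representation ℚ_[ℓ] Γ (Fin (n i) → ℚ_[ℓ])}
    (hρ : ∀ i, Continuous fun g => LinearMap.toMatrix' (ρ i g)) {s : G →* Γ} (hs : Continuous s)
    (A : Submodule ℚ_[ℓ] (End ℚ_[ℓ] (∀ i, Fin (n i) → ℚ_[ℓ]))) :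
    IsClosed (fixer ρ s A : Set G) := by
  have hc : ∀ (x : ∀ i, Fin (n i) → ℚ_[ℓ]), Continuous fun g : G => sumRep ρ (s g) x := by
    intro x
    refine continuous_pi fun i => ?_
    have h1 : ∀ g : G, sumRep ρ (s g) x i = (LinearMap.toMatrix' (ρ i (s g))).mulVec (x i) := by
      intro g
      rw [LinearMap.toMatrix'_mulVec]
      rfl
    simp only [h1]
    exact Continuous.matrix_mulVec ((hρ i).comp hs) continuous_const
  have h2 : (fixer ρ s A : Set G) = ⋂ (Y : A), ⋂ (x : ∀ i, Fin (n i) → ℚ_[ℓ]),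
      {g | sumRep ρ (s g) ((Y : End ℚ_[ℓ] (∀ i, Fin (n i) → ℚ_[ℓ])) x) =
        (Y : End ℚ_[ℓ] (∀ i, Fin (n i) → ℚ_[ℓ])) (sumRep ρ (s g) x)} := by
    ext g
    simp only [Set.mem_iInter, Set.mem_ofPred_eq]
    constructor
    · intro hg Y x
      exact LinearMap.congr_fun (hg Y.1 Y.2) x
    · intro hg Y hY
      exact LinearMap.ext fun x => hg ⟨Y, hY⟩ x
  rw [h2]
  refine isClosed_iInter fun Y => isClosed_iInter fun x => ?_
  exact isClosed_eq (hc _)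
    ((LinearMap.continuous_of_finiteDimensional (Y : End ℚ_[ℓ] (∀ i, Fin (n i) → ℚ_[ℓ]))).comp
      (hc x))

end kernel

section main

variable {Γ : Type} [Group Γ] [TopologicalSpace Γ] [IsTopologicalGroup Γ] [CompactSpace Γ]
  {ι : Type} [Fintype ι] [DecidableEq ι] {n : ι → ℕ}

/-- A dense set of elements has eigenvalues which generate a torsion free group which contains `r`
independent eigenvalues. -/
def ConnectedOfRank {G : Type} [Group G] [TopologicalSpace G] {ℓ : ℕ} [Fact ℓ.Prime]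
    (ρ : ∀ i, Representation ℚ_[ℓ] G (Fin (n i) → ℚ_[ℓ])) (r : ℕ) : Prop :=
  ∀ O : Set G, IsOpen O → O.Nonempty → ∃ γ ∈ O, IndepAt ρ r γ ∧ TorsionFreeAt ρ γ

variable {s : GF ℚ →* Γ} {ρ : ∀ (ℓ : ℕ) [Fact ℓ.Prime], Reps Γ n ℓ}
    {𝔤 : ∀ (ℓ : ℕ) [Fact ℓ.Prime], EndSpace n ℓ} {w : ι → ℤ} {r : ℕ}
    {S : Set (HeightOneSpectrum (𝓞 ℚ))} {P : HeightOneSpectrum (𝓞 ℚ) → ι → ℚ[X]} {c : ℕ}

theorem sum_root {ℓ : ℕ} [Fact ℓ.Prime] (ρ : ∀ i, Representation ℚ_[ℓ] Γ (Fin (n i) → ℚ_[ℓ]))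
    {g : Γ} {a : AlgebraicClosure ℚ_[ℓ]} (ha : aeval a (sumRep ρ g).charpoly = 0) :
    ∃ i, aeval a (ρ i g).charpoly = 0 := by
  rw [sumRep_apply, Pool.Agent.Y114.AP.charpoly_piEnd', map_prod, Finset.prod_eq_zero_iff] at ha
  obtain ⟨i, -, hi⟩ := ha
  exact ⟨i, hi⟩

theorem System.fixed (hREL : S_REL) (hROOT : S_ROOT) (hPW : S_PW) (h : System s ρ 𝔤 w r S P c)
    (hs : Continuous s) (ℓ₀ : ℕ) [Fact ℓ₀.Prime]
    (hcon : ConnectedOfRank (restrictTo (ρ ℓ₀) s) r) (ℓ : ℕ) [Fact ℓ.Prime]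
    {L : Submodule ℚ_[ℓ] (End ℚ_[ℓ] (∀ i, Fin (n i) → ℚ_[ℓ]))} {g₀ : Γ} [Algebra ℚ_[ℓ] ℂ]
    (hS : Semi (ρ ℓ) (𝔤 ℓ) L r g₀) :
    ∀ γ : GF ℚ, ∀ Y ∈ RM.comm L, sumRep (ρ ℓ) (s γ) * Y = Y * sumRep (ρ ℓ) (s γ) := by
  have hℓp : ℓ.Prime := Fact.out
  set K : Subgroup (GF ℚ) := fixer (ρ ℓ) s (RM.comm L) with hK
  have hKfin : K.FiniteIndex := by
    obtain ⟨Δ, hΔ, h1⟩ := hS.fixed
    have h2 : (Δ.comap s).FiniteIndex := finiteIndex_comap s hΔ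
    exact Subgroup.finiteIndex_of_le (H := Δ.comap s) fun γ hγ Y hY => h1 (s γ) hγ Y hY
  have hKo : IsOpen (K : Set (GF ℚ)) :=
    Subgroup.isOpen_of_isClosed_of_finiteIndex K (isClosed_fixer (h.cont ℓ) hs _)
  intro γ₁
  have hO : IsOpen {γ : GF ℚ | γ₁⁻¹ * γ ∈ K} := hKo.preimage (continuous_const.mul continuous_id)
  obtain ⟨γ₀, hγO, hγ₀, htf⟩ := hcon _ hO ⟨γ₁, by
    show γ₁⁻¹ * γ₁ ∈ K
    rw [inv_mul_cancel]
    exact K.one_mem⟩
  obtain ⟨v, hv1, hv2, -, -, hpf, σ, ⟨Q, hQ, hσ⟩, hσO⟩ := h.place hREL hROOT hs ℓ₀ hγ₀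
    {v | Above v ℓ} (finite_above ℓ hℓp) hO hγO
  have hσK : σ⁻¹ ∈ K := by
    intro Y hY
    obtain ⟨M, hM, hMY⟩ := hS.order (s σ⁻¹)
    obtain ⟨J, -⟩ := exists_J ℓ
    refine hPW ℚ_[ℓ] _ (sumRep (ρ ℓ) (s σ⁻¹)) (sumRep (ρ ℓ) (s σ⁻¹)⁻¹) M (by
        rw [← map_mul, mul_inv_cancel, map_one]) (by rw [← map_mul, inv_mul_cancel, map_one]) hM
      (fun a b ha hb hab => ?_) Y (hMY Y hY)
    have hch : ∀ i, (ρ ℓ i (s σ⁻¹)).charpoly = (P v i).map (algebraMap ℚ ℚ_[ℓ]) := fun i =>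
      ((h.good v hv2 ℓ hv1 i).2 Q hQ σ).2 hσ
    obtain ⟨i, hi⟩ := sum_root (ρ ℓ) ha
    obtain ⟨j, hj⟩ := sum_root (ρ ℓ) hb
    rw [hch, aeval_map_iff] at hi hj
    exact J.injective (hpf htf i j (J a) (J b) (by rw [aeval_J, hi, map_zero])
      (by rw [aeval_J, hj, map_zero]) M hM (by rw [← map_pow, ← map_pow, hab]))
  have h3 : γ₁⁻¹ * σ⁻¹ ∈ K := hσO
  have h4 : γ₁ ∈ K := by
    have h5 := K.mul_mem hσK (K.inv_mem h3)
    simpa using h5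
  exact h4

theorem blk_commute {k : Type} [Field k] [CharZero k] {V : ι → Type} [∀ i, AddCommGroup (V i)]
    [∀ i, Module k (V i)] [∀ i, FiniteDimensional k (V i)] (ρ : ∀ i, Representation k Γ (V i)) {z : End k (∀ i, V i)} {g : Γ}
    (h : sumRep ρ g * z = z * sumRep ρ g) (i : ι) : blk i z * ρ i g = ρ i g * blk i z := by
  refine LinearMap.ext fun x => ?_
  have h2 := congrFun (LinearMap.congr_fun h (Pi.single i x)) i
  rw [Module.End.mul_apply, Module.End.mul_apply, sumRep_single] at h2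
  rw [Module.End.mul_apply, Module.End.mul_apply, blk_apply, blk_apply]
  exact h2.symm

theorem blk_op {k : Type} [Field k] [CharZero k] [Algebra k ℂ] {V : ι → Type}
    [∀ i, AddCommGroup (V i)] [∀ i, Module k (V i)] [∀ i, FiniteDimensional k (V i)]
    (ρ : ∀ i, Representation k Γ (V i)) {z : End k (∀ i, V i)}
    (hz : ∀ x i, z x i = z (Pi.single i (x i)) i) {γ : Γ} {θ : Additive ℂˣ →+ ℂ}
    (hθ : IsOp θ ((sumRep ρ γ).baseChange ℂ) (z.baseChange ℂ)) (i : ι) :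
    IsOp θ ((ρ i γ).baseChange ℂ) ((blk i z).baseChange ℂ) := by
  obtain ⟨Y', hY'⟩ := exists_op ((ρ i γ).baseChange ℂ) (fun z => ext0 θ z)
  have h1 : (LinearMap.single k V i).baseChange ℂ ∘ₗ (ρ i γ).baseChange ℂ =
      (sumRep ρ γ).baseChange ℂ ∘ₗ (LinearMap.single k V i).baseChange ℂ := by
    rw [← LinearMap.baseChange_comp, ← LinearMap.baseChange_comp]
    congr 1
    refine LinearMap.ext fun y => ?_
    exact (sumRep_single ρ γ i y).symm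
  have h2 := op_natural hY' hθ h1
  have h3 : (LinearMap.single k V i).baseChange ℂ ∘ₗ (blk i z).baseChange ℂ =
      z.baseChange ℂ ∘ₗ (LinearMap.single k V i).baseChange ℂ := by
    rw [← LinearMap.baseChange_comp, ← LinearMap.baseChange_comp]
    congr 1
    refine LinearMap.ext fun y => funext fun j => ?_
    rw [LinearMap.comp_apply, LinearMap.comp_apply, LinearMap.single_apply, LinearMap.single_apply,
      hz, blk_apply]
    by_cases hj : j = i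
    · subst hj
      rw [Pi.single_eq_same, Pi.single_eq_same]
    · rw [Pi.single_eq_of_ne hj, Pi.single_eq_of_ne hj, Pi.single_zero, map_zero]
      rfl
  have h4 : (LinearMap.proj i : (∀ i, V i) →ₗ[k] V i).baseChange ℂ ∘ₗ
      (LinearMap.single k V i).baseChange ℂ = LinearMap.id := by
    rw [← LinearMap.baseChange_comp, ← LinearMap.baseChange_id (R := k) (A := ℂ)]
    congr 1
    refine LinearMap.ext fun y => ?_
    exact Pi.single_eq_same i y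
  have h5 : Y' = (blk i z).baseChange ℂ := by
    have h6 := congrArg (fun A => (LinearMap.proj i : (∀ i, V i) →ₗ[k] V i).baseChange ℂ ∘ₗ A)
      (h2.trans h3.symm)
    simp only [← LinearMap.comp_assoc, h4, LinearMap.id_comp] at h6
    exact h6
  rw [← h5]
  exact hY'

/-- The central elements of `L` act by scalars on the summands. -/
theorem System.center (hREL : S_REL) (hROOT : S_ROOT) (hPW : S_PW) (hCTR : S_CTR)
    (h : System s ρ 𝔤 w r S P c) (hs : Continuous s) (ℓ₀ : ℕ) [Fact ℓ₀.Prime]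
    (hcon : ConnectedOfRank (restrictTo (ρ ℓ₀) s) r) (ℓ : ℕ) [Fact ℓ.Prime]
    {v₀ : HeightOneSpectrum (𝓞 ℚ)} (hv₀ : v₀ ∉ S) (hv₀ℓ : ¬ Above v₀ ℓ)
    {L : Submodule ℚ_[ℓ] (End ℚ_[ℓ] (∀ i, Fin (n i) → ℚ_[ℓ]))} [Algebra ℚ_[ℓ] ℂ]
    (hS : ∀ σ₀ : GF ℚ, (∃ Q, PrimeOver Q v₀ ∧ IsFrobAt Q (q v₀) σ₀) →
        Semi (ρ ℓ) (𝔤 ℓ) L r (s σ₀⁻¹)) :
    ∀ z ∈ L, z ∈ RM.comm L → ∀ i, ∃ a : ℚ_[ℓ], blk i z = a • 1 := by
  classical
  have hℓp : ℓ.Prime := Fact.out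
  have hG := h.motivic ℓ
  intro z hzL hzc i
  -- three primes
  obtain ⟨p₀, hp₀, hvp₀⟩ := exists_above v₀
  have hp₀ℓ : p₀ ≠ ℓ := by
    rintro rfl
    exact hv₀ℓ hvp₀
  have hp₀T : p₀ ∈ goodPrimes S ℓ := ⟨hp₀, hp₀ℓ, fun v hv => by
    rw [above_unique hp₀ hv hvp₀]
    exact hv₀⟩
  obtain ⟨l, hl0, hlinj, hlT⟩ : ∃ l : Fin 3 → ℕ, l 0 = p₀ ∧ Function.Injective l ∧
      ∀ i, l i ∈ goodPrimes S ℓ := exists_three (infinite_goodPrimes h.finite ℓ) hp₀T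
  have hpl : ∀ p ∈ goodPrimes S ℓ, ∃ (v : HeightOneSpectrum (𝓞 ℚ)) (Q : Ideal (OO ℚ)) (σ : GF ℚ),
      Above v p ∧ q v = p ∧ Q.IsPrime ∧ (p : OO ℚ) ∈ Q ∧ PrimeOver Q v ∧ FrobAt p Q σ := by
    intro p hp
    obtain ⟨Q, σ, hQ, hQv, hσ⟩ := Pool.Agent.W571.FM.frob_cm (Pool.Agent.Y726.ZI.pv p hp.1)
    have hab : Above (Pool.Agent.Y726.ZI.pv p hp.1) p := Ideal.mem_span_singleton_self _
    refine ⟨Pool.Agent.Y726.ZI.pv p hp.1, Q, σ, hab, q_eq hp.1 hab, hQ.isPrime, ?_,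
      ⟨hQ.isPrime, hQv⟩, ?_⟩
    · rw [← Pool.Agent.W571.FM.natCast_mem_cm, hQv]
      exact hab
    · rwa [Pool.Agent.Y726.ZI.absNorm_pv] at hσ
  choose v Q σ hvl hqv hQ hlQ hQv hσ using fun i => hpl (l i) (hlT i)
  have hv0 : v 0 = v₀ := above_unique hp₀ (hl0 ▸ hvl 0) hvp₀
  have hS0 : Semi (ρ ℓ) (𝔤 ℓ) L r (s (σ 0)⁻¹) := hS (σ 0) ⟨Q 0, hv0 ▸ hQv 0, by
    rw [← hv0, hqv 0]
    exact hσ 0⟩
  -- `z` commutes with the Galois group
  have hzs := System.fixed hREL hROOT hPW h hs ℓ₀ hcon ℓ hS0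
  have hzop : z.baseChange ℂ ∈ tor ((sumRep (ρ ℓ) (s (σ 0)⁻¹)).baseChange ℂ) := by
    refine hS0.tor_cen _ (bcS_mono hS0.le (mem_bcS hzL)) fun a ha => ?_
    exact bcS_comm (fun X hX => hzc X hX) a (hS0.tor_le ha)
  obtain ⟨θ, hθ⟩ := hzop
  have hzp := hG.parts z (hS0.le hzL)
  have hop : IsOp θ ((ρ ℓ i (s (σ 0)⁻¹)).baseChange ℂ) ((blk i z).baseChange ℂ) := blk_op (ρ ℓ) hzp hθ i
  have hcomm : ∀ g, blk i z * ρ ℓ i (s g) = ρ ℓ i (s g) * blk i z := by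
    intro g
    exact blk_commute (ρ ℓ) (hzs g z hzc) i
  obtain ⟨a, ha⟩ := hCTR ℓ (n i) (restrictTo (ρ ℓ) s i) ((h.cont ℓ i).comp hs) (w i) l
    (fun j => (hlT j).1) hlinj (fun j => (hlT j).2.1) Q hQ hlQ σ hσ (fun j => P (v j) i)
    (fun j => ((h.good (v j) ((hlT j).2.2 _ (hvl j)) ℓ
      (not_above (hlT j).1 hℓp (hlT j).2.1 (hvl j)) i).2 (Q j) (hQv j) (σ j)).2 (by
        rw [hqv j]
        exact hσ j))
    (fun j b hb => by
      have h1 := (h.good (v j) ((hlT j).2.2 _ (hvl j)) ℓ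
        (not_above (hlT j).1 hℓp (hlT j).2.1 (hvl j)) i).1 b hb
      rwa [hqv j] at h1)
    (blk i z) hcomm θ hop
  exact ⟨a, ha⟩

end main

end Pool.Agent.Y114.OP
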