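import Mathlib
import Pool.Agent.Y114.OP.Main2

/-!
# Final definitions and theorems
-/

set_option autoImplicit false
set_option linter.unusedSectionVars false
set_option linter.unusedVariables false

namespace Pool.Agent.Y114.OP

open NumberField IsDedekindDomain Module Polynomial TensorProduct Pool.Agent.TH118.SG
  Pool.Agent.Y114.MU Pool.Agent.Y114.TF Pool.Agent.Y114.GF Pool.Agent.H204R3.GP Pool.Agent.Y114.RM
  Pool.Agent.W569.FM

section general

variable {k : Type} [Field k] {V : Type} [AddCommGroup V] [Module k V]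

/-- `Y` commutes with a subgroup of finite index of `Γ`. -/
def TateEnd {Γ : Type} [Group Γ] (ρ : Representation k Γ V) (Y : End k V) : Prop :=
  ∃ Δ : Subgroup Γ, Δ.FiniteIndex ∧ ∀ γ ∈ Δ, ρ γ * Y = Y * ρ γ

/-- Endomorphisms which commute with a subgroup of finite index commute with `Γ`. -/
def TateEndInvariant {Γ : Type} [Group Γ] (ρ : Representation k Γ V) : Prop :=
  ∀ Y, TateEnd ρ Y → ∀ γ, ρ γ * Y = Y * ρ γ

/-- `Y` commutes with `𝔤`. -/
def CommutesWith (Y : End k V) (𝔤 : Submodule k (End k V)) : Prop := ∀ X ∈ 𝔤, X * Y = Y * X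

/-- `Z` is a central element of `𝔥`. -/
def IsCentral (𝔥 : Submodule k (End k V)) (Z : End k V) : Prop := Z ∈ 𝔥 ∧ CommutesWith Z 𝔥

/-- Every element of `𝔤` which commutes with the centre of `𝔥` is in `𝔥`. -/
def IsLevi (𝔥 𝔤 : Submodule k (End k V)) : Prop :=
  ∀ X ∈ 𝔤, (∀ Z, IsCentral 𝔥 Z → X * Z = Z * X) → X ∈ 𝔥

end general

section blocks

variable {k : Type} [Field k] {ι : Type} [DecidableEq ι] {V : ι → Type}
  [∀ i, AddCommGroup (V i)] [∀ i, Module k (V i)]

/-- The central elements of `𝔥` act by scalars on the summands. -/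
def CentreScalar (𝔥 : Submodule k (End k (∀ i, V i))) : Prop :=
  ∀ Z, IsCentral 𝔥 Z → ∀ i, ∃ a : k, blk i Z = a • 1

end blocks

section props

variable {Γ : Type} [Group Γ] {ι : Type} {n : ι → ℕ} {ℓ : ℕ} [Fact ℓ.Prime]
  (ρ : Reps Γ n ℓ) (𝔤 : EndSpace n ℓ)

/-- There are `r` multiplicatively independent numbers among the eigenvalues of `γ` on the
summands. -/
def IndepEigenvalues (r : ℕ) (γ : Γ) : Prop := IndepAt ρ r γ

/-- The group generated by the eigenvalues of `γ` on the summands is torsion free. -/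
def TorsionFreeEigenvalues (γ : Γ) : Prop := TorsionFreeAt ρ γ

/-- Endomorphisms which commute with a subgroup of finite index commute with `𝔤`. -/
def EndTate : Prop := ∀ Y, TateEnd (sumRep ρ) Y → CommutesWith Y 𝔤

/-- Endomorphisms which commute with a subgroup of finite index commute with `Γ`. -/
def EndConnected : Prop := TateEndInvariant (sumRep ρ)

/-- All reductive subalgebras of `𝔤` of rank `r` are the centralizers in `𝔤` of their centres. -/
def EqualRankLevi (r : ℕ) : Prop := ∀ 𝔥 : EndSpace n ℓ, ReductiveOfRank 𝔤 𝔥 r → IsLevi 𝔥 𝔤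

end props

end Pool.Agent.Y114.OP
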