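import Mathlib

/-!
# One prime and all primes: task statements, second part
-/

set_option autoImplicit false

namespace Pool.Agent.Y114.OP

open Filter Topology

/-- SIEVE: if the proportion of the residue classes in `A p` is at least `δ`, for infinitely many
primes `p`, then 100 percent of the integer vectors `a` are in `A p` modulo at least `k` of these
primes. -/
def S_SIEVE : Prop := ∀ (N : ℕ) (δ : ℝ), 0 < δ → ∀ T : Set ℕ, T.Infinite → (∀ p ∈ T, p.Prime) →
  ∀ A : ∀ p : ℕ, Set (Fin N → ZMod p), (∀ p ∈ T, δ * (p : ℝ) ^ N ≤ ((A p).ncard : ℝ)) →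
  ∀ k : ℕ, Tendsto (fun H : ℕ => (Set.ncard {a : Fin N → ℤ | (∀ j, |a j| ≤ H) ∧
    ∃ t : Finset ℕ, t.card = k ∧ ∀ p ∈ t, p ∈ T ∧ (fun j => (a j : ZMod p)) ∈ A p} : ℝ) /
      (2 * (H : ℝ) + 1) ^ N) atTop (𝓝 1)

end Pool.Agent.Y114.OP
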