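import Mathlib
import Pool.Agent.Y114.OP.Final
import Pool.Agent.Y114.OP.Stm2

/-!
# Families: 100 percent of the members
-/

set_option autoImplicit false
set_option linter.unusedSectionVars false
set_option linter.unusedVariables false

namespace Pool.Agent.Y114.OP

open NumberField IsDedekindDomain Module Polynomial TensorProduct Pool.Agent.TH118.SG
  Pool.Agent.Y114.MU Pool.Agent.Y114.TF Pool.Agent.Y114.GF Pool.Agent.H204R3.GP Pool.Agent.Y114.RM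
  Pool.Agent.W569.FM Filter Topology

variable {ι : Type} [Fintype ι] [DecidableEq ι] {n : ι → ℕ}

theorem restrictTo_id {Γ : Type} [Group Γ] {ℓ : ℕ} [Fact ℓ.Prime] (ρ : Reps Γ n ℓ) :
    restrictTo ρ (MonoidHom.id Γ) = ρ := rfl

/-- The reductions of the `ℓ`-adic representations at `p` are good for all `ℓ ≠ p`, with Frobenius
polynomials independent of `ℓ`, with `r` multiplicatively independent roots. -/
def FullRankAt (ρ : ∀ (ℓ : ℕ) [Fact ℓ.Prime], Reps (GF ℚ) n ℓ) (w : ι → ℤ) (r p : ℕ) : Prop :=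
  ∃ P : ι → ℚ[X], IndepRoots r (Set.range P) ∧ ∀ (ℓ : ℕ) [Fact ℓ.Prime], ℓ ≠ p →
    ∀ v, Above v p → ∀ i, GoodReduction (ρ ℓ) i (w i) v (P i)

/-- The conclusion at `ℓ`. -/
def GoodAt {ℓ : ℕ} [Fact ℓ.Prime] (ρ : Reps (GF ℚ) n ℓ) (𝔤 : EndSpace n ℓ) (r : ℕ) : Prop :=
  Semisimple ρ ∧ (∃ 𝔥 : EndSpace n ℓ, KillsTateTensors ρ 𝔥 ∧ ReductiveOfRank 𝔤 𝔥 r) ∧
    (EndTate ρ 𝔤 → TateTensorsOf ρ 𝔤)

theorem four (hLAT : S_LAT) {ρ : ∀ (ℓ : ℕ) [Fact ℓ.Prime], Reps (GF ℚ) n ℓ}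
    (hρ : ∀ (ℓ : ℕ) [Fact ℓ.Prime], Conts (ρ ℓ)) {𝔤 : ∀ (ℓ : ℕ) [Fact ℓ.Prime], EndSpace n ℓ}
    (h𝔤 : ∀ (ℓ : ℕ) [Fact ℓ.Prime], Motivic (ρ ℓ) (𝔤 ℓ)) {r : ℕ} {w : ι → ℤ}
    (hrank : ∀ (ℓ : ℕ) [Fact ℓ.Prime], RankLE (𝔤 ℓ) r) (t : Finset ℕ) (ht : t.card = 4)
    (hp : ∀ p ∈ t, p.Prime) (hgood : ∀ p ∈ t, FullRankAt ρ w r p) (ℓ : ℕ) [Fact ℓ.Prime] :
    GoodAt (ρ ℓ) (𝔤 ℓ) r := by
  classical
  have hℓp : ℓ.Prime := Fact.out
  have h1 : ∀ p : ℕ, ∃ P : ι → ℚ[X], p ∈ t → IndepRoots r (Set.range P) ∧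
      ∀ (ℓ : ℕ) [Fact ℓ.Prime], ℓ ≠ p → ∀ v, Above v p → ∀ i,
        GoodReduction (ρ ℓ) i (w i) v (P i) := by
    intro p
    by_cases h : p ∈ t
    · obtain ⟨P, hP⟩ := hgood p h
      exact ⟨P, fun _ => hP⟩
    · exact ⟨fun _ => 0, fun h' => absurd h' h⟩
  choose P hP using h1
  set T : Finset ℕ := t.erase ℓ with hT
  have hT3 : 3 ≤ T.card := by
    have h2 := Finset.pred_card_le_card_erase (s := t) (a := ℓ)
    rw [ht] at h2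
    rw [hT]
    exact h2
  have hTs : 3 ≤ (T : Set ℕ).encard := by
    rw [Set.encard_coe_eq_coe_finsetCard]
    exact_mod_cast hT3
  obtain ⟨p₀, hp₀⟩ : T.Nonempty := Finset.card_pos.1 (by omega)
  have hp₀t := Finset.mem_of_mem_erase hp₀
  have hp₀p := hp p₀ hp₀t
  have hv₀ : Above (Pool.Agent.Y726.ZI.pv p₀ hp₀p) p₀ := Ideal.mem_span_singleton_self _
  have hqT : ∀ p ∈ T, ∀ v, Above v p → q v = p := fun p hpT v hv =>
    q_eq (hp p (Finset.mem_of_mem_erase hpT)) hv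
  obtain ⟨L, alg, hL⟩ := semi_gen (w := w) inputs inputs2 inputs3.rank (ρ ℓ) (MonoidHom.id (GF ℚ))
    continuous_id (hρ ℓ) (𝔤 ℓ) (h𝔤 ℓ) (fun v => P (q v)) (T : Set ℕ) hTs
    (fun p hpT => ⟨hp p (Finset.mem_of_mem_erase hpT), Finset.ne_of_mem_erase hpT,
      unramifiedIn_rat (hp p (Finset.mem_of_mem_erase hpT))⟩)
    (fun p hpT v hv => goodPlace_of (restrictTo (ρ ℓ) (MonoidHom.id (GF ℚ))) fun i => by
      rw [hqT p hpT v hv]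
      exact (hP p (Finset.mem_of_mem_erase hpT)).2 ℓ (Finset.ne_of_mem_erase hpT).symm v hv i)
    hp₀ (independentPlaces_rat _ hp₀p hv₀) hv₀ r (by
      rw [hqT p₀ hp₀ _ hv₀]
      exact independentRoots_range (hP p₀ hp₀t).1) (hrank ℓ)
  obtain ⟨Q, σ, hQ, hQv, hσ⟩ := Pool.Agent.W571.FM.frob_cm (Pool.Agent.Y726.ZI.pv p₀ hp₀p)
  have hS := hL σ ⟨Q, ⟨hQ.isPrime, hQv⟩, hσ⟩
  refine ⟨hS.ss, ⟨L, hS.mem, hS.lie, hS.nondeg, hS.rk, hS.le⟩, fun hE => ?_⟩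
  have hfin : L = 𝔤 ℓ := eq_of_endTate inputs hLAT hS (h𝔤 ℓ) hE
  intro m φ
  refine ⟨fun hφ X hX => ?_, IsMotivic.tate (h𝔤 ℓ) m φ⟩
  have hX' : X ∈ L := by
    rw [hfin]
    exact hX
  exact (hS.mem X).1 hX' m φ hφ

/-- The integer vectors in a box. -/
def Box (N : ℕ) (H : ℕ) : Set (Fin N → ℤ) := {a | ∀ j, |a j| ≤ H}

/-- 100 percent of the integer vectors have the property. -/
def HundredPercent {N : ℕ} (Q : (Fin N → ℤ) → Prop) : Prop :=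
  Tendsto (fun H : ℕ => (Set.ncard {a | a ∈ Box N H ∧ Q a} : ℝ) / (2 * (H : ℝ) + 1) ^ N) atTop
    (𝓝 1)

theorem finite_box (N H : ℕ) : (Box N H).Finite := by
  have h1 : Box N H ⊆ Set.pi Set.univ fun _ : Fin N => Set.Icc (-(H : ℤ)) H := by
    intro a ha j _
    exact abs_le.1 (ha j)
  exact (Set.Finite.pi fun _ => Set.finite_Icc _ _).subset h1

theorem ncard_box (N H : ℕ) : (Box N H).ncard = (2 * H + 1) ^ N := by
  have h1 : Box N H = ((Fintype.piFinset fun _ : Fin N => Finset.Icc (-(H : ℤ)) H : Finset _) :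
      Set (Fin N → ℤ)) := by
    ext a
    simp only [Finset.mem_coe, Fintype.mem_piFinset, Finset.mem_Icc]
    exact forall_congr' fun j => abs_le
  rw [h1, Set.ncard_coe_finset, Fintype.card_piFinset]
  simp only [Int.card_Icc, Finset.prod_const, Finset.card_univ, Fintype.card_fin]
  congr 1
  omega

theorem hundred_mono {N : ℕ} {Q Q' : (Fin N → ℤ) → Prop} (h : HundredPercent Q)
    (h' : ∀ a, Q a → Q' a) : HundredPercent Q' := by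
  refine tendsto_of_tendsto_of_tendsto_of_le_of_le h tendsto_const_nhds (fun H => ?_) fun H => ?_
  · refine div_le_div_of_nonneg_right ?_ (by positivity)
    exact Nat.cast_le.2 (Set.ncard_le_ncard (fun a ha => ⟨ha.1, h' a ha.2⟩)
      ((finite_box N H).subset fun a ha => ha.1))
  · have h2 : (Set.ncard {a | a ∈ Box N H ∧ Q' a} : ℝ) ≤ (2 * (H : ℝ) + 1) ^ N := by
      have h3 := Set.ncard_le_ncard (s := {a | a ∈ Box N H ∧ Q' a}) (t := Box N H)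
        (fun a ha => ha.1) (finite_box N H)
      rw [ncard_box] at h3
      exact_mod_cast h3
    show _ / _ ≤ (1 : ℝ)
    rw [div_le_one (by positivity)]
    exact h2

theorem family (hLAT : S_LAT) (hS : S_SIEVE) {N : ℕ} (w : ι → ℤ) (r : ℕ)
    (ρ : (Fin N → ℤ) → ∀ (ℓ : ℕ) [Fact ℓ.Prime], Reps (GF ℚ) n ℓ)
    (𝔤 : (Fin N → ℤ) → ∀ (ℓ : ℕ) [Fact ℓ.Prime], EndSpace n ℓ) (U : Set (Fin N → ℤ))
    (hρ : ∀ a ∈ U, ∀ (ℓ : ℕ) [Fact ℓ.Prime], Conts (ρ a ℓ))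
    (h𝔤 : ∀ a ∈ U, ∀ (ℓ : ℕ) [Fact ℓ.Prime], Motivic (ρ a ℓ) (𝔤 a ℓ))
    (hrank : ∀ a ∈ U, ∀ (ℓ : ℕ) [Fact ℓ.Prime], RankLE (𝔤 a ℓ) r)
    (T : Set ℕ) (hT : T.Infinite) (hTp : ∀ p ∈ T, p.Prime) (A : ∀ p : ℕ, Set (Fin N → ZMod p))
    (δ : ℝ) (hδ : 0 < δ) (hA : ∀ p ∈ T, δ * (p : ℝ) ^ N ≤ ((A p).ncard : ℝ))
    (hgood : ∀ p ∈ T, ∀ a : Fin N → ℤ, (fun j => (a j : ZMod p)) ∈ A p →
      a ∈ U ∧ FullRankAt (ρ a) w r p) :
    HundredPercent fun a => a ∈ U ∧ ∀ (ℓ : ℕ) [Fact ℓ.Prime], GoodAt (ρ a ℓ) (𝔤 a ℓ) r := by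
  refine hundred_mono (hS N δ hδ T hT hTp A hA 4) fun a ha => ?_
  obtain ⟨t, ht, hta⟩ := ha
  obtain ⟨p, hp⟩ : t.Nonempty := Finset.card_pos.1 (by omega)
  have haU : a ∈ U := (hgood p (hta p hp).1 a (hta p hp).2).1
  refine ⟨haU, fun ℓ _ => ?_⟩
  exact four hLAT (hρ a haU) (h𝔤 a haU) (hrank a haU) t ht (fun p hp => hTp p (hta p hp).1)
    (fun p hp => (hgood p (hta p hp).1 a (hta p hp).2).2) ℓ

end Pool.Agent.Y114.OP
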