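import Mathlib
import Pool.Agent.Y114.OP.Stm

/-!
# Statements of jobs: products with an arbitrary representation
-/

set_option autoImplicit false

namespace Pool.Agent.Y114.OP

open Module Polynomial Pool.Agent.TH118.SG Pool.Agent.Y114.RM

/-- REL2: as `S_REL` (first part), for relations which satisfy finitely many linear equations with
integral coefficients, and with a given nonzero exponent. -/
def S_REL2 : Prop := ∀ (ι : Type) [Fintype ι] (n : ι → ℕ) (w : ι → ℤ) (c N : ℕ) (κ : Type)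
  [Fintype κ] (A : κ → Fin N → ℤ) (j₀ : Fin N),
  ∃ B M : ℕ, 0 < M ∧ ∀ p : ℕ, p.Prime → ∀ P : ι → ℚ[X],
  (∀ i, P i ≠ 0 ∧ (P i).natDegree ≤ n i) →
  (∀ i, ∀ a ∈ (P i).aroots ℂ, ‖a‖ ^ 2 = (p : ℝ) ^ w i ∧ IsIntegral ℤ ((p : ℂ) ^ c * a)) →
  ∀ z : Fin N → ℂ, (∀ j, ∃ i, z j ∈ (P i).aroots ℂ) →
  (∃ e : Fin N → ℤ, (∀ a, ∑ j, A a j * e j = 0) ∧ e j₀ ≠ 0 ∧ ∏ j, z j ^ e j = 1) →
    ∃ e : Fin N → ℤ, (∀ a, ∑ j, A a j * e j = 0) ∧ e j₀ ≠ 0 ∧ (∀ j, |e j| ≤ B) ∧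
      (∏ j, z j ^ e j) ^ M = 1

/-- ROOT2: as `S_ROOT` (first part), with `N'` more eigenvalues which are arbitrary at `γ`. -/
def S_ROOT2 : Prop := ∀ (ℓ : ℕ) [Fact ℓ.Prime] (ι : Type) [Fintype ι] (n : ι → ℕ) (Γ : Type)
  [Group Γ] [TopologicalSpace Γ] [IsTopologicalGroup Γ]
  (ρ : ∀ i, Representation ℚ_[ℓ] Γ (Fin (n i) → ℚ_[ℓ])),
  (∀ i, Continuous fun g => LinearMap.toMatrix' (ρ i g)) →
  ∀ (B M N N' : ℕ) (k : Fin N → ι) (k' : Fin N' → ι) (γ₀ : Γ), 0 < M →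
  ∃ O : Set Γ, IsOpen O ∧ γ₀ ∈ O ∧ ∀ γ ∈ O,
  ∀ z : Fin N → AlgebraicClosure ℚ_[ℓ], (∀ j, aeval (z j) (ρ (k j) γ₀).charpoly = 0) →
  ∃ z' : Fin N → AlgebraicClosure ℚ_[ℓ], (∀ j, aeval (z' j) (ρ (k j) γ).charpoly = 0) ∧
  ∀ y' : Fin N' → AlgebraicClosure ℚ_[ℓ], (∀ j, aeval (y' j) (ρ (k' j) γ).charpoly = 0) →
  ∃ y : Fin N' → AlgebraicClosure ℚ_[ℓ], (∀ j, aeval (y j) (ρ (k' j) γ₀).charpoly = 0) ∧
  ∀ (e : Fin N → ℤ) (f : Fin N' → ℤ), (∀ j, |e j| ≤ B) → (∀ j, |f j| ≤ B) →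
    ((∏ j, z' j ^ e j) * ∏ j, y' j ^ f j) ^ M = 1 → ((∏ j, z j ^ e j) * ∏ j, y j ^ f j) ^ M = 1

/-- MIX: a Lie algebra of endomorphisms of `E` which respect the decomposition given by the
idempotent `e`, stable under the conjugation by `g`.  If the quotients of the eigenvalues of `g` on the
two parts are independent (up to roots of unity) and the elements which commute with the
`θ`-operators of `g` on the first part commute there with each other, then the first components of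
the brackets are in the Lie algebra. -/
def S_MIX : Prop := ∀ (E : Type) [AddCommGroup E] [Module ℂ E] [FiniteDimensional ℂ E]
  (g g' e : End ℂ E) (L : Submodule ℂ (End ℂ E)), g * g' = 1 → g' * g = 1 → e * e = e →
  g * e = e * g → IsLie L → (∀ X ∈ L, AdE g g' X ∈ L) → (∀ X ∈ L, X * e = e * X) →
  (∀ a b c d : ℂ, (∃ x, x ≠ 0 ∧ e x = x ∧ g x = a • x) → (∃ x, x ≠ 0 ∧ e x = x ∧ g x = b • x) →
    (∃ x, x ≠ 0 ∧ e x = 0 ∧ g x = c • x) → (∃ x, x ≠ 0 ∧ e x = 0 ∧ g x = d • x) →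
    a * d = b * c → ∃ m : ℕ, 0 < m ∧ a ^ m = b ^ m) →
  (∀ X ∈ L, ∀ Y ∈ L,
    (∀ (θ : Additive ℂˣ →+ ℂ) (t : End ℂ E), IsOp θ g t → t * (X * e) = X * e * t) →
    (∀ (θ : Additive ℂˣ →+ ℂ) (t : End ℂ E), IsOp θ g t → t * (Y * e) = Y * e * t) →
    X * e * (Y * e) = Y * e * (X * e)) →
  ∀ X ∈ L, ∀ Y ∈ L, (X * Y - Y * X) * e ∈ L

end Pool.Agent.Y114.OP
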