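import Mathlib
import Pool.Agent.Y114.OP.Semi
import Pool.Agent.Y114.OP.Ends
import Pool.Agent.Y114.OP.Stm3

/-!
# Products with an arbitrary representation: linear algebra
-/

set_option autoImplicit false
set_option linter.unusedSectionVars false
set_option linter.unusedVariables false

namespace Pool.Agent.Y114.OP

open Module Polynomial TensorProduct Pool.Agent.TH118.SG Pool.Agent.Y114.MU Pool.Agent.Y114.TF
  Pool.Agent.H204R3.GP Pool.Agent.Y114.RM

section maps

variable {k : Type} [Field k] {V : Type} [AddCommGroup V] [Module k V] {W : Type} [AddCommGroup W]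
  [Module k W] {Γ : Type} [Group Γ]

/-- `X` kills the multilinear map `Φ` from `V ⊕ V^*` to `W` (as an element of the Lie algebra which
acts trivially on `W`). -/
def KillsMap (X : End k V) {m : ℕ} (Φ : MultilinearMap k (fun _ : Fin m => V × Dual k V) W) : Prop :=
  ∀ v, ∑ l, Φ (Function.update v l (lie X (v l))) = 0

/-- The multilinear map `Φ` from `V ⊕ V^*` to `W` is equivariant under a subgroup of finite index. -/
def TateMap (σ : Representation k Γ V) (τ : Representation k Γ W) {m : ℕ}
    (Φ : MultilinearMap k (fun _ : Fin m => V × Dual k V) W) : Prop :=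
  ∃ Δ : Subgroup Γ, Δ.FiniteIndex ∧ ∀ γ ∈ Δ, ∀ v,
    Φ (fun l => grp (σ γ) (σ γ⁻¹) (v l)) = τ γ (Φ v)

/-- The sum of two representations. -/
def prodRep (σ : Representation k Γ V) (τ : Representation k Γ W) : Representation k Γ (V × W) where
  toFun γ := (σ γ).prodMap (τ γ)
  map_one' := by rw [map_one, map_one]; rfl
  map_mul' a b := by rw [map_mul, map_mul]; rfl

theorem prodRep_apply (σ : Representation k Γ V) (τ : Representation k Γ W) (γ : Γ) (x : V × W) :
    prodRep σ τ γ x = (σ γ x.1, τ γ x.2) := rfl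

variable (k V W) in
/-- The restriction to `V` of vectors and linear forms. -/
def res : (V × W) × Dual k (V × W) →ₗ[k] V × Dual k V :=
  (LinearMap.fst k V W).prodMap (LinearMap.inl k V W).dualMap

variable (k V W) in
/-- The compression to `V`. -/
def cmp : End k (V × W) →ₗ[k] End k V where
  toFun X := LinearMap.fst k V W ∘ₗ X ∘ₗ LinearMap.inl k V W
  map_add' X Y := by rw [LinearMap.add_comp, LinearMap.comp_add]
  map_smul' c X := by rw [LinearMap.smul_comp, LinearMap.comp_smul, RingHom.id_apply]

theorem cmp_apply (X : End k (V × W)) (x : V) : cmp k V W X x = (X (x, 0)).1 := rfl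

variable (k V W) in
/-- The projection to `V`. -/
def prj : End k (V × W) := LinearMap.inl k V W ∘ₗ LinearMap.fst k V W

theorem prj_apply (x : V × W) : prj k V W x = (x.1, 0) := rfl

/-- The endomorphisms in the Lie algebra of the sum respect the sum. -/
theorem lt_prj {σ : Representation k Γ V} {τ : Representation k Γ W} {X : End k (V × W)}
    (hX : X ∈ LT (prodRep σ τ)) : X * prj k V W = prj k V W * X := by
  have h1 : ∀ x : V, (X (x, 0)).2 = 0 := by
    intro x
    have h := hX.1 (LinearMap.ker (LinearMap.snd k V W)) ⟨⊤, inferInstance, fun γ _ x hx => by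
      rw [LinearMap.mem_ker] at hx ⊢
      change τ γ x.2 = 0
      rw [show x.2 = 0 from hx, map_zero]⟩ (x, 0) rfl
    exact h
  have h2 : ∀ y : W, (X (0, y)).1 = 0 := by
    intro y
    have h := hX.1 (LinearMap.ker (LinearMap.fst k V W)) ⟨⊤, inferInstance, fun γ _ x hx => by
      rw [LinearMap.mem_ker] at hx ⊢
      change σ γ x.1 = 0
      rw [show x.1 = 0 from hx, map_zero]⟩ (0, y) rfl
    exact h
  refine LinearMap.ext fun x => ?_
  rw [Module.End.mul_apply, Module.End.mul_apply, prj_apply, prj_apply]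
  have h3 : X x = X (x.1, 0) + X (0, x.2) := by
    rw [← map_add, Prod.mk_add_mk, add_zero, zero_add]
  rw [h3, Prod.fst_add, h2, add_zero]
  exact Prod.ext rfl (h1 x.1)

theorem cmp_prj {X : End k (V × W)} (hX : X * prj k V W = prj k V W * X) (x : V) :
    X (x, 0) = (cmp k V W X x, 0) := by
  have h1 := LinearMap.congr_fun hX (x, 0)
  rw [Module.End.mul_apply, Module.End.mul_apply, prj_apply, prj_apply] at h1
  rw [h1]
  rfl

theorem cmp_mul {X Y : End k (V × W)} (hY : Y * prj k V W = prj k V W * Y) :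
    cmp k V W (X * Y) = cmp k V W X * cmp k V W Y := by
  refine LinearMap.ext fun x => ?_
  rw [Module.End.mul_apply, cmp_apply, Module.End.mul_apply, cmp_prj hY, cmp_apply, cmp_apply]

theorem lie_res {X : End k (V × W)} (hX : X * prj k V W = prj k V W * X) (v : V × Dual k V) :
    res k V W (lie X ((v.1, 0), v.2 ∘ₗ LinearMap.fst k V W)) = lie (cmp k V W X) v := by
  refine Prod.ext rfl ?_
  refine LinearMap.ext fun x => ?_
  rfl

theorem res_grp (σ : Representation k Γ V) (τ : Representation k Γ W) (γ : Γ)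
    (u : (V × W) × Dual k (V × W)) :
    res k V W (grp (prodRep σ τ γ) (prodRep σ τ γ⁻¹) u) = grp (σ γ) (σ γ⁻¹) (res k V W u) := by
  refine Prod.ext rfl ?_
  refine LinearMap.ext fun x => ?_
  change u.2 (prodRep σ τ γ⁻¹ (x, 0)) = u.2 (σ γ⁻¹ x, 0)
  rw [prodRep_apply, map_zero]

/-- The compressions are in the Lie algebra of `V`. -/
theorem cmp_mem {σ : Representation k Γ V} {τ : Representation k Γ W} {X : End k (V × W)}
    (hX : X ∈ LT (prodRep σ τ)) : cmp k V W X ∈ LT σ := by
  have hp := lt_prj hX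
  refine ⟨?_, ?_⟩
  · rintro U ⟨Δ, hΔ, hU⟩ x hx
    have h := hX.1 (U.prod ⊥) ⟨Δ, hΔ, fun γ hγ x hx => by
      rw [Submodule.mem_prod] at hx ⊢
      refine ⟨hU γ hγ _ hx.1, ?_⟩
      change τ γ x.2 ∈ _
      rw [(Submodule.mem_bot k).1 hx.2, map_zero]
      exact Submodule.zero_mem _⟩ (x, 0) ⟨hx, Submodule.zero_mem _⟩
    exact h.1
  · rintro m φ ⟨Δ, hΔ, hφ⟩ v
    have h := hX.2 m (φ.compLinearMap fun _ => res k V W) ⟨Δ, hΔ, fun γ hγ u => by
      rw [MultilinearMap.compLinearMap_apply, MultilinearMap.compLinearMap_apply]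
      simp only [res_grp]
      exact hφ γ hγ _⟩ fun l => (((v l).1, 0), (v l).2 ∘ₗ LinearMap.fst k V W)
    rw [← h]
    refine Finset.sum_congr rfl fun l _ => ?_
    rw [MultilinearMap.compLinearMap_apply]
    congr 1
    funext l'
    by_cases hl : l' = l
    · subst hl
      rw [Function.update_self, Function.update_self, lie_res hp]
    · rw [Function.update_of_ne hl, Function.update_of_ne hl]
      rfl

/-- A multilinear map to `W` as a tensor. -/
noncomputable def tens {m : ℕ} (Φ : MultilinearMap k (fun _ : Fin m => V × Dual k V) W) :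
    Tensor k (V × W) (m + 1) :=
  MultilinearMap.uncurryRight (M := fun _ : Fin (m + 1) => (V × W) × Dual k (V × W))
    (LinearMap.compMultilinearMap
      (LinearMap.mk₂ k (fun (w : W) (u : (V × W) × Dual k (V × W)) => u.2 ((0 : V), w))
        (fun w w' u => by
          rw [← map_add, Prod.mk_add_mk, add_zero])
        (fun c w u => by
          rw [← map_smul, Prod.smul_mk, smul_zero])
        (fun w u u' => by rw [Prod.snd_add, LinearMap.add_apply])
        (fun c w u => by rw [Prod.smul_snd, LinearMap.smul_apply]))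
      (Φ.compLinearMap fun _ => res k V W))

theorem tens_apply {m : ℕ} (Φ : MultilinearMap k (fun _ : Fin m => V × Dual k V) W)
    (u : Fin (m + 1) → (V × W) × Dual k (V × W)) :
    tens Φ u = (u (Fin.last m)).2 (0, Φ fun l => res k V W (u l.castSucc)) := rfl

/-- If `X ⊕ 0` kills the Tate tensors of `V ⊕ W` then `X` kills the Tate maps. -/
theorem kills_of {σ : Representation k Γ V} {τ : Representation k Γ W} {X : End k V}
    (hX : ∀ (m : ℕ) (φ : Tensor k (V × W) m), TateTensor (prodRep σ τ) φ →
      KillsTensor (LinearMap.inl k V W ∘ₗ X ∘ₗ LinearMap.fst k V W) φ) {m : ℕ}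
    {Φ : MultilinearMap k (fun _ : Fin m => V × Dual k V) W} (hΦ : TateMap σ τ Φ) :
    KillsMap X Φ := by
  obtain ⟨Δ, hΔ, hΦ⟩ := hΦ
  intro v
  rw [← Module.forall_dual_apply_eq_zero_iff k]
  intro ξ
  have h := hX (m + 1) (tens Φ) ⟨Δ, hΔ, fun γ hγ u => by
      rw [tens_apply, tens_apply]
      simp only [res_grp]
      rw [hΦ γ hγ]
      change (u (Fin.last m)).2 (prodRep σ τ γ⁻¹ (0, τ γ _)) = _
      rw [prodRep_apply, map_zero]
      congr 2
      change τ γ⁻¹ (τ γ _) = _
      rw [← Module.End.mul_apply, ← map_mul, inv_mul_cancel, map_one, Module.End.one_apply]⟩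
    (Fin.snoc (α := fun _ => (V × W) × Dual k (V × W))
      (fun l => (((v l).1, 0), (v l).2 ∘ₗ LinearMap.fst k V W)) (0, ξ ∘ₗ LinearMap.snd k V W))
  have hD : (LinearMap.inl k V W ∘ₗ X ∘ₗ LinearMap.fst k V W) * prj k V W =
      prj k V W * (LinearMap.inl k V W ∘ₗ X ∘ₗ LinearMap.fst k V W) := rfl
  rw [Fin.sum_univ_castSucc] at h
  rw [map_sum]
  rw [← h]
  have hlast : ((lie (LinearMap.inl k V W ∘ₗ X ∘ₗ LinearMap.fst k V W)
      ((0 : V × W), ξ ∘ₗ LinearMap.snd k V W)).2 : Dual k (V × W)) = 0 := by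
    refine LinearMap.ext fun x => ?_
    change -(ξ (0 : W)) = 0
    rw [map_zero, neg_zero]
  rw [tens_apply Φ (Function.update _ (Fin.last m) _), Function.update_self, Fin.snoc_last, hlast,
    LinearMap.zero_apply, add_zero]
  refine Finset.sum_congr rfl fun l _ => ?_
  rw [tens_apply, Function.update_of_ne (Fin.castSucc_lt_last l).ne', Fin.snoc_last,
    Fin.snoc_castSucc]
  change _ = ξ (Φ _)
  congr 2
  funext l'
  by_cases hl : l' = l
  · subst hl
    rw [Function.update_self, Function.update_self, lie_res hD]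
    rfl
  · rw [Function.update_of_ne hl, Function.update_of_ne
      (fun h => hl (Fin.castSucc_injective _ h)), Fin.snoc_castSucc]
    rfl

end maps

end Pool.Agent.Y114.OP
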