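import Mathlib
import Pool.Agent.Y114.OP.Prod
import Pool.Agent.Y114.RM.Full

/-!
# Products with an arbitrary representation: the part of the Lie algebra on the first factor
-/

set_option autoImplicit false
set_option linter.unusedSectionVars false
set_option linter.unusedVariables false

namespace Pool.Agent.Y114.OP

open NumberField IsDedekindDomain Module Polynomial TensorProduct Pool.Agent.TH118.SG
  Pool.Agent.Y114.MU Pool.Agent.Y114.TF Pool.Agent.Y114.GF Pool.Agent.H204R3.GP Pool.Agent.Y114.RM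
open Pool.Agent.W569.FM Pool.Agent.W571.FM Pool.Agent.Y115.R Pool.Agent.Y115.T Pool.Agent.Y115.Chi

section loc

variable {k : Type} [Field k] [CharZero k] [Algebra k ℂ] {V : Type} [AddCommGroup V] [Module k V]
  [FiniteDimensional k V] {W : Type} [AddCommGroup W] [Module k W] [FiniteDimensional k W]
  {Γ : Type} [Group Γ] (σ : Representation k Γ V) (τ : Representation k Γ W)

theorem op_cmp {γ : Γ} {θ : Additive ℂˣ →+ ℂ} {Y : End ℂ (ℂ ⊗[k] (V × W))}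
    {Y' : End ℂ (ℂ ⊗[k] V)} (hY : IsOp θ ((prodRep σ τ γ).baseChange ℂ) Y)
    (hY' : IsOp θ ((σ γ).baseChange ℂ) Y') (π : ℂ →ₗ[k] k) :
    (pM π Y' : End k V) = cmp k V W (pM π Y) := by
  have h1 : (LinearMap.inl k V W).baseChange ℂ ∘ₗ (σ γ).baseChange ℂ =
      (prodRep σ τ γ).baseChange ℂ ∘ₗ (LinearMap.inl k V W).baseChange ℂ := by
    rw [← LinearMap.baseChange_comp, ← LinearMap.baseChange_comp]
    congr 1
    refine LinearMap.ext fun y => ?_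
    change (σ γ y, (0 : W)) = (σ γ y, τ γ 0)
    rw [map_zero]
  have h2 := op_natural hY' hY h1
  refine LinearMap.ext fun x => ?_
  rw [cmp_apply, pM_apply, pM_apply]
  have h3 : (1 : ℂ) ⊗ₜ[k] ((x, 0) : V × W) = (LinearMap.inl k V W).baseChange ℂ (1 ⊗ₜ[k] x) := by
    rw [LinearMap.baseChange_tmul]
    rfl
  rw [h3]
  have h4 := LinearMap.congr_fun h2 ((1 : ℂ) ⊗ₜ[k] x)
  rw [LinearMap.comp_apply, LinearMap.comp_apply] at h4
  rw [← h4, pv_bc']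
  rfl

theorem tor_le_cmp (h : Inputs) {L : Submodule k (End k (V × W))}
    (hL : ∀ X, X ∈ L ↔ X ∈ LT (prodRep σ τ)) (γ : Γ) :
    tor ((σ γ).baseChange ℂ) ≤ bcS ℂ (L.map (cmp k V W)) := by
  rintro Y' ⟨θ, hY'⟩
  rw [(h.bc k ℂ V (L.map (cmp k V W))).1]
  intro π
  obtain ⟨Y, hY⟩ := exists_op ((prodRep σ τ γ).baseChange ℂ) (fun z => ext0 θ z)
  rw [op_cmp σ τ hY hY' π]
  exact Submodule.mem_map_of_mem (((h.bc k ℂ _ L).1 Y).1 (op_mem (prodRep σ τ) h hL γ θ Y hY) π)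

theorem isLie_cmp {L : Submodule k (End k (V × W))} (hL : ∀ X, X ∈ L ↔ X ∈ LT (prodRep σ τ))
    (hLie : IsLie L) : IsLie (L.map (cmp k V W)) := by
  rintro _ ⟨X, hX, rfl⟩ _ ⟨Y, hY, rfl⟩
  refine ⟨X * Y - Y * X, hLie X hX Y hY, ?_⟩
  rw [map_sub, cmp_mul (lt_prj ((hL Y).1 hY)), cmp_mul (lt_prj ((hL X).1 hX))]

theorem ad_cmp {L : Submodule k (End k (V × W))} (hL : ∀ X, X ∈ L ↔ X ∈ LT (prodRep σ τ))
    (hAd : ∀ γ, ∀ X ∈ L, AdE (prodRep σ τ γ) (prodRep σ τ γ⁻¹) X ∈ L) :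
    ∀ γ, ∀ X ∈ L.map (cmp k V W), AdE (σ γ) (σ γ⁻¹) X ∈ L.map (cmp k V W) := by
  rintro γ _ ⟨X, hX, rfl⟩
  refine ⟨_, hAd γ X hX, ?_⟩
  refine LinearMap.ext fun x => ?_
  rw [cmp_apply, AdE_apply, AdE_apply, Module.End.mul_apply, Module.End.mul_apply,
    Module.End.mul_apply, Module.End.mul_apply, cmp_apply, prodRep_apply, prodRep_apply, map_zero]

theorem cmp_comm {X : End k (V × W)} (hX : X * prj k V W = prj k V W * X) {Y : End k V}
    (hXY : cmp k V W X * Y = Y * cmp k V W X) :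
    X * (LinearMap.inl k V W ∘ₗ Y ∘ₗ LinearMap.fst k V W) =
      (LinearMap.inl k V W ∘ₗ Y ∘ₗ LinearMap.fst k V W) * X := by
  refine LinearMap.ext fun x => ?_
  rw [Module.End.mul_apply, Module.End.mul_apply]
  change X (Y x.1, 0) = (Y (X x).1, 0)
  rw [cmp_prj hX]
  have h1 := LinearMap.congr_fun hXY x.1
  rw [Module.End.mul_apply, Module.End.mul_apply] at h1
  rw [h1]
  have h2 := LinearMap.congr_fun hX x
  rw [Module.End.mul_apply, Module.End.mul_apply, prj_apply, prj_apply] at h2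
  have h3 : (X x).1 = cmp k V W X x.1 := by
    rw [cmp_apply, h2]
  rw [h3]

theorem cmp_order (h : Inputs) (h2 : Inputs2) {L : Submodule k (End k (V × W))}
    (hL : ∀ X, X ∈ L ↔ X ∈ LT (prodRep σ τ)) (γ : Γ) :
    ∃ M : ℕ, 0 < M ∧ ∀ Y ∈ comm (L.map (cmp k V W)), σ γ ^ M * Y = Y * σ γ ^ M := by
  obtain ⟨M, hM, hM'⟩ := comm_order (prodRep σ τ) h h2 hL γ
  refine ⟨M, hM, fun Y hY => ?_⟩
  have h1 := hM' (LinearMap.inl k V W ∘ₗ Y ∘ₗ LinearMap.fst k V W) fun X hX =>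
    cmp_comm (lt_prj ((hL X).1 hX)) (hY _ (Submodule.mem_map_of_mem hX))
  refine LinearMap.ext fun x => ?_
  have h3 := congrArg Prod.fst (LinearMap.congr_fun h1 (x, 0))
  rw [← map_pow] at h3 ⊢
  rw [Module.End.mul_apply, Module.End.mul_apply, prodRep_apply, prodRep_apply] at h3
  exact h3

/-- The properties of the torus of a Frobenius element. -/
theorem torus_local' (h : Inputs) {L : Submodule k (End k V)}
    (hAd : ∀ γ, ∀ X ∈ L, AdE (σ γ) (σ γ⁻¹) X ∈ L) (g₀ : Γ)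
    (htL : tor ((σ g₀).baseChange ℂ) ≤ bcS ℂ L)
    (htor : ∃ m : ℕ, 0 < m ∧
      (algebraMap k ℂ (detOn L (AdE (σ g₀) (σ g₀⁻¹)) (hAd g₀))) ^ m = 1) :
    ∀ (hLC : IsLie (bcS ℂ L)) (a : End ℂ (ℂ ⊗[k] V)) (ha : a ∈ tor ((σ g₀).baseChange ℂ)),
      LinearMap.trace ℂ (bcS ℂ L) ((adE a).restrict (hLC.adE_mem (htL ha))) = 0 := by
  set gC : End ℂ (ℂ ⊗[k] V) := (σ g₀).baseChange ℂ with hgC
  set g'C : End ℂ (ℂ ⊗[k] V) := (σ g₀⁻¹).baseChange ℂ with hg'C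
  have hgg' : gC * g'C = 1 := by rw [hgC, hg'C, ← bc_mul, RM.rho_mul_inv, bc_one]
  have hg'g : g'C * gC = 1 := by rw [hgC, hg'C, ← bc_mul, RM.rho_inv_mul, bc_one]
  intro hLC a ha
  obtain ⟨θ, hθ⟩ := ha
  obtain ⟨m, hm, htor⟩ := htor
  have hadd : IsOp θ (AdE gC g'C) (adE a) := h.ad ℂ _ θ gC g'C a hgg' hg'g hθ
  have hAdC := AdE_bcS (C := ℂ) (hAd g₀)
  have hinjA : Function.Injective (AdE gC g'C) := by
    apply injective_of_mul (g' := AdE g'C gC)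
    refine LinearMap.ext fun X => ?_
    rw [Module.End.mul_apply, AdE_apply, AdE_apply, Module.End.one_apply, mul_assoc, mul_assoc,
      hg'g, mul_one, ← mul_assoc, hg'g, one_mul]
  have hinjR : Function.Injective ((AdE gC g'C).restrict hAdC) := by
    intro x y hxy
    exact Subtype.ext (hinjA (congrArg Subtype.val hxy))
  have h1 := (h.res ℂ _ θ (AdE gC g'C) (adE a) hinjA hadd (bcS ℂ L)).2 hAdC
    (hLC.adE_mem (htL ⟨θ, hθ⟩))
  have h3 := h.tr ℂ _ θ _ _ hinjR h1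
  set D : ℂ := algebraMap k ℂ (detOn L (AdE (σ g₀) (σ g₀⁻¹)) (hAd g₀)) with hD
  have h4 : LinearMap.det (M := bcS ℂ L) ((AdE gC g'C).restrict hAdC) = D :=
    (h.bc k ℂ V L).2.2.2.2.2 (σ g₀) (σ g₀⁻¹) (hAd g₀) hAdC
  rw [h4] at h3
  have h5 := ext0_pow θ D hm
  rw [htor, ext0_one] at h5
  have h6 : (m : ℂ) ≠ 0 := Nat.cast_ne_zero.2 hm.ne'
  have h7 : ext0 θ D = 0 := (mul_eq_zero.1 h5.symm).resolve_left h6
  rw [h7] at h3
  exact h3

end loc

end Pool.Agent.Y114.OP
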