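import Mathlib
import Pool.Agent.Y114.OP.Mix1

/-!
# Products with an arbitrary representation: maximal tori
-/

set_option autoImplicit false
set_option linter.unusedSectionVars false
set_option linter.unusedVariables false

namespace Pool.Agent.Y114.OP

open NumberField IsDedekindDomain Module Polynomial TensorProduct Pool.Agent.TH118.SG
  Pool.Agent.Y114.MU Pool.Agent.Y114.TF Pool.Agent.Y114.GF Pool.Agent.H204R3.GP Pool.Agent.Y114.RM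
open Pool.Agent.W569.FM Pool.Agent.W571.FM Pool.Agent.Y115.R Pool.Agent.Y115.T Pool.Agent.Y115.Chi

variable {F : Type} [Field F] [NumberField F] {ι : Type} [Fintype ι] [DecidableEq ι] {n : ι → ℕ}
  {w : ι → ℤ} {ℓ : ℕ} [hℓ : Fact ℓ.Prime] {Γ : Type} [Group Γ] [TopologicalSpace Γ]
  [IsTopologicalGroup Γ] [CompactSpace Γ]

/-- A stable Lie algebra which contains the Frobenius tori has a nondegenerate trace form. -/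
theorem semi_part (h : Inputs) (h2 : Inputs2) [Algebra ℚ_[ℓ] ℂ]
    (ρ : ∀ i, Representation ℚ_[ℓ] Γ (Fin (n i) → ℚ_[ℓ])) (s : GF F →* Γ) (hs : Continuous s)
    (hρ : ∀ i, Continuous fun g => LinearMap.toMatrix' (ρ i g))
    (𝔤 : Submodule ℚ_[ℓ] (End ℚ_[ℓ] (∀ i, Fin (n i) → ℚ_[ℓ]))) (h𝔤 : IsMotivic ρ 𝔤)
    (P : HeightOneSpectrum (𝓞 F) → ι → ℚ[X])
    (T : Set ℕ) (hT3 : 3 ≤ T.encard) (hT : ∀ p ∈ T, p.Prime ∧ p ≠ ℓ ∧ UnramifiedIn F p)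
    (hgood : ∀ p ∈ T, ∀ v, Above v p → GoodPlace (fun i => (ρ i).comp s) w v (P v))
    {p₀ : ℕ} (hp₀ : p₀ ∈ T) (hind₀ : IndependentPlaces P p₀) {v₀ : HeightOneSpectrum (𝓞 F)}
    (hv₀ : Above v₀ p₀)
    (L : Submodule ℚ_[ℓ] (End ℚ_[ℓ] (∀ i, Fin (n i) → ℚ_[ℓ]))) (hLie : IsLie L) (hLG : L ≤ 𝔤)
    (hAd : ∀ γ, ∀ X ∈ L, AdE (sumRep ρ γ) (sumRep ρ γ⁻¹) X ∈ L)
    (htL : ∀ γ, tor ((sumRep ρ γ).baseChange ℂ) ≤ bcS ℂ L) (σ' : GF F)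
    (hσ' : ∃ Q, PrimeOver Q v₀ ∧ IsFrobAt Q (q v₀) σ')
    (hcen : ∀ x ∈ bcS ℂ 𝔤, (∀ a ∈ tor ((sumRep ρ (s σ'⁻¹)).baseChange ℂ), a * x = x * a) →
      x ∈ tor ((sumRep ρ (s σ'⁻¹)).baseChange ℂ)) : NonDeg L := by
  classical
  let j : ℚ_[ℓ] →+* ℂ := algebraMap ℚ_[ℓ] ℂ
  have hjalg : ∀ x : ℚ_[ℓ], algebraMap ℚ_[ℓ] ℂ x = j x := fun _ => rfl
  obtain ⟨ψ₀, hψ₀c, hψ₀⟩ := h.cont ℓ ι n _ ρ hρ L hAd
  set ψ : GF F →* ℚ_[ℓ]ˣ := ψ₀.comp s with hψdef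
  have hψc : Continuous ψ := hψ₀c.comp hs
  have hψ : ∀ g : GF F, (ψ g : ℚ_[ℓ]) = detOn L (AdE (sumRep ρ (s g)) (sumRep ρ (s g)⁻¹))
    (hAd (s g)) := fun g => hψ₀ (s g)
  -- Frobenius elements
  have hfr₀ : ∀ v : HeightOneSpectrum (𝓞 F), ∃ (Q : Ideal (OO F)) (σ : GF F), Q.IsPrime ∧
      cm Q = v.asIdeal ∧ FrobAt (Ideal.absNorm v.asIdeal) Q σ ∧ (v = v₀ → σ = σ') := by
    intro v
    by_cases hv : v = v₀
    · subst hv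
      obtain ⟨Q, hQ, hQσ⟩ := hσ'
      exact ⟨Q, σ', hQ.1, hQ.2, hQσ, fun _ => rfl⟩
    · obtain ⟨Q, σ, h1, h2, h3⟩ := frob_cm v
      exact ⟨Q, σ, h1.isPrime, h2, h3, fun h => absurd h hv⟩
  choose Q₀ σ₀ hQ₀ hQ₀v hσ₀ hσ₀' using hfr₀
  have hinv : ∀ g : GF F, (ψ g⁻¹ : ℚ_[ℓ]) = (ψ g : ℚ_[ℓ])⁻¹ := by
    intro g
    rw [map_inv, Units.val_inv_eq_inv_val]
  -- places of good reduction
  have hgoodin : ∀ v : HeightOneSpectrum (𝓞 F), ∀ P', GoodPlace (fun i => (ρ i).comp s) w v P' →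
      (∀ Q : Ideal (OO F), Q.IsPrime → cm Q = v.asIdeal → ∀ g, InInertia Q g → ψ g = 1) ∧
      IsAlgebraic ℚ (ψ (σ₀ v) : ℚ_[ℓ]) ∧ ‖j (ψ (σ₀ v) : ℚ_[ℓ])‖ = 1 ∧
      ∃ u ∈ ratioGroup P', (u : ℂ) = j (ψ (σ₀ v)⁻¹ : ℚ_[ℓ]) := by
    rintro v P' hP'
    refine ⟨fun Q hQ hQv g hg => ?_, ?_⟩
    · apply Units.ext
      rw [hψ, Units.val_one]
      have h1 : sumRep ρ (s g) = 1 := by
        rw [← map_one (sumRep ρ)]
        refine sumRep_congr ρ fun i => ?_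
        have h4 : ρ i (s g) = 1 := hP'.unramified i Q ⟨hQ, hQv⟩ g hg
        rw [h4, map_one]
      have h2 : sumRep ρ (s g)⁻¹ = 1 := by
        have h3 := RM.rho_mul_inv (sumRep ρ) (s g)
        rwa [h1, one_mul] at h3
      have h3 : ∀ (a b : End ℚ_[ℓ] (∀ i, Fin (n i) → ℚ_[ℓ])) (hab : ∀ X ∈ L, AdE a b X ∈ L),
          a = 1 → b = 1 → detOn L (AdE a b) hab = 1 := by
        rintro a b hab rfl rfl
        exact detOn_one hab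
      exact h3 _ _ _ h1 h2
    · obtain ⟨h1, h3⟩ := h.adw ℓ j ι n (sumRep ρ (s (σ₀ v)⁻¹)) (sumRep ρ (s (σ₀ v)⁻¹)⁻¹)
        (fun i => ρ i (s (σ₀ v)⁻¹)) P' (fun i => (q v : ℝ) ^ w i) (RM.rho_mul_inv _ _) (RM.rho_inv_mul _ _)
        (fun _ _ => rfl) (fun i => hP'.frobenius i (Q₀ v) ⟨hQ₀ v, hQ₀v v⟩ (σ₀ v) (hσ₀ v))
        hP'.pure L (fun X hX => h𝔤.parts X (hLG hX)) (hAd _)
      obtain ⟨u, hu, hu'⟩ := h2.ratio ℓ j ι n (sumRep ρ (s (σ₀ v)⁻¹)) (sumRep ρ (s (σ₀ v)⁻¹)⁻¹)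
        (fun i => ρ i (s (σ₀ v)⁻¹)) P' (RM.rho_mul_inv _ _) (RM.rho_inv_mul _ _)
        (fun _ _ => rfl) (fun i => hP'.frobenius i (Q₀ v) ⟨hQ₀ v, hQ₀v v⟩ (σ₀ v) (hσ₀ v))
        L (fun X hX => h𝔤.parts X (hLG hX)) (hAd _)
      rw [← hψ] at h1 h3 hu'
      refine ⟨?_, ?_, u, hu, hu'⟩
      · rw [hinv] at h1
        exact IsAlgebraic.inv_iff.1 h1
      · rw [hinv, map_inv₀, norm_inv, inv_eq_one] at h3
        exact h3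
  -- rank data
  have hG₀ := hgood p₀ hp₀ v₀ hv₀
  -- the character is a root of unity at `v₀`
  have htor : ∃ m : ℕ, 0 < m ∧ (algebraMap ℚ_[ℓ] ℂ (detOn L (AdE (sumRep ρ (s (σ₀ v₀)⁻¹))
      (sumRep ρ (s (σ₀ v₀)⁻¹)⁻¹)) (hAd (s (σ₀ v₀)⁻¹)))) ^ m = 1 := by
    obtain ⟨M, hM, S, hS, hprod⟩ := prod_torsion ψ hψc T hT3 hT (fun v => ψ (σ₀ v)) (by
      intro p hp v hv Q hQ hQv
      have hin := (hgoodin v (P v) (hgood p hp v hv)).1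
      exact ⟨hin Q hQ hQv, fun φ hφ => frob_value ψ v hin (hQ₀ v) hQ (hQ₀v v) hQv (hσ₀ v)
        hφ⟩) (fun p hp v hv => (hgoodin v (P v) (hgood p hp v hv)).2.1) j
      (fun p hp v hv => (hgoodin v (P v) (hgood p hp v hv)).2.2.1) p₀ hp₀
    have hu : ∀ v : HeightOneSpectrum (𝓞 F), ∃ u : ℂˣ, Above v p₀ →
        u ∈ ratioGroup (P v) ∧ (u : ℂ) = j (ψ (σ₀ v)⁻¹ : ℚ_[ℓ]) := by
      intro v
      by_cases hv : Above v p₀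
      · obtain ⟨u, hu, hu'⟩ := (hgoodin v (P v) (hgood p₀ hp₀ v hv)).2.2.2
        exact ⟨u, fun _ => ⟨hu, hu'⟩⟩
      · exact ⟨1, fun h => absurd h hv⟩
    choose u hu using hu
    obtain ⟨m, hm, hm'⟩ := hind₀ u (fun v hv => (hu v hv).1) ⟨M, hM, by
      have h3 : (∏ᶠ (v : HeightOneSpectrum (𝓞 F)) (_ : Above v p₀), u v) = ∏ v ∈ S, u v :=
        finprod_cond_eq_prod_of_cond_iff _ fun {v} _ => (hS v).symm
      rw [h3]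
      apply Units.ext
      rw [Units.val_pow_eq_pow_val, Units.coe_prod, Units.val_one]
      have h4 : ∏ v ∈ S, (u v : ℂ) = (j (((∏ v ∈ S, ψ (σ₀ v) : ℚ_[ℓ]ˣ)) : ℚ_[ℓ]))⁻¹ := by
        rw [Units.coe_prod, map_prod, ← Finset.prod_inv_distrib]
        refine Finset.prod_congr rfl fun v hv => ?_
        rw [(hu v ((hS v).1 hv)).2, hinv, map_inv₀]
      rw [h4, inv_pow, ← map_pow, ← Units.val_pow_eq_pow_val, hprod, Units.val_one, map_one,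
        inv_one]⟩ v₀ hv₀
    refine ⟨m, hm, ?_⟩
    rw [← hψ, hjalg, ← (hu v₀ hv₀).2, ← Units.val_pow_eq_pow_val, hm', Units.val_one]
  -- the torus
  have hσe : σ₀ v₀ = σ' := hσ₀' v₀ rfl
  rw [← hσe] at hcen
  have htr := torus_local' (sumRep ρ) h hAd (s (σ₀ v₀)⁻¹) (htL _) htor
  obtain ⟨hND, -⟩ := exists_proj h h2 hLie hLG h𝔤.bracket h𝔤.nondeg
    (htL (s (σ₀ v₀)⁻¹)) (tor_diag _) (tor_comm _) hcen htr
  intro X hX hXY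
  have h1 : X.baseChange ℂ = 0 := by
    refine hND _ (mem_bcS hX) fun Y hY => ?_
    induction hY using Submodule.span_induction with
    | mem Y hY =>
      obtain ⟨Z, hZ, rfl⟩ := hY
      rw [← bc_mul, LinearMap.trace_baseChange, hXY Z hZ, map_zero]
    | zero => rw [mul_zero, map_zero]
    | add Y Z _ _ hY hZ => rw [mul_add, map_add, hY, hZ, add_zero]
    | smul c Y _ hY => rw [mul_smul_comm, map_smul, hY, smul_zero]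
  exact bc_inj (h1.trans LinearMap.baseChange_zero.symm)

/-- A stable Lie algebra `L'` in the Lie algebra `L` of the Tate tensors which contains the Frobenius
tori, such that all group elements act with finite order on its centralizer, is equal to `L`. -/
theorem part_eq (h : Inputs) (h2 : Inputs2) (hlat : S_LAT) [Algebra ℚ_[ℓ] ℂ]
    {ρ : ∀ i, Representation ℚ_[ℓ] Γ (Fin (n i) → ℚ_[ℓ])}
    (hρ : ∀ i, Continuous fun g => LinearMap.toMatrix' (ρ i g))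
    {𝔤 L : Submodule ℚ_[ℓ] (End ℚ_[ℓ] (∀ i, Fin (n i) → ℚ_[ℓ]))} {r : ℕ} {g₀ : Γ}
    (hS : Semi ρ 𝔤 L r g₀)
    {L' : Submodule ℚ_[ℓ] (End ℚ_[ℓ] (∀ i, Fin (n i) → ℚ_[ℓ]))} (hL' : IsLie L') (hle : L' ≤ L)
    (hnd : NonDeg L') (hAd : ∀ γ, ∀ X ∈ L', AdE (sumRep ρ γ) (sumRep ρ γ⁻¹) X ∈ L')
    (htL : ∀ γ, tor ((sumRep ρ γ).baseChange ℂ) ≤ bcS ℂ L')
    (hord : ∀ γ : Γ, ∃ M : ℕ, 0 < M ∧ ∀ Y ∈ RM.comm L', sumRep ρ γ ^ M * Y = Y * sumRep ρ γ ^ M) :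
    L' = L := by
  obtain ⟨Δ, hΔ, hcomm⟩ := h2.tfr ℓ ι n _ ρ hρ (RM.comm L') (comm_conj (sumRep ρ) hAd) hord
  have hE : ∀ Y ∈ RM.comm L', Y ∈ RM.comm L := fun Y hY X hX =>
    tate_comm (sumRep ρ) ((hS.mem X).1 hX) hΔ fun s hs => (hcomm s hs Y hY).symm
  refine (h.bc ℚ_[ℓ] ℂ _ L).2.2.2.2.1 L' hle ?_
  exact hlat ℂ _ (bcS ℂ L) (bcS ℂ L') (tor ((sumRep ρ g₀).baseChange ℂ))
    ((h.bc ℚ_[ℓ] ℂ _ L).2.1 hS.lie) ((h.bc ℚ_[ℓ] ℂ _ L).2.2.1 hS.nondeg) (bcS_mono hle)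
    ((h.bc ℚ_[ℓ] ℂ _ L').2.1 hL') ((h.bc ℚ_[ℓ] ℂ _ L').2.2.1 hnd) (htL g₀)
    (tor_diag _) (tor_comm _) (fun x hx hxt => hS.tor_cen x (bcS_mono hS.le hx) hxt)
    (comm_bcS h.bc hE)

end Pool.Agent.Y114.OP
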