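import Mathlib
import Pool.Agent.Y114.OP.Mix2

/-!
# Products with an arbitrary representation: brackets
-/

set_option autoImplicit false
set_option linter.unusedSectionVars false
set_option linter.unusedVariables false

namespace Pool.Agent.Y114.OP

open NumberField IsDedekindDomain Module Polynomial TensorProduct Pool.Agent.TH118.SG
  Pool.Agent.Y114.MU Pool.Agent.Y114.TF Pool.Agent.Y114.GF Pool.Agent.H204R3.GP Pool.Agent.Y114.RM

section loc

variable {k : Type} [Field k] [CharZero k] [Algebra k ℂ] {V : Type} [AddCommGroup V] [Module k V]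
  [FiniteDimensional k V] {W : Type} [AddCommGroup W] [Module k W] [FiniteDimensional k W]
  {Γ : Type} [Group Γ] (σ : Representation k Γ V) (τ : Representation k Γ W)

variable (k V W) in
/-- The inclusion of `V` after base change. -/
noncomputable def inC : ℂ ⊗[k] V →ₗ[ℂ] ℂ ⊗[k] (V × W) := (LinearMap.inl k V W).baseChange ℂ

variable (k V W) in
/-- The projection to `V` after base change. -/
noncomputable def prC : ℂ ⊗[k] (V × W) →ₗ[ℂ] ℂ ⊗[k] V := (LinearMap.fst k V W).baseChange ℂ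

theorem prC_inC (x : ℂ ⊗[k] V) : prC k V W (inC k V W x) = x := by
  have h1 : prC k V W ∘ₗ inC k V W = LinearMap.id := by
    rw [prC, inC, ← LinearMap.baseChange_comp, LinearMap.fst_comp_inl, LinearMap.baseChange_id]
  exact LinearMap.congr_fun h1 x

theorem inC_prC (x : ℂ ⊗[k] (V × W)) :
    inC k V W (prC k V W x) = (prj k V W).baseChange ℂ x := by
  have h1 : inC k V W ∘ₗ prC k V W = (prj k V W).baseChange ℂ := by
    rw [prC, inC, ← LinearMap.baseChange_comp]
    rfl
  exact LinearMap.congr_fun h1 x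

theorem inC_rep (γ : Γ) (x : ℂ ⊗[k] V) :
    (prodRep σ τ γ).baseChange ℂ (inC k V W x) = inC k V W ((σ γ).baseChange ℂ x) := by
  have h1 : (prodRep σ τ γ).baseChange ℂ ∘ₗ inC k V W = inC k V W ∘ₗ (σ γ).baseChange ℂ := by
    rw [inC, ← LinearMap.baseChange_comp, ← LinearMap.baseChange_comp]
    congr 1
    refine LinearMap.ext fun y => ?_
    change (σ γ y, τ γ 0) = (σ γ y, (0 : W))
    rw [map_zero]
  exact LinearMap.congr_fun h1 x

theorem prC_rep (γ : Γ) (x : ℂ ⊗[k] (V × W)) :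
    prC k V W ((prodRep σ τ γ).baseChange ℂ x) = (σ γ).baseChange ℂ (prC k V W x) := by
  have h1 : prC k V W ∘ₗ (prodRep σ τ γ).baseChange ℂ = (σ γ).baseChange ℂ ∘ₗ prC k V W := by
    rw [prC, ← LinearMap.baseChange_comp, ← LinearMap.baseChange_comp]
    rfl
  exact LinearMap.congr_fun h1 x

theorem sndC_rep (γ : Γ) (x : ℂ ⊗[k] (V × W)) :
    (LinearMap.snd k V W).baseChange ℂ ((prodRep σ τ γ).baseChange ℂ x) =
      (τ γ).baseChange ℂ ((LinearMap.snd k V W).baseChange ℂ x) := by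
  have h1 : (LinearMap.snd k V W).baseChange ℂ ∘ₗ (prodRep σ τ γ).baseChange ℂ =
      (τ γ).baseChange ℂ ∘ₗ (LinearMap.snd k V W).baseChange ℂ := by
    rw [← LinearMap.baseChange_comp, ← LinearMap.baseChange_comp]
    rfl
  exact LinearMap.congr_fun h1 x

theorem decC (x : ℂ ⊗[k] (V × W)) : x = (prj k V W).baseChange ℂ x +
    (LinearMap.inr k V W).baseChange ℂ ((LinearMap.snd k V W).baseChange ℂ x) := by
  have h1 : (LinearMap.id : ℂ ⊗[k] (V × W) →ₗ[ℂ] ℂ ⊗[k] (V × W)) = (prj k V W).baseChange ℂ +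
      (LinearMap.inr k V W).baseChange ℂ ∘ₗ (LinearMap.snd k V W).baseChange ℂ := by
    rw [← LinearMap.baseChange_comp, ← LinearMap.baseChange_add, ← LinearMap.baseChange_id]
    congr 1
    refine LinearMap.ext fun x => ?_
    refine Prod.ext ?_ ?_
    · exact (add_zero _).symm
    · exact (zero_add _).symm
  exact LinearMap.congr_fun h1 x

theorem prj_idem : prj k V W * prj k V W = prj k V W := rfl

theorem bcS_prj {L : Submodule k (End k (V × W))} (hL : ∀ X ∈ L, X * prj k V W = prj k V W * X) :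
    ∀ X ∈ bcS ℂ L, X * (prj k V W).baseChange ℂ = (prj k V W).baseChange ℂ * X :=
  bcS_comm hL

/-- The compression after base change. -/
noncomputable def cmpC (X : End ℂ (ℂ ⊗[k] (V × W))) : End ℂ (ℂ ⊗[k] V) :=
  prC k V W ∘ₗ X ∘ₗ inC k V W

theorem cmpC_mem {L : Submodule k (End k (V × W))} {X : End ℂ (ℂ ⊗[k] (V × W))}
    (hX : X ∈ bcS ℂ L) : cmpC X ∈ bcS ℂ (L.map (cmp k V W)) := by
  induction hX using Submodule.span_induction with
  | mem X hX =>
    obtain ⟨Y, hY, rfl⟩ := hX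
    have h1 : cmpC (Y.baseChange ℂ) = (cmp k V W Y).baseChange ℂ := by
      rw [cmpC, prC, inC, ← LinearMap.baseChange_comp, ← LinearMap.baseChange_comp]
      rfl
    rw [h1]
    exact mem_bcS (Submodule.mem_map_of_mem hY)
  | zero =>
    have h1 : cmpC (0 : End ℂ (ℂ ⊗[k] (V × W))) = 0 := by
      rw [cmpC, LinearMap.zero_comp, LinearMap.comp_zero]
    rw [h1]
    exact Submodule.zero_mem _
  | add X Y _ _ hX hY =>
    have h1 : cmpC (X + Y) = cmpC X + cmpC Y := by
      rw [cmpC, LinearMap.add_comp, LinearMap.comp_add]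
      rfl
    rw [h1]
    exact Submodule.add_mem _ hX hY
  | smul c X _ hX =>
    have h1 : cmpC (c • X) = c • cmpC X := by
      rw [cmpC, LinearMap.smul_comp, LinearMap.comp_smul]
      rfl
    rw [h1]
    exact Submodule.smul_mem _ _ hX

theorem cmpC_prj {X : End ℂ (ℂ ⊗[k] (V × W))}
    (hX : X * (prj k V W).baseChange ℂ = (prj k V W).baseChange ℂ * X) :
    X * (prj k V W).baseChange ℂ = inC k V W ∘ₗ cmpC X ∘ₗ prC k V W := by
  have h1 : (prj k V W).baseChange ℂ * (X * (prj k V W).baseChange ℂ) =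
      X * (prj k V W).baseChange ℂ := by
    rw [hX, ← mul_assoc, ← bc_mul, prj_idem]
  rw [← h1]
  refine LinearMap.ext fun x => ?_
  rw [Module.End.mul_apply, Module.End.mul_apply, ← inC_prC, ← inC_prC]
  rfl

/-- The brackets of the first components. -/
theorem mix_mem (hMIX : S_MIX) (h : Inputs) {L : Submodule k (End k (V × W))}
    (hL : ∀ X, X ∈ L ↔ X ∈ LT (prodRep σ τ)) (hLie : IsLie L)
    (hAd : ∀ γ, ∀ X ∈ L, AdE (prodRep σ τ γ) (prodRep σ τ γ⁻¹) X ∈ L) (γ : Γ)
    (hratio : ∀ a b c d : ℂ, End.HasEigenvalue ((σ γ).baseChange ℂ) a →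
      End.HasEigenvalue ((σ γ).baseChange ℂ) b → End.HasEigenvalue ((τ γ).baseChange ℂ) c →
      End.HasEigenvalue ((τ γ).baseChange ℂ) d → a * d = b * c → ∃ m : ℕ, 0 < m ∧ a ^ m = b ^ m)
    (hcen : ∀ x ∈ bcS ℂ (L.map (cmp k V W)), (∀ a ∈ tor ((σ γ).baseChange ℂ), a * x = x * a) →
      x ∈ tor ((σ γ).baseChange ℂ)) :
    ∀ X ∈ L, ∀ Y ∈ L, (X * Y - Y * X) * prj k V W ∈ L := by
  have hcomm := bcS_prj (L := L) fun X hX => lt_prj ((hL X).1 hX)
  have heig1 : ∀ a : ℂ, (∃ x : ℂ ⊗[k] (V × W), x ≠ 0 ∧ (prj k V W).baseChange ℂ x = x ∧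
      (prodRep σ τ γ).baseChange ℂ x = a • x) → End.HasEigenvalue ((σ γ).baseChange ℂ) a := by
    rintro a ⟨x, hx, hx1, hx2⟩
    refine End.hasEigenvalue_of_hasEigenvector (x := prC k V W x) ⟨?_, fun h0 => hx ?_⟩
    · rw [End.mem_eigenspace_iff, ← prC_rep σ τ, hx2, map_smul]
    · rw [← hx1, ← inC_prC, h0, map_zero]
  have heig2 : ∀ a : ℂ, (∃ x : ℂ ⊗[k] (V × W), x ≠ 0 ∧ (prj k V W).baseChange ℂ x = 0 ∧
      (prodRep σ τ γ).baseChange ℂ x = a • x) → End.HasEigenvalue ((τ γ).baseChange ℂ) a := by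
    rintro a ⟨x, hx, hx1, hx2⟩
    refine End.hasEigenvalue_of_hasEigenvector (x := (LinearMap.snd k V W).baseChange ℂ x)
      ⟨?_, fun h0 => hx ?_⟩
    · rw [End.mem_eigenspace_iff, ← sndC_rep σ τ, hx2, map_smul]
    · rw [decC x, hx1, h0, map_zero, add_zero]
  have key := hMIX (ℂ ⊗[k] (V × W)) ((prodRep σ τ γ).baseChange ℂ)
    ((prodRep σ τ γ⁻¹).baseChange ℂ) ((prj k V W).baseChange ℂ) (bcS ℂ L)
    (by rw [← bc_mul, RM.rho_mul_inv, bc_one]) (by rw [← bc_mul, RM.rho_inv_mul, bc_one])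
    (by rw [← bc_mul, prj_idem])
    (by
      rw [← bc_mul, ← bc_mul]
      congr 1
      refine LinearMap.ext fun x => ?_
      rw [Module.End.mul_apply, Module.End.mul_apply, prj_apply, prodRep_apply, prj_apply,
        map_zero, prodRep_apply])
    ((h.bc k ℂ _ L).2.1 hLie) (AdE_bcS (C := ℂ) (hAd γ)) hcomm
    (fun a b c d ha hb hc hd => hratio a b c d (heig1 a ha) (heig1 b hb) (heig2 c hc) (heig2 d hd))
    (by
      intro X hX Y hY hXt hYt
      have hmem : ∀ X ∈ bcS ℂ L, (∀ (θ : Additive ℂˣ →+ ℂ) (t : End ℂ (ℂ ⊗[k] (V × W))),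
          IsOp θ ((prodRep σ τ γ).baseChange ℂ) t →
          t * (X * (prj k V W).baseChange ℂ) = X * (prj k V W).baseChange ℂ * t) →
          cmpC X ∈ tor ((σ γ).baseChange ℂ) := by
        intro X hX hXt
        refine hcen _ (cmpC_mem hX) ?_
        rintro t' ⟨θ, ht'⟩
        obtain ⟨t, ht⟩ := exists_op ((prodRep σ τ γ).baseChange ℂ) (fun z => ext0 θ z)
        have h1 : inC k V W ∘ₗ t' = t ∘ₗ inC k V W := op_natural ht' ht
          (LinearMap.ext fun x => (inC_rep σ τ γ x).symm)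
        have h2 : prC k V W ∘ₗ t = t' ∘ₗ prC k V W := op_natural ht ht'
          (LinearMap.ext fun x => prC_rep σ τ γ x)
        have h3 := hXt θ t ht
        refine LinearMap.ext fun x => ?_
        have h4 := LinearMap.congr_fun h3 (inC k V W x)
        have h5 : (prj k V W).baseChange ℂ (inC k V W x) = inC k V W x := by
          rw [← inC_prC, prC_inC]
        rw [Module.End.mul_apply, Module.End.mul_apply, Module.End.mul_apply,
          Module.End.mul_apply, h5] at h4
        have h6 : t (inC k V W x) = inC k V W (t' x) := (LinearMap.congr_fun h1 x).symm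
        have h7 : (prj k V W).baseChange ℂ (t (inC k V W x)) = t (inC k V W x) := by
          rw [h6, ← inC_prC, prC_inC]
        rw [h7, h6] at h4
        have h8 := congrArg (prC k V W) h4
        rw [Module.End.mul_apply, Module.End.mul_apply]
        change t' (prC k V W (X (inC k V W x))) = prC k V W (X (inC k V W (t' x)))
        rw [← h8]
        exact (LinearMap.congr_fun h2 _).symm
      have h1 := tor_comm _ _ (hmem X hX hXt) _ (hmem Y hY hYt)
      rw [cmpC_prj (hcomm X hX), cmpC_prj (hcomm Y hY)]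
      refine LinearMap.ext fun x => ?_
      rw [Module.End.mul_apply, Module.End.mul_apply]
      change inC k V W (cmpC X (prC k V W (inC k V W (cmpC Y (prC k V W x))))) =
        inC k V W (cmpC Y (prC k V W (inC k V W (cmpC X (prC k V W x)))))
      rw [prC_inC, prC_inC]
      exact congrArg _ (LinearMap.congr_fun h1 _))
  intro X hX Y hY
  have h1 := key _ (mem_bcS hX) _ (mem_bcS hY)
  have h2 : (X.baseChange ℂ * Y.baseChange ℂ - Y.baseChange ℂ * X.baseChange ℂ) *
      (prj k V W).baseChange ℂ = ((X * Y - Y * X) * prj k V W).baseChange ℂ := by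
    rw [bc_mul, ← bc_mul, ← bc_mul]
    congr 1
    exact (LinearMap.baseChange_sub _ _).symm
  rw [h2] at h1
  obtain ⟨π, hπ⟩ := exists_pi k ℂ
  have h3 := ((h.bc k ℂ _ L).1 _).1 h1 π
  rwa [pM_bc π hπ] at h3

end loc

end Pool.Agent.Y114.OP
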