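import Mathlib
import Pool.Agent.Y114.OP.Mix3

/-!
# Products with an arbitrary representation: the theorem for one place
-/

set_option autoImplicit false
set_option linter.unusedSectionVars false
set_option linter.unusedVariables false

namespace Pool.Agent.Y114.OP

open NumberField IsDedekindDomain Module Polynomial TensorProduct Pool.Agent.TH118.SG
  Pool.Agent.Y114.MU Pool.Agent.Y114.TF Pool.Agent.Y114.GF Pool.Agent.H204R3.GP Pool.Agent.Y114.RM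
open Pool.Agent.W569.FM Pool.Agent.W571.FM

/-- There are `r` roots of the polynomials `P i` which are multiplicatively independent modulo the
group generated by the quotients of the roots of the polynomials `R j`. -/
def IndepModulo {ι κ : Type} (r : ℕ) (P : ι → ℚ[X]) (R : κ → ℚ[X]) : Prop :=
  ∃ z : Fin r → ℂ, (∀ j, ∃ i, aeval (z j) (P i) = 0) ∧
    ∀ e : Fin r → ℤ, (∃ u ∈ ratioGroup R, (u : ℂ) = ∏ j, z j ^ e j) → e = 0

theorem IndepModulo.indep {ι κ : Type} {r : ℕ} {P : ι → ℚ[X]} {R : κ → ℚ[X]}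
    (h : IndepModulo r P R) : IndependentRoots r P := by
  obtain ⟨z, hz, h⟩ := h
  exact ⟨z, hz, fun e he => h e ⟨1, Subgroup.one_mem _, by rw [Units.val_one, he]⟩⟩

section loc

variable {k : Type} [Field k] [CharZero k] [Algebra k ℂ] {V : Type} [AddCommGroup V] [Module k V]
  [FiniteDimensional k V] {Γ : Type} [Group Γ] (σ : Representation k Γ V)

theorem rep_inj (γ : Γ) : Function.Injective ((σ γ).baseChange ℂ) :=
  injective_of_mul (g' := (σ γ⁻¹).baseChange ℂ) (by rw [← bc_mul, RM.rho_inv_mul, bc_one])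

theorem rank_bound (h : Inputs) (hrank : S_RANK.{0, 0}) {L G : Submodule k (End k V)}
    (hL : ∀ X, X ∈ L ↔ X ∈ LT σ) (hLG : L ≤ G) (hG : IsLie G) (γ : Γ) (r : ℕ) (z : Fin r → ℂ)
    (hz : ∀ i, End.HasEigenvalue ((σ γ).baseChange ℂ) (z i))
    (hind : ∀ e : Fin r → ℤ, ∏ i, z i ^ e i = 1 → e = 0) : ∀ x ∈ G, r ≤ finrank k (cen G x) := by
  intro x hx
  obtain ⟨θ', θ, p, hp⟩ := h.rd _ ((σ γ).baseChange ℂ) (rep_inj σ γ) r z hz hind
  obtain ⟨h', hh'⟩ := exists_op ((σ γ).baseChange ℂ) (fun z => ext0 θ' z)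
  have hex : ∀ j, ∃ t : End ℂ (ℂ ⊗[k] V), IsOp (θ j) ((σ γ).baseChange ℂ) t := fun j =>
    exists_op ((σ γ).baseChange ℂ) (fun z => ext0 (θ j) z)
  choose t ht using hex
  have h3 := hrank ℂ _ (bcS ℂ G) ((h.bc k ℂ _ G).2.1 hG) h'
    (bcS_mono hLG (op_mem σ h hL _ θ' h' hh')) r p t
    (fun j => bcS_mono hLG (op_mem σ h hL _ (θ j) (t j) (ht j))) (hp h' t hh' ht)
    (x.baseChange ℂ) (mem_bcS hx)
  rwa [(h.bc k ℂ _ G).2.2.2.1 x] at h3

/-- All eigenvalues are products of the given ones, up to powers. -/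
theorem eigen_rel (h : Inputs) (hrank : S_RANK.{0, 0}) {L G : Submodule k (End k V)}
    (hL : ∀ X, X ∈ L ↔ X ∈ LT σ) (hLG : L ≤ G) (hG : IsLie G) {r : ℕ} (hrk : RankAtMost G r)
    (γ : Γ) (z : Fin r → ℂ) (hz : ∀ i, End.HasEigenvalue ((σ γ).baseChange ℂ) (z i))
    (hind : ∀ e : Fin r → ℤ, ∏ i, z i ^ e i = 1 → e = 0) (a : ℂ)
    (ha : End.HasEigenvalue ((σ γ).baseChange ℂ) a) :
    ∃ (N : ℤ) (e : Fin r → ℤ), N ≠ 0 ∧ a ^ N * ∏ i, z i ^ e i = 1 := by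
  by_contra hno
  push Not at hno
  obtain ⟨x, hx, hxr⟩ := hrk
  have h1 := rank_bound σ h hrank hL hLG hG γ (r + 1) (Fin.cons a z)
    (fun i => by
      refine Fin.cases ?_ (fun i => ?_) i
      · rwa [Fin.cons_zero]
      · rw [Fin.cons_succ]; exact hz i)
    (fun e he => by
      rw [Fin.prod_univ_succ, Fin.cons_zero] at he
      simp only [Fin.cons_succ] at he
      have h2 : e 0 = 0 := by
        by_contra h0
        exact hno (e 0) (fun i => e i.succ) h0 he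
      rw [h2, zpow_zero, one_mul] at he
      have h3 := hind (fun i => e i.succ) he
      funext i
      refine Fin.cases h2 (fun i => ?_) i
      exact congrFun h3 i) x hx
  omega

end loc

section main

variable {F : Type} [Field F] [NumberField F] {ι : Type} [Fintype ι] [DecidableEq ι] {n : ι → ℕ}
  {w : ι → ℤ} {ℓ : ℕ} [hℓ : Fact ℓ.Prime] {Γ : Type} [Group Γ] [TopologicalSpace Γ]
  [IsTopologicalGroup Γ] [CompactSpace Γ]

/-- The brackets of the elements of `𝔥` kill the maps to `W` which are equivariant under a subgroup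
of finite index. -/
def BracketsKill {k : Type} [Field k] {V : Type} [AddCommGroup V] [Module k V] {W : Type}
    [AddCommGroup W] [Module k W] {Γ : Type} [Group Γ] (σ : Representation k Γ V)
    (τ : Representation k Γ W) (𝔥 : Submodule k (End k V)) : Prop :=
  ∀ X ∈ 𝔥, ∀ Y ∈ 𝔥, ∀ (m : ℕ) (Φ : MultilinearMap k (fun _ : Fin m => V × Dual k V) W),
    TateMap σ τ Φ → KillsMap (X * Y - Y * X) Φ

theorem mix_local (h : Inputs) (h2 : Inputs2) (hrank : S_RANK.{0, 0}) (hlat : S_LAT)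
    (hMIX : S_MIX)
    (ρ : ∀ i, Representation ℚ_[ℓ] Γ (Fin (n i) → ℚ_[ℓ])) (s : GF F →* Γ) (hs : Continuous s)
    (hρ : ∀ i, Continuous fun g => LinearMap.toMatrix' (ρ i g))
    (𝔤 : Submodule ℚ_[ℓ] (End ℚ_[ℓ] (∀ i, Fin (n i) → ℚ_[ℓ]))) (h𝔤 : IsMotivic ρ 𝔤)
    (P : HeightOneSpectrum (𝓞 F) → ι → ℚ[X])
    (T : Set ℕ) (hT3 : 3 ≤ T.encard) (hT : ∀ p ∈ T, p.Prime ∧ p ≠ ℓ ∧ UnramifiedIn F p)
    (hgood : ∀ p ∈ T, ∀ v, Above v p → GoodPlace (fun i => (ρ i).comp s) w v (P v))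
    {p₀ : ℕ} (hp₀ : p₀ ∈ T) (hind₀ : IndependentPlaces P p₀) {v₀ : HeightOneSpectrum (𝓞 F)}
    (hv₀ : Above v₀ p₀) (r : ℕ) {κ : Type} {m : κ → ℕ}
    (τ : ∀ j, Representation ℚ_[ℓ] Γ (Fin (m j) → ℚ_[ℓ])) (R : κ → ℚ[X])
    (σ₀ : GF F) (hσ₀ : ∃ Q, PrimeOver Q v₀ ∧ IsFrobAt Q (q v₀) σ₀)
    (hR : ∀ j, (τ j (s σ₀⁻¹)).charpoly = (R j).map (algebraMap ℚ ℚ_[ℓ]))
    (hr : IndepModulo r (P v₀) R) (hrk : RankAtMost 𝔤 r) :
    ∃ (L : Submodule ℚ_[ℓ] (End ℚ_[ℓ] (∀ i, Fin (n i) → ℚ_[ℓ]))) (_ : Algebra ℚ_[ℓ] ℂ),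
      Semi ρ 𝔤 L r (s σ₀⁻¹) ∧ ∀ j, BracketsKill (sumRep ρ) (τ j) L := by
  obtain ⟨L, alg, hL⟩ := semi_gen (w := w) h h2 hrank ρ s hs hρ 𝔤 h𝔤 P T hT3 hT hgood hp₀ hind₀ hv₀
    r hr.indep hrk
  have hS := hL σ₀ hσ₀
  refine ⟨L, alg, hS, fun j => ?_⟩
  obtain ⟨L', hL', hLie', hAd', -⟩ := h.lie ℚ_[ℓ] ((∀ i, Fin (n i) → ℚ_[ℓ]) × (Fin (m j) → ℚ_[ℓ])) _
    (prodRep (sumRep ρ) (τ j))
  set A := L'.map (cmp ℚ_[ℓ] (∀ i, Fin (n i) → ℚ_[ℓ]) (Fin (m j) → ℚ_[ℓ])) with hA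
  have hAlie : IsLie A := isLie_cmp (sumRep ρ) (τ j) hL' hLie'
  have hAL : A ≤ L := by
    rintro _ ⟨X, hX, rfl⟩
    exact (hS.memLT _).2 (cmp_mem ((hL' X).1 hX))
  have hAad := ad_cmp (sumRep ρ) (τ j) hL' hAd'
  have hAt : ∀ γ, tor ((sumRep ρ γ).baseChange ℂ) ≤ bcS ℂ A := tor_le_cmp (sumRep ρ) (τ j) h hL'
  have hAnd : NonDeg A := semi_part h h2 ρ s hs hρ 𝔤 h𝔤 P T hT3 hT hgood hp₀ hind₀ hv₀ A hAlie
    (hAL.trans hS.le) hAad hAt σ₀ hσ₀ hS.tor_cen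
  have hAeq : A = L := part_eq h h2 hlat hρ hS hAlie hAL hAnd hAad hAt
    (cmp_order (sumRep ρ) (τ j) h h2 hL')
  obtain ⟨z, hz, hzi⟩ := hr
  have hG₀ := hgood p₀ hp₀ v₀ hv₀
  have hz' : ∀ i, End.HasEigenvalue ((sumRep ρ (s σ₀⁻¹)).baseChange ℂ) (z i) := by
    intro i
    obtain ⟨a, ha⟩ := hz i
    obtain ⟨Q, hQ, hQσ⟩ := hσ₀
    exact sumRep_eigen ρ (s σ₀⁻¹) (hG₀.frobenius a Q hQ σ₀ hQσ) ha
  have hind : ∀ e : Fin r → ℤ, ∏ i, z i ^ e i = 1 → e = 0 := fun e he =>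
    hzi e ⟨1, Subgroup.one_mem _, by rw [Units.val_one, he]⟩
  have hne : ∀ a, End.HasEigenvalue ((sumRep ρ (s σ₀⁻¹)).baseChange ℂ) a → a ≠ 0 := by
    rintro a ha rfl
    obtain ⟨x, hx⟩ := ha.exists_hasEigenvector
    refine hx.2 (rep_inj (sumRep ρ) (s σ₀⁻¹) ?_)
    rw [End.mem_eigenspace_iff.1 hx.1, zero_smul, map_zero]
  have hmix := mix_mem (sumRep ρ) (τ j) hMIX h hL' hLie' hAd' (s σ₀⁻¹) (by
    intro a b c d ha hb hc hd habcd
    have hroot : ∀ c, End.HasEigenvalue ((τ j (s σ₀⁻¹)).baseChange ℂ) c →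
        c ≠ 0 ∧ c ∈ (R j).aroots ℂ := by
      intro c hc
      refine ⟨?_, ?_⟩
      · rintro rfl
        obtain ⟨x, hx⟩ := hc.exists_hasEigenvector
        refine hx.2 (rep_inj (τ j) (s σ₀⁻¹) ?_)
        rw [End.mem_eigenspace_iff.1 hx.1, zero_smul, map_zero]
      · rw [Module.End.hasEigenvalue_iff_isRoot_charpoly, LinearMap.charpoly_baseChange, hR j,
          Polynomial.map_map, IsRoot.def, eval_map] at hc
        rw [mem_aroots]
        refine ⟨?_, ?_⟩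
        · intro h0
          have h1 := (LinearMap.charpoly_monic (τ j (s σ₀⁻¹))).ne_zero
          rw [hR j, h0, Polynomial.map_zero] at h1
          exact h1 rfl
        · rw [aeval_def, ← hc]
          congr 1
          exact Subsingleton.elim _ _
    obtain ⟨hc0, hc1⟩ := hroot c hc
    obtain ⟨hd0, hd1⟩ := hroot d hd
    have hb0 := hne b hb
    have ha0 := hne a ha
    obtain ⟨N, e, hN, hrel⟩ := eigen_rel (sumRep ρ) h hrank hS.memLT hS.le h𝔤.bracket hrk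
      (s σ₀⁻¹) z hz' hind a ha
    obtain ⟨N', e', hN', hrel'⟩ := eigen_rel (sumRep ρ) h hrank hS.memLT hS.le h𝔤.bracket hrk
      (s σ₀⁻¹) z hz' hind b hb
    have hu : (Units.mk0 (c / d) (div_ne_zero hc0 hd0)) ∈ ratioGroup R := by
      refine Subgroup.subset_closure ⟨j, c, hc1, d, hd1, ?_⟩
      rw [Units.val_mk0, div_mul_cancel₀ _ hd0]
    have hab : a / b = c / d := by
      rw [div_eq_div_iff hb0 hd0, habcd, mul_comm]
    -- `(a / b) ^ (N * N')` is a product of powers of the `z i`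
    have hz0 : ∀ i, z i ≠ 0 := fun i => hne _ (hz' i)
    have h1 : (a / b) ^ (N * N') = ∏ i, z i ^ (e' i * N - e i * N') := by
      have h5 : a ^ N = (∏ i, z i ^ e i)⁻¹ := eq_inv_of_mul_eq_one_left hrel
      have h6 : b ^ N' = (∏ i, z i ^ e' i)⁻¹ := eq_inv_of_mul_eq_one_left hrel'
      rw [div_zpow, zpow_mul, mul_comm N N', zpow_mul, h5, h6]
      simp only [zpow_sub₀ (hz0 _), Finset.prod_div_distrib, zpow_mul, Finset.prod_zpow,
        inv_zpow]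
      rw [inv_div_inv]
    have h2 : (fun i => e' i * N - e i * N') = 0 := by
      refine hzi _ ⟨(Units.mk0 (c / d) (div_ne_zero hc0 hd0)) ^ (N * N'),
        Subgroup.zpow_mem _ hu _, ?_⟩
      rw [← h1, Units.val_zpow_eq_zpow_val, Units.val_mk0, hab]
    have h3 : (a / b) ^ (N * N') = 1 := by
      rw [h1]
      refine Finset.prod_eq_one fun i _ => ?_
      have h4 := congrFun h2 i
      simp only [Pi.zero_apply] at h4
      rw [h4, zpow_zero]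
    refine ⟨(N * N').natAbs, Int.natAbs_pos.2 (mul_ne_zero hN hN'), ?_⟩
    have h4 : (a / b) ^ (N * N').natAbs = 1 := by
      rcases Int.natAbs_eq (N * N') with h5 | h5
      · rw [h5, zpow_natCast] at h3
        exact h3
      · rw [h5, zpow_neg, zpow_natCast, inv_eq_one] at h3
        exact h3
    rw [div_pow, div_eq_one_iff_eq (pow_ne_zero _ hb0)] at h4
    exact h4) (fun x hx hxt => hS.tor_cen x (bcS_mono (hAL.trans hS.le) hx) hxt)
  intro X hX Y hY m' Φ hΦ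
  rw [← hAeq] at hX hY
  obtain ⟨X', hX', rfl⟩ := hX
  obtain ⟨Y', hY', rfl⟩ := hY
  have h1 := (hL' _).1 (hmix X' hX' Y' hY')
  refine kills_of (fun m'' φ hφ => ?_) hΦ
  have h3 := h1.2 m'' φ hφ
  have h4 : LinearMap.inl ℚ_[ℓ] (∀ i, Fin (n i) → ℚ_[ℓ]) (Fin (m j) → ℚ_[ℓ]) ∘ₗ
      (cmp ℚ_[ℓ] _ _ X' * cmp ℚ_[ℓ] _ _ Y' - cmp ℚ_[ℓ] _ _ Y' * cmp ℚ_[ℓ] _ _ X') ∘ₗ
      LinearMap.fst ℚ_[ℓ] _ _ = (X' * Y' - Y' * X') * prj ℚ_[ℓ] _ _ := by
    have hX1 := lt_prj ((hL' _).1 hX')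
    have hY1 := lt_prj ((hL' _).1 hY')
    rw [← cmp_mul hY1, ← cmp_mul hX1, ← map_sub]
    refine LinearMap.ext fun x => ?_
    have h5 : (X' * Y' - Y' * X') * prj ℚ_[ℓ] _ _ = prj ℚ_[ℓ] _ _ * (X' * Y' - Y' * X') := by
      rw [sub_mul, mul_sub, mul_assoc, hY1, ← mul_assoc, hX1, mul_assoc, mul_assoc, hX1,
        ← mul_assoc Y', hY1, mul_assoc]
    rw [Module.End.mul_apply, prj_apply, cmp_prj h5]
    rfl
  rw [h4]
  exact h3

end main

end Pool.Agent.Y114.OP
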