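import Mathlib
import Pool.Agent.Y114.OP.Final
import Pool.Agent.Y678.OP.Rel
import Pool.Agent.Y824.OP.Pw
import Pool.Agent.Y25.OP.Root

/-!
# The final theorems
-/

set_option autoImplicit false
set_option linter.unusedSectionVars false
set_option linter.unusedVariables false

namespace Pool.Agent.Y114.OP

open NumberField IsDedekindDomain Module Polynomial TensorProduct Pool.Agent.TH118.SG
  Pool.Agent.Y114.MU Pool.Agent.Y114.TF Pool.Agent.Y114.GF Pool.Agent.H204R3.GP Pool.Agent.Y114.RM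
  Pool.Agent.W569.FM

variable {Γ : Type} [Group Γ] [TopologicalSpace Γ] [IsTopologicalGroup Γ] [CompactSpace Γ]
  {ι : Type} [Fintype ι] [DecidableEq ι] {n : ι → ℕ}
variable {s : GF ℚ →* Γ} {ρ : ∀ (ℓ : ℕ) [Fact ℓ.Prime], Reps Γ n ℓ}
    {𝔤 : ∀ (ℓ : ℕ) [Fact ℓ.Prime], EndSpace n ℓ} {w : ι → ℤ} {r : ℕ}
    {S : Set (HeightOneSpectrum (𝓞 ℚ))} {P : HeightOneSpectrum (𝓞 ℚ) → ι → ℚ[X]} {c : ℕ}

theorem System.main1 (hREL : S_REL) (hROOT : S_ROOT) (hLAT : S_LAT) (h : System s ρ 𝔤 w r S P c)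
    (hs : Continuous s) (ℓ₀ : ℕ) [Fact ℓ₀.Prime] (γ₀ : GF ℚ)
    (hγ₀ : IndepEigenvalues (restrictTo (ρ ℓ₀) s) r γ₀) (ℓ : ℕ) [Fact ℓ.Prime] :
    Semisimple (ρ ℓ) ∧ (∃ 𝔥 : EndSpace n ℓ, KillsTateTensors (ρ ℓ) 𝔥 ∧
      ReductiveOfRank (𝔤 ℓ) 𝔥 r) ∧ (EndTate (ρ ℓ) (𝔤 ℓ) → TateTensorsOf (ρ ℓ) (𝔤 ℓ)) := by
  obtain ⟨v₀, L, alg, hv1, hv2, hL⟩ := h.semi hREL hROOT hs ℓ₀ hγ₀ ℓ
  obtain ⟨Q, σ, hQ, hQv, hσ⟩ := Pool.Agent.W571.FM.frob_cm v₀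
  have hS := hL σ ⟨Q, ⟨hQ.isPrime, hQv⟩, hσ⟩
  refine ⟨hS.ss, ⟨L, hS.mem, hS.lie, hS.nondeg, hS.rk, hS.le⟩, fun hE => ?_⟩
  have hfin : L = 𝔤 ℓ := eq_of_endTate inputs hLAT hS (h.motivic ℓ) hE
  intro m φ
  refine ⟨fun hφ X hX => ?_, IsMotivic.tate (h.motivic ℓ) m φ⟩
  have hX' : X ∈ L := by
    rw [hfin]
    exact hX
  exact (hS.mem X).1 hX' m φ hφ

theorem System.main2 (hREL : S_REL) (hROOT : S_ROOT) (hLAT : S_LAT) (hPW : S_PW) (hCTR : S_CTR)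
    (h : System s ρ 𝔤 w r S P c)
    (hs : Continuous s) (ℓ₀ : ℕ) [Fact ℓ₀.Prime]
    (hcon : ConnectedOfRank (restrictTo (ρ ℓ₀) s) r) (ℓ : ℕ) [Fact ℓ.Prime] :
    Semisimple (ρ ℓ) ∧
      (∀ Y, TateEnd (sumRep (ρ ℓ)) Y → ∀ g, sumRep (ρ ℓ) (s g) * Y = Y * sumRep (ρ ℓ) (s g)) ∧
      (∃ 𝔥 : EndSpace n ℓ, KillsTateTensors (ρ ℓ) 𝔥 ∧ ReductiveOfRank (𝔤 ℓ) 𝔥 r ∧
        CentreScalar 𝔥) ∧
      (EqualRankLevi (𝔤 ℓ) r ∨ EndTate (ρ ℓ) (𝔤 ℓ) → TateTensorsOf (ρ ℓ) (𝔤 ℓ)) := by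
  obtain ⟨γ₀, -, hγ₀, -⟩ := hcon Set.univ isOpen_univ ⟨1, trivial⟩
  obtain ⟨v₀, L, alg, hv1, hv2, hL⟩ := h.semi hREL hROOT hs ℓ₀ hγ₀ ℓ
  obtain ⟨Q, σ, hQ, hQv, hσ⟩ := Pool.Agent.W571.FM.frob_cm v₀
  have hS := hL σ ⟨Q, ⟨hQ.isPrime, hQv⟩, hσ⟩
  have hcen : CentreScalar (k := ℚ_[ℓ]) (V := fun i => Fin (n i) → ℚ_[ℓ]) L := by
    rintro Z ⟨hZ, hZ'⟩ i
    exact h.center hREL hROOT hPW hCTR hs ℓ₀ hcon ℓ hv1 hv2 hL Z hZ hZ' i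
  have hR : ReductiveOfRank (𝔤 ℓ) L r := ⟨hS.lie, hS.nondeg, hS.rk, hS.le⟩
  refine ⟨hS.ss, ?_, ⟨L, hS.mem, hR, hcen⟩, fun hE => ?_⟩
  · rintro Y ⟨Δ, hΔ, hY⟩ g
    refine h.fixed hREL hROOT hPW hs ℓ₀ hcon ℓ hS g Y fun X hX => ?_
    exact tate_comm (sumRep (ρ ℓ)) ((hS.mem X).1 hX) hΔ fun γ hγ => (hY γ hγ).symm
  · have hfin : L = 𝔤 ℓ := by
      rcases hE with hE | hE
      · refine le_antisymm hS.le fun X hX => hE L hR X hX fun Z hZ => ?_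
        have hp := IsMotivic.parts (h.motivic ℓ)
        refine LinearMap.ext fun x => funext fun i => ?_
        have h1 : ∀ (y : ∀ i, Fin (n i) → ℚ_[ℓ]) (a : ℚ_[ℓ]), blk i Z = a • 1 →
            Z y i = a • y i := by
          intro y a ha
          rw [hp Z (hS.le hZ.1)]
          exact LinearMap.congr_fun ha (y i)
        obtain ⟨a, ha⟩ := hcen Z hZ i
        rw [Module.End.mul_apply, Module.End.mul_apply, h1 _ a ha, hp X hX, h1 _ a ha,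
          Pi.single_smul, map_smul, Pi.smul_apply, ← hp X hX]
      · exact eq_of_endTate inputs hLAT hS (h.motivic ℓ) hE
    intro m φ
    refine ⟨fun hφ X hX => ?_, IsMotivic.tate (h.motivic ℓ) m φ⟩
    have hX' : X ∈ L := by
      rw [hfin]
      exact hX
    exact (hS.mem X).1 hX' m φ hφ

end Pool.Agent.Y114.OP
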