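import Mathlib
import Pool.Agent.Y114.OP.All
import Pool.Agent.Y655.OP.Lat
import Pool.Agent.Y487.OP.Ctr

set_option autoImplicit false

namespace Pool.Agent.Y114.OP

open NumberField IsDedekindDomain Polynomial Module Pool.Agent.Y114.TF Pool.Agent.Y114.GF
  Pool.Agent.Y114.MU Pool.Agent.Y114.RM Pool.Agent.H204R3.GP Pool.Agent.W569.FM

variable {Γ : Type} [Group Γ] [TopologicalSpace Γ] [IsTopologicalGroup Γ] [CompactSpace Γ]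
  {ι : Type} [Fintype ι] [DecidableEq ι] {n : ι → ℕ}
variable {s : GF ℚ →* Γ} {ρ : ∀ (ℓ : ℕ) [Fact ℓ.Prime], Reps Γ n ℓ}
    {𝔤 : ∀ (ℓ : ℕ) [Fact ℓ.Prime], EndSpace n ℓ} {w : ι → ℤ} {r : ℕ}
    {S : Set (HeightOneSpectrum (𝓞 ℚ))} {P : HeightOneSpectrum (𝓞 ℚ) → ι → ℚ[X]} {c : ℕ}

theorem one_prime (h : System s ρ 𝔤 w r S P c) (hs : Continuous s) (ℓ₀ : ℕ) [Fact ℓ₀.Prime]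
    (γ₀ : GF ℚ) (hγ₀ : IndepEigenvalues (restrictTo (ρ ℓ₀) s) r γ₀) (ℓ : ℕ) [Fact ℓ.Prime] :
    Semisimple (ρ ℓ) ∧ (∃ 𝔥 : EndSpace n ℓ, KillsTateTensors (ρ ℓ) 𝔥 ∧
      ReductiveOfRank (𝔤 ℓ) 𝔥 r) ∧ (EndTate (ρ ℓ) (𝔤 ℓ) → TateTensorsOf (ρ ℓ) (𝔤 ℓ)) :=
  h.main1 Pool.Agent.Y678.OP.t_REL Pool.Agent.Y25.OP.root Pool.Agent.Y655.OP.lat hs ℓ₀ γ₀ hγ₀ ℓ

theorem one_prime_center (h : System s ρ 𝔤 w r S P c) (hs : Continuous s) (ℓ₀ : ℕ)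
    [Fact ℓ₀.Prime] (hcon : ConnectedOfRank (restrictTo (ρ ℓ₀) s) r) (ℓ : ℕ) [Fact ℓ.Prime] :
    Semisimple (ρ ℓ) ∧
      (∀ Y, TateEnd (sumRep (ρ ℓ)) Y → ∀ g, sumRep (ρ ℓ) (s g) * Y = Y * sumRep (ρ ℓ) (s g)) ∧
      (∃ 𝔥 : EndSpace n ℓ, KillsTateTensors (ρ ℓ) 𝔥 ∧ ReductiveOfRank (𝔤 ℓ) 𝔥 r ∧
        CentreScalar 𝔥) ∧
      (EqualRankLevi (𝔤 ℓ) r ∨ EndTate (ρ ℓ) (𝔤 ℓ) → TateTensorsOf (ρ ℓ) (𝔤 ℓ)) :=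
  h.main2 Pool.Agent.Y678.OP.t_REL Pool.Agent.Y25.OP.root Pool.Agent.Y655.OP.lat
    Pool.Agent.Y824.OP.pw Pool.Agent.Y487.OP.ctr hs ℓ₀ hcon ℓ

theorem one_prime_rat {ρ : ∀ (ℓ : ℕ) [Fact ℓ.Prime], Reps (GF ℚ) n ℓ}
    (hρ : ∀ (ℓ : ℕ) [Fact ℓ.Prime], Conts (ρ ℓ))
    (h𝔤 : ∀ (ℓ : ℕ) [Fact ℓ.Prime], Motivic (ρ ℓ) (𝔤 ℓ))
    (hrank : ∀ (ℓ : ℕ) [Fact ℓ.Prime], RankLE (𝔤 ℓ) r) (hS : S.Finite)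
    (hP : ∀ v ∉ S, ∀ (ℓ : ℕ) [Fact ℓ.Prime], ¬ Above v ℓ → ∀ i,
      GoodReduction (ρ ℓ) i (w i) v (P v i))
    (hc : ∀ v ∉ S, ∀ i, ∀ a ∈ (P v i).aroots ℂ, IsIntegral ℤ ((q v : ℂ) ^ c * a))
    (ℓ₀ : ℕ) [Fact ℓ₀.Prime] (hcon : ConnectedOfRank (ρ ℓ₀) r) (ℓ : ℕ) [Fact ℓ.Prime] :
    Semisimple (ρ ℓ) ∧ EndConnected (ρ ℓ) ∧
      (∃ 𝔥 : EndSpace n ℓ, KillsTateTensors (ρ ℓ) 𝔥 ∧ ReductiveOfRank (𝔤 ℓ) 𝔥 r ∧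
        CentreScalar 𝔥) ∧
      (EqualRankLevi (𝔤 ℓ) r ∨ EndTate (ρ ℓ) (𝔤 ℓ) → TateTensorsOf (ρ ℓ) (𝔤 ℓ)) := by
  obtain ⟨h1, h2, h3, h4⟩ := one_prime_center (Γ := GF ℚ) (s := MonoidHom.id (GF ℚ))
    ⟨hρ, h𝔤, hrank, hS, hP, hc⟩ continuous_id ℓ₀ hcon ℓ
  exact ⟨h1, fun Y hY γ => h2 Y hY γ, h3, h4⟩

end Pool.Agent.Y114.OP
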