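import Mathlib
import Pool.Agent.Y114.OP.Complete
import Pool.Agent.Y114.OP.Family

/-!
# One element at one prime: all fibres which meet an open set
-/

set_option autoImplicit false
set_option linter.unusedSectionVars false
set_option linter.unusedVariables false

namespace Pool.Agent.Y114.OP

open NumberField IsDedekindDomain Module Polynomial TensorProduct Pool.Agent.TH118.SG
  Pool.Agent.Y114.MU Pool.Agent.Y114.TF Pool.Agent.Y114.GF Pool.Agent.H204R3.GP Pool.Agent.Y114.RM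
  Pool.Agent.W569.FM

section place

variable {Γ : Type} [Group Γ] [TopologicalSpace Γ] [IsTopologicalGroup Γ]
  {ι : Type} [Fintype ι] {n : ι → ℕ} {w : ι → ℤ} {ℓ : ℕ} [Fact ℓ.Prime]

theorem uniform_place (hREL : S_REL) (hROOT : S_ROOT) (ρ : Reps Γ n ℓ) (hρ : Conts ρ) (w : ι → ℤ)
    (c r : ℕ) {γ₀ : Γ} (hγ₀ : IndepAt ρ r γ₀) :
    ∃ O : Set Γ, IsOpen O ∧ γ₀ ∈ O ∧ ∀ s : GF ℚ →* Γ, Continuous s → (∃ g, s g ∈ O) →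
      ∀ S : Set (HeightOneSpectrum (𝓞 ℚ)), S.Finite →
      ∀ P : HeightOneSpectrum (𝓞 ℚ) → ι → ℚ[X],
      (∀ v ∉ S, ¬ Above v ℓ → FrobFor (restrictTo ρ s) v (P v)) →
      (∀ v ∉ S, WeilFor w c v (P v)) → ∀ T : Set (HeightOneSpectrum (𝓞 ℚ)), T.Finite →
      ∃ v, v ∉ T ∧ v ∉ S ∧ ¬ Above v ℓ ∧ IndependentRoots r (P v) := by
  classical
  obtain ⟨B, M, hM, hB⟩ := hREL ι n w c r
  obtain ⟨z, hz, hind⟩ := hγ₀
  choose k hk using hz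
  obtain ⟨O, hO, hO1, hO2⟩ := hROOT ℓ ι n Γ ρ hρ B M r k γ₀ hM
  refine ⟨O, hO, hO1, fun s hs hsO S hS P hP hW T hT => ?_⟩
  obtain ⟨g₀, hg₀⟩ := hsO
  obtain ⟨v, hvT, σ, ⟨Q, hQ, hQv, hσ⟩, hσO⟩ := Pool.Agent.Y405.ZO.t ℚ
    (s ⁻¹' O) (hO.preimage hs) ⟨g₀, hg₀⟩
    (T ∪ S ∪ {v | Above v ℓ}) ((hT.union hS).union (finite_above ℓ Fact.out))
  have hv1 : v ∉ T := fun h => hvT (Or.inl (Or.inl h))
  have hv2 : v ∉ S := fun h => hvT (Or.inl (Or.inr h))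
  have hv3 : ¬ Above v ℓ := fun h => hvT (Or.inr h)
  have hch : ∀ i, (ρ i (s σ⁻¹)).charpoly = (P v i).map (algebraMap ℚ ℚ_[ℓ]) := fun i =>
    hP v hv2 hv3 i Q ⟨hQ.isPrime, hQv⟩ σ hσ
  have hne : ∀ i, P v i ≠ 0 := by
    intro i h0
    have h1 := (LinearMap.charpoly_monic (ρ i (s σ⁻¹))).ne_zero
    rw [hch i, h0, Polynomial.map_zero] at h1
    exact h1 rfl
  have hdeg : ∀ i, (P v i).natDegree ≤ n i := by
    intro i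
    have h1 := LinearMap.charpoly_natDegree (ρ i (s σ⁻¹))
    rw [hch i, natDegree_map, finrank_fin_fun] at h1
    exact h1.le
  obtain ⟨z', hz', hz''⟩ := (hO2 (s σ⁻¹) hσO).1 z hk
  obtain ⟨J, -⟩ := exists_J ℓ
  have hroot : ∀ j, aeval (J (z' j)) (P v (k j)) = 0 := by
    intro j
    have h1 := hz' j
    rw [hch, aeval_map_iff] at h1
    rw [aeval_J, h1, map_zero]
  obtain ⟨p, hp, hvp⟩ := exists_above v
  have hWp : ∀ i, ∀ a ∈ (P v i).aroots ℂ, ‖a‖ ^ 2 = (p : ℝ) ^ w i ∧ IsIntegral ℤ ((p : ℂ) ^ c * a) := by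
    intro i a ha
    have h1 := hW v hv2 i a ha
    rwa [q_eq hp hvp] at h1
  refine ⟨v, hv1, hv2, hv3, ⟨fun j => J (z' j), fun j => ⟨k j, hroot j⟩, fun e he => ?_⟩⟩
  by_contra hne0
  obtain ⟨e', he', hbd, hpow⟩ := (hB p hp (P v) (fun i => ⟨hne i, hdeg i⟩) hWp
    (fun j => J (z' j)) (fun j => ⟨k j, (mem_aroots).2 ⟨hne _, hroot j⟩⟩)).1 ⟨e, hne0, he⟩
  refine hz'' e' hbd ?_ ?_
  · intro h1
    apply he'
    have h2 := hind (fun j => (M : ℤ) * e' j) (by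
      rw [← h1, ← Finset.prod_pow]
      refine Finset.prod_congr rfl fun j _ => ?_
      rw [← zpow_natCast, ← zpow_mul, mul_comm])
    funext j
    have h3 := congrFun h2 j
    simp only [Pi.zero_apply, mul_eq_zero] at h3
    rcases h3 with h3 | h3
    · exfalso; omega
    · exact h3
  · apply J.injective
    rw [map_pow, map_prod, map_one, ← hpow]
    congr 1
    refine Finset.prod_congr rfl fun j _ => ?_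
    rw [map_zpow₀]

end place

section main

variable {Γ : Type} [Group Γ] {ι : Type} [Fintype ι] [DecidableEq ι] {n : ι → ℕ}

/-- The representation on `V` is semisimple, the endomorphisms which kill all Tate tensors are a
reductive subalgebra of `𝔤` of rank `r`, and if the endomorphisms of `V` which commute with a
subgroup of finite index commute with `𝔤`, then the Tate tensors are the tensors killed by `𝔤`. -/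
def TateUpToEnd {ℓ : ℕ} [Fact ℓ.Prime] (ρ : Reps Γ n ℓ) (𝔤 : EndSpace n ℓ) (r : ℕ) : Prop :=
  Semisimple ρ ∧ (∃ 𝔥 : EndSpace n ℓ, KillsTateTensors ρ 𝔥 ∧ ReductiveOfRank 𝔤 𝔥 r) ∧
    (EndTate ρ 𝔤 → TateTensorsOf ρ 𝔤)

theorem motivic_comp {Δ : Type} [Group Δ] (s : Δ →* Γ) {ℓ : ℕ} [Fact ℓ.Prime] {ρ : Reps Γ n ℓ}
    {𝔤 : EndSpace n ℓ} (h : Motivic ρ 𝔤) : Motivic (restrictTo ρ s) 𝔤 where
  bracket := IsMotivic.bracket h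
  parts := IsMotivic.parts h
  nondeg := IsMotivic.nondeg h
  semisimple := IsMotivic.semisimple h
  algebraic := IsMotivic.algebraic h
  tate := fun m φ hφ => by
    obtain ⟨Δ', hΔ', h1⟩ := IsMotivic.tate h m φ hφ
    refine ⟨Δ'.comap s, finiteIndex_comap s hΔ', fun γ hγ => ?_⟩
    have h2 := h1 (s γ) hγ
    rw [← map_inv s] at h2
    exact h2

variable [TopologicalSpace Γ] [IsTopologicalGroup Γ] [CompactSpace Γ]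

theorem tateUpToEnd_of (hLAT : S_LAT) {ℓ : ℕ} [Fact ℓ.Prime] (s : GF ℚ →* Γ) (hs : Continuous s)
    {ρ : Reps Γ n ℓ} (hρ : Conts ρ) {𝔤 : EndSpace n ℓ} (h𝔤 : Motivic ρ 𝔤) {r : ℕ}
    (hrank : RankLE 𝔤 r) {w : ι → ℤ} {S : Set (HeightOneSpectrum (𝓞 ℚ))} (hS : S.Finite)
    (P : HeightOneSpectrum (𝓞 ℚ) → ι → ℚ[X])
    (hP : ∀ v ∉ S, ¬ Above v ℓ → ∀ i, GoodReduction (restrictTo ρ s) i (w i) v (P v i))
    {v₀ : HeightOneSpectrum (𝓞 ℚ)} (hv₀S : v₀ ∉ S) (hv₀ : ¬ Above v₀ ℓ)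
    (hind : IndependentRoots r (P v₀)) : TateUpToEnd ρ 𝔤 r := by
  have hℓp : ℓ.Prime := Fact.out
  obtain ⟨p₀, hp₀, hvp₀⟩ := exists_above v₀
  have hp₀T : p₀ ∈ goodPrimes S ℓ := by
    refine ⟨hp₀, ?_, fun v hv => ?_⟩
    · rintro rfl
      exact hv₀ hvp₀
    · rw [above_unique hp₀ hv hvp₀]
      exact hv₀S
  obtain ⟨L, alg, hL⟩ := semi_gen (w := w) inputs inputs2 inputs3.rank ρ s hs hρ 𝔤
    h𝔤 P (goodPrimes S ℓ) (three_le_goodPrimes hS ℓ)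
    (fun p hp => ⟨hp.1, hp.2.1, unramifiedIn_rat hp.1⟩)
    (fun p hp v hv => goodPlace_of (restrictTo ρ s)
      (hP v (hp.2.2 v hv) (not_above hp.1 hℓp hp.2.1 hv)))
    hp₀T (independentPlaces_rat P hp₀ hvp₀) hvp₀ r hind hrank
  obtain ⟨Q, σ, hQ, hQv, hσ⟩ := Pool.Agent.W571.FM.frob_cm v₀
  have hSemi := hL σ ⟨Q, ⟨hQ.isPrime, hQv⟩, hσ⟩
  refine ⟨hSemi.ss, ⟨L, hSemi.mem, hSemi.lie, hSemi.nondeg, hSemi.rk, hSemi.le⟩, fun hE => ?_⟩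
  have hfin : L = 𝔤 := eq_of_endTate inputs hLAT hSemi h𝔤 hE
  intro m φ
  refine ⟨fun hφ X hX => ?_, IsMotivic.tate h𝔤 m φ⟩
  have hX' : X ∈ L := by
    rw [hfin]
    exact hX
  exact (hSemi.mem X).1 hX' m φ hφ

theorem uniform (hREL : S_REL) (hROOT : S_ROOT) (hLAT : S_LAT)
    (ρ : ∀ (ℓ : ℕ) [Fact ℓ.Prime], Reps Γ n ℓ) (hρ : ∀ (ℓ : ℕ) [Fact ℓ.Prime], Conts (ρ ℓ))
    (w : ι → ℤ) (𝔤 : ∀ (ℓ : ℕ) [Fact ℓ.Prime], EndSpace n ℓ)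
    (h𝔤 : ∀ (ℓ : ℕ) [Fact ℓ.Prime], Motivic (ρ ℓ) (𝔤 ℓ)) (r : ℕ)
    (hrank : ∀ (ℓ : ℕ) [Fact ℓ.Prime], RankLE (𝔤 ℓ) r) (c : ℕ) (ℓ₀ : ℕ) [Fact ℓ₀.Prime] (γ₀ : Γ)
    (hγ₀ : IndepEigenvalues (ρ ℓ₀) r γ₀) :
    ∃ O : Set Γ, IsOpen O ∧ γ₀ ∈ O ∧ ∀ s : GF ℚ →* Γ, Continuous s → (∃ g, s g ∈ O) →
      ∀ (S : Set (HeightOneSpectrum (𝓞 ℚ))) (P : HeightOneSpectrum (𝓞 ℚ) → ι → ℚ[X]), S.Finite →
      (∀ v ∉ S, ∀ (ℓ : ℕ) [Fact ℓ.Prime], ¬ Above v ℓ → ∀ i,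
        GoodReduction (restrictTo (ρ ℓ) s) i (w i) v (P v i)) →
      (∀ v ∉ S, ∀ i, ∀ a ∈ (P v i).aroots ℂ, IsIntegral ℤ ((q v : ℂ) ^ c * a)) →
      ∀ (ℓ : ℕ) [Fact ℓ.Prime], TateUpToEnd (ρ ℓ) (𝔤 ℓ) r ∧
        TateUpToEnd (restrictTo (ρ ℓ) s) (𝔤 ℓ) r := by
  obtain ⟨O, hO, hO1, hO2⟩ := uniform_place hREL hROOT (ρ ℓ₀) (hρ ℓ₀) w c r hγ₀
  refine ⟨O, hO, hO1, fun s hs hsO S P hS hP hc ℓ _ => ?_⟩
  have hℓp : ℓ.Prime := Fact.out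
  obtain ⟨v₀, hv1, hv2, -, hind⟩ := hO2 s hs hsO S hS P
    (fun v hv hvℓ i Q hQ g hg => ((hP v hv ℓ₀ hvℓ i).2 Q hQ g).2 hg) (fun v hv i a ha => by
      obtain ⟨p, hp, hvp⟩ := exists_above v
      obtain ⟨ℓ', hℓ', hne⟩ : ∃ ℓ : ℕ, ℓ.Prime ∧ p ≠ ℓ := by
        obtain ⟨ℓ, h1, h2⟩ := Nat.exists_infinite_primes (p + 1)
        exact ⟨ℓ, h2, by omega⟩
      have : Fact ℓ'.Prime := ⟨hℓ'⟩
      exact ⟨(hP v hv ℓ' (not_above hp hℓ' hne hvp) i).1 a ha, hc v hv i a ha⟩)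
    {v | Above v ℓ} (finite_above ℓ hℓp)
  refine ⟨tateUpToEnd_of hLAT s hs (hρ ℓ) (h𝔤 ℓ) (hrank ℓ) hS P
    (fun v hv hvℓ i => hP v hv ℓ hvℓ i) hv2 hv1 hind, ?_⟩
  exact tateUpToEnd_of hLAT (MonoidHom.id (GF ℚ)) continuous_id (ρ := restrictTo (ρ ℓ) s)
    (fun i => (hρ ℓ i).comp hs) (motivic_comp s (h𝔤 ℓ)) (hrank ℓ) hS P
    (fun v hv hvℓ i => hP v hv ℓ hvℓ i) hv2 hv1 hind

/-- A point of good reduction outside a finite set: `s` is continuous, and the representations of the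
Galois group of `ℚ` obtained through `s` have good reduction outside a finite set of places, with
Frobenius polynomials `P v i` in `ℚ[X]` which do not depend on `ℓ`, pure of weight `w i`, with roots
which are integral after multiplication with `q v ^ c`. -/
def GoodPoint (ρ : ∀ (ℓ : ℕ) [Fact ℓ.Prime], Reps Γ n ℓ) (w : ι → ℤ) (c : ℕ)
    (s : Gal(AlgebraicClosure ℚ/ℚ) →* Γ) : Prop :=
  Continuous s ∧ ∃ (S : Set (HeightOneSpectrum (𝓞 ℚ))) (P : HeightOneSpectrum (𝓞 ℚ) → ι → ℚ[X]),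
    S.Finite ∧ (∀ v ∉ S, ∀ (ℓ : ℕ) [Fact ℓ.Prime], ¬ Above v ℓ → ∀ i,
      GoodReduction (restrictTo (ρ ℓ) s) i (w i) v (P v i)) ∧
    ∀ v ∉ S, ∀ i, ∀ a ∈ (P v i).aroots ℂ, IsIntegral ℤ ((q v : ℂ) ^ c * a)

theorem uniform_complete
    (ρ : ∀ (ℓ : ℕ) [Fact ℓ.Prime], Reps Γ n ℓ) (hρ : ∀ (ℓ : ℕ) [Fact ℓ.Prime], Conts (ρ ℓ))
    (w : ι → ℤ) (𝔤 : ∀ (ℓ : ℕ) [Fact ℓ.Prime], EndSpace n ℓ)
    (h𝔤 : ∀ (ℓ : ℕ) [Fact ℓ.Prime], Motivic (ρ ℓ) (𝔤 ℓ)) (r : ℕ)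
    (hrank : ∀ (ℓ : ℕ) [Fact ℓ.Prime], RankLE (𝔤 ℓ) r) (c : ℕ) (ℓ₀ : ℕ) [Fact ℓ₀.Prime] (γ₀ : Γ)
    (hγ₀ : IndepEigenvalues (ρ ℓ₀) r γ₀) :
    ∃ O : Set Γ, IsOpen O ∧ γ₀ ∈ O ∧ ∀ s : Gal(AlgebraicClosure ℚ/ℚ) →* Γ, GoodPoint ρ w c s →
      (∃ g, s g ∈ O) → ∀ (ℓ : ℕ) [Fact ℓ.Prime], TateUpToEnd (ρ ℓ) (𝔤 ℓ) r ∧
        TateUpToEnd (restrictTo (ρ ℓ) s) (𝔤 ℓ) r := by
  obtain ⟨O, hO, hO1, hO2⟩ := uniform Pool.Agent.Y678.OP.t_REL Pool.Agent.Y25.OP.root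
    Pool.Agent.Y655.OP.lat ρ hρ w 𝔤 h𝔤 r hrank c ℓ₀ γ₀ hγ₀
  refine ⟨O, hO, hO1, fun s hs hsO ℓ _ => ?_⟩
  obtain ⟨hsc, S, P, hS, hP, hc⟩ := hs
  exact hO2 s hsc hsO S P hS hP hc ℓ

end main

end Pool.Agent.Y114.OP
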