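import Mathlib
import Pool.Agent.Y114.OP.Mix4
import Pool.Agent.Y114.OP.Uniform

/-!
# Products with an arbitrary representation: all fibres which meet an open set
-/

set_option autoImplicit false
set_option linter.unusedSectionVars false
set_option linter.unusedVariables false

namespace Pool.Agent.Y114.OP

open NumberField IsDedekindDomain Module Polynomial TensorProduct Pool.Agent.TH118.SG
  Pool.Agent.Y114.MU Pool.Agent.Y114.TF Pool.Agent.Y114.GF Pool.Agent.H204R3.GP Pool.Agent.Y114.RM
  Pool.Agent.W569.FM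

section ratios

variable {ℓ : ℕ} [Fact ℓ.Prime] {Γ : Type} [Group Γ] {ι : Type} {n : ι → ℕ} {κ : Type} {m : κ → ℕ}

/-- The group generated by the quotients of the eigenvalues of `γ` on the same representation. -/
noncomputable def eigenRatios (τ : ∀ j, Representation ℚ_[ℓ] Γ (Fin (m j) → ℚ_[ℓ])) (γ : Γ) :
    Subgroup (AlgebraicClosure ℚ_[ℓ])ˣ :=
  Subgroup.closure {u | ∃ j a b, aeval a (τ j γ).charpoly = 0 ∧ aeval b (τ j γ).charpoly = 0 ∧
    (u : AlgebraicClosure ℚ_[ℓ]) * b = a}

/-- There are `r` eigenvalues of `γ` on the `ρ i` which are multiplicatively independent modulo the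
group generated by the quotients of the eigenvalues of `γ` on the `τ j`. -/
def IndepAtModulo (ρ : ∀ i, Representation ℚ_[ℓ] Γ (Fin (n i) → ℚ_[ℓ]))
    (τ : ∀ j, Representation ℚ_[ℓ] Γ (Fin (m j) → ℚ_[ℓ])) (r : ℕ) (γ : Γ) : Prop :=
  ∃ z : Fin r → AlgebraicClosure ℚ_[ℓ], (∀ j, ∃ i, aeval (z j) (ρ i γ).charpoly = 0) ∧
    ∀ e : Fin r → ℤ, (∃ u ∈ eigenRatios τ γ, (u : AlgebraicClosure ℚ_[ℓ]) = ∏ j, z j ^ e j) → e = 0

theorem zpow_sum' {G α : Type} [CommGroup G] (b : G) (s : Finset α) (g : α → ℤ) :
    b ^ (∑ i ∈ s, g i) = ∏ i ∈ s, b ^ g i := by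
  classical
  induction s using Finset.induction_on with
  | empty => rw [Finset.sum_empty, Finset.prod_empty, zpow_zero]
  | insert a s ha ih => rw [Finset.sum_insert ha, Finset.prod_insert ha, zpow_add, ih]

/-- A product of integral powers with block sums zero. -/
theorem prod_mem_of_blocks {G : Type} [CommGroup G] (H : Subgroup G) [DecidableEq κ] [Fintype κ]
    {N : ℕ} (k : Fin N → κ) (Y : Fin N → G) (hY : ∀ i i', k i = k i' → Y i / Y i' ∈ H)
    (g : Fin N → ℤ) (hg : ∀ j, ∑ i, (if k i = j then 1 else 0) * g i = 0) :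
    ∏ i, Y i ^ g i ∈ H := by
  classical
  let b : κ → G := fun j => if h : ∃ i, k i = j then Y h.choose else 1
  have hb : ∀ i, Y i / b (k i) ∈ H := by
    intro i
    have h : ∃ i', k i' = k i := ⟨i, rfl⟩
    have h1 : b (k i) = Y h.choose := dif_pos h
    rw [h1]
    exact hY _ _ h.choose_spec.symm
  have h1 : ∏ i, Y i ^ g i = (∏ i, (Y i / b (k i)) ^ g i) * ∏ i, b (k i) ^ g i := by
    rw [← Finset.prod_mul_distrib]
    refine Finset.prod_congr rfl fun i _ => ?_
    rw [← mul_zpow, div_mul_cancel]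
  have h2 : ∏ i, b (k i) ^ g i = 1 := by
    rw [← Finset.prod_fiberwise Finset.univ k]
    refine Finset.prod_eq_one fun j _ => ?_
    have h3 : ∏ i ∈ Finset.univ.filter (fun i => k i = j), b (k i) ^ g i =
        b j ^ ∑ i ∈ Finset.univ.filter (fun i => k i = j), g i := by
      rw [zpow_sum']
      refine Finset.prod_congr rfl fun i hi => ?_
      rw [(Finset.mem_filter.1 hi).2]
    rw [h3]
    have h4 : ∑ i ∈ Finset.univ.filter (fun i => k i = j), g i = 0 := by
      refine Eq.trans ?_ (hg j)
      rw [Finset.sum_filter]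
      refine Finset.sum_congr rfl fun i _ => ?_
      split_ifs
      · rw [one_mul]
      · rw [zero_mul]
    rw [h4, zpow_zero]
  rw [h1, h2, mul_one]
  exact H.prod_mem fun i _ => H.zpow_mem (hb i) _

/-- Enumeration of the eigenvalues. -/
theorem exists_enum {k : Type} [Field k] {V : Type} [AddCommGroup V] [Module k V]
    [FiniteDimensional k V] (f : End k V) (d : ℕ) (hd : finrank k V = d) :
    ∃ y : Fin d → AlgebraicClosure k, (∀ i, aeval (y i) f.charpoly = 0) ∧
      ∀ a, aeval a f.charpoly = 0 → ∃ i, y i = a := by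
  classical
  have hm := LinearMap.charpoly_monic f
  set p := f.charpoly.map (algebraMap k (AlgebraicClosure k)) with hp
  have hp0 : p ≠ 0 := (hm.map _).ne_zero
  have hcard : Multiset.card p.roots = d := by
    rw [← hd, ← LinearMap.charpoly_natDegree f, ← natDegree_map (algebraMap k (AlgebraicClosure k)),
      ← hp]
    exact (IsAlgClosed.splits p).natDegree_eq_card_roots.symm
  have hlen : p.roots.toList.length = d := by rw [Multiset.length_toList, hcard]
  have hiff : ∀ a, a ∈ p.roots ↔ aeval a f.charpoly = 0 := by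
    intro a
    rw [mem_roots hp0, IsRoot.def, hp, eval_map, ← aeval_def]
  refine ⟨fun i => p.roots.toList.get (i.cast hlen.symm), fun i => ?_, fun a ha => ?_⟩
  · rw [← hiff, ← Multiset.mem_toList]
    exact List.get_mem _ _
  · have h1 := Multiset.mem_toList.2 ((hiff a).2 ha)
    obtain ⟨i, hi⟩ := List.get_of_mem h1
    refine ⟨i.cast hlen, ?_⟩
    rw [← hi]
    rfl

end ratios

end Pool.Agent.Y114.OP
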