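import Mathlib
import Pool.Agent.Y114.OP.Mix5

/-!
# Products with an arbitrary representation: the independence at many places
-/

set_option autoImplicit false
set_option linter.unusedSectionVars false
set_option linter.unusedVariables false

namespace Pool.Agent.Y114.OP

open NumberField IsDedekindDomain Module Polynomial TensorProduct Pool.Agent.TH118.SG
  Pool.Agent.Y114.MU Pool.Agent.Y114.TF Pool.Agent.Y114.GF Pool.Agent.H204R3.GP Pool.Agent.Y114.RM
  Pool.Agent.W569.FM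

section combined

variable {ℓ : ℕ} [Fact ℓ.Prime] {Γ : Type} [Group Γ] {ι : Type} {n : ι → ℕ} {κ : Type} {m : κ → ℕ}

/-- The combined family of representations. -/
def both (ρ : ∀ i, Representation ℚ_[ℓ] Γ (Fin (n i) → ℚ_[ℓ]))
    (τ : ∀ j, Representation ℚ_[ℓ] Γ (Fin (m j) → ℚ_[ℓ])) :
    ∀ i : ι ⊕ κ, Representation ℚ_[ℓ] Γ (Fin (Sum.elim n m i) → ℚ_[ℓ])
  | Sum.inl i => ρ i
  | Sum.inr j => τ j

end combined

variable {Γ : Type} [Group Γ] [TopologicalSpace Γ] [IsTopologicalGroup Γ]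
  {ι : Type} [Fintype ι] {n : ι → ℕ} {ℓ : ℕ} [Fact ℓ.Prime] {κ : Type} [Fintype κ] {m : κ → ℕ}
  {K : Type} [Fintype K]

theorem uniform_place2 (hREL : S_REL2) (hROOT : S_ROOT2) (ρ : Reps Γ n ℓ) (hρ : Conts ρ)
    (τ : Reps Γ m ℓ) (hτ : Conts τ) (w : ι → ℤ) (w' : K → ℤ)
    (c r : ℕ) {γ₀ : Γ} (hγ₀ : IndepAtModulo ρ τ r γ₀) :
    ∃ O : Set Γ, IsOpen O ∧ γ₀ ∈ O ∧ ∀ s : GF ℚ →* Γ, Continuous s → (∃ g, s g ∈ O) →
      ∀ S : Set (HeightOneSpectrum (𝓞 ℚ)), S.Finite →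
      ∀ (P : HeightOneSpectrum (𝓞 ℚ) → ι → ℚ[X]) (R : HeightOneSpectrum (𝓞 ℚ) → κ → K → ℚ[X]),
      (∀ v ∉ S, ¬ Above v ℓ → FrobFor (restrictTo ρ s) v (P v)) →
      (∀ v ∉ S, WeilFor w c v (P v)) →
      (∀ v ∉ S, ¬ Above v ℓ → FrobFor (restrictTo τ s) v fun j => ∏ i, R v j i) →
      (∀ v ∉ S, ∀ j, WeilFor w' c v (R v j)) → ∀ T : Set (HeightOneSpectrum (𝓞 ℚ)), T.Finite →
      ∃ v, v ∉ T ∧ v ∉ S ∧ ¬ Above v ℓ ∧ IndepModulo r (P v) fun j => ∏ i, R v j i := by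
  classical
  -- the blocks
  set N' := Fintype.card (Σ j, Fin (m j)) with hN'
  let ε : Fin N' ≃ (Σ j, Fin (m j)) := (Fintype.equivFin _).symm
  let k' : Fin N' → κ := fun i => (ε i).1
  let A : κ → Fin (r + N') → ℤ := fun j => Fin.append (fun _ => 0) (fun i => if k' i = j then 1 else 0)
  -- the bounds
  have hB0 : ∀ j₀ : Fin r, _ := fun j₀ => hREL (ι ⊕ (κ × K)) (Sum.elim n fun x => m x.1)
    (Sum.elim w fun x => w' x.2) c (r + N') κ A (Fin.castAdd N' j₀)
  choose B M hM hB using hB0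
  set B₁ := ∑ j, B j with hB₁
  set M₁ := ∏ j, M j with hM₁
  have hM₁0 : 0 < M₁ := Finset.prod_pos fun j _ => hM j
  obtain ⟨z, hz, hind⟩ := hγ₀
  choose k hk using hz
  obtain ⟨O, hO, hO1, hO2⟩ := hROOT ℓ (ι ⊕ κ) (Sum.elim n m) Γ (both ρ τ)
    (fun i => by
      rcases i with i | j
      · exact hρ i
      · exact hτ j) B₁ M₁ r N' (fun j => Sum.inl (k j)) (fun j => Sum.inr (k' j)) γ₀ hM₁0
  refine ⟨O, hO, hO1, fun s hs hsO S hS P R hP hW hR hWR T hT => ?_⟩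
  obtain ⟨g₀, hg₀⟩ := hsO
  obtain ⟨v, hvT, σ, ⟨Q, hQ, hQv, hσ⟩, hσO⟩ := Pool.Agent.Y405.ZO.t ℚ
    (s ⁻¹' O) (hO.preimage hs) ⟨g₀, hg₀⟩
    (T ∪ S ∪ {v | Above v ℓ}) ((hT.union hS).union (finite_above ℓ Fact.out))
  have hv1 : v ∉ T := fun h => hvT (Or.inl (Or.inl h))
  have hv2 : v ∉ S := fun h => hvT (Or.inl (Or.inr h))
  have hv3 : ¬ Above v ℓ := fun h => hvT (Or.inr h)
  have hch : ∀ i, (ρ i (s σ⁻¹)).charpoly = (P v i).map (algebraMap ℚ ℚ_[ℓ]) := fun i =>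
    hP v hv2 hv3 i Q ⟨hQ.isPrime, hQv⟩ σ hσ
  have hchR : ∀ j, (τ j (s σ⁻¹)).charpoly = (∏ i, R v j i).map (algebraMap ℚ ℚ_[ℓ]) := fun j =>
    hR v hv2 hv3 j Q ⟨hQ.isPrime, hQv⟩ σ hσ
  have hne : ∀ i, P v i ≠ 0 := by
    intro i h0
    have h1 := (LinearMap.charpoly_monic (ρ i (s σ⁻¹))).ne_zero
    rw [hch i, h0, Polynomial.map_zero] at h1
    exact h1 rfl
  have hneR : ∀ j, ∏ i, R v j i ≠ 0 := by
    intro j h0
    have h1 := (LinearMap.charpoly_monic (τ j (s σ⁻¹))).ne_zero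
    rw [hchR j, h0, Polynomial.map_zero] at h1
    exact h1 rfl
  have hdeg : ∀ i, (P v i).natDegree ≤ n i := by
    intro i
    have h1 := LinearMap.charpoly_natDegree (ρ i (s σ⁻¹))
    rw [hch i, natDegree_map, finrank_fin_fun] at h1
    exact h1.le
  have hdegR : ∀ j i, (R v j i).natDegree ≤ m j := by
    intro j i
    have h1 := LinearMap.charpoly_natDegree (τ j (s σ⁻¹))
    rw [hchR j, natDegree_map, finrank_fin_fun] at h1
    rw [← h1]
    exact natDegree_le_of_dvd (Finset.dvd_prod_of_mem _ (Finset.mem_univ i)) (hneR j)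
  obtain ⟨z', hz', hO3⟩ := hO2 (s σ⁻¹) hσO z hk
  obtain ⟨J, -⟩ := exists_J ℓ
  have hroot : ∀ j, aeval (J (z' j)) (P v (k j)) = 0 := by
    intro j
    have h1 : aeval (z' j) (ρ (k j) (s σ⁻¹)).charpoly = 0 := hz' j
    rw [hch, aeval_map_iff] at h1
    rw [aeval_J, h1, map_zero]
  obtain ⟨p, hp, hvp⟩ := exists_above v
  have hWp : ∀ i, ∀ a ∈ (P v i).aroots ℂ, ‖a‖ ^ 2 = (p : ℝ) ^ w i ∧
      IsIntegral ℤ ((p : ℂ) ^ c * a) := by
    intro i a ha
    have h1 := hW v hv2 i a ha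
    rwa [q_eq hp hvp] at h1
  have hWRp : ∀ j i, ∀ a ∈ (R v j i).aroots ℂ, ‖a‖ ^ 2 = (p : ℝ) ^ w' i ∧
      IsIntegral ℤ ((p : ℂ) ^ c * a) := by
    intro j i a ha
    have h1 := hWR v hv2 j i a ha
    rwa [q_eq hp hvp] at h1
  -- enumeration of the eigenvalues on `W`
  have henum : ∀ j, ∃ y : Fin (m j) → AlgebraicClosure ℚ_[ℓ],
      (∀ i, aeval (y i) (τ j (s σ⁻¹)).charpoly = 0) ∧
      ∀ a, aeval a (τ j (s σ⁻¹)).charpoly = 0 → ∃ i, y i = a := fun j =>
    exists_enum (τ j (s σ⁻¹)) (m j) (finrank_fin_fun _)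
  choose y₁ hy₁ hy₁' using henum
  let y' : Fin N' → AlgebraicClosure ℚ_[ℓ] := fun i => y₁ (ε i).1 (ε i).2
  have hy' : ∀ i, aeval (y' i) (τ (k' i) (s σ⁻¹)).charpoly = 0 := fun i => hy₁ _ _
  have hy0 : ∀ j a, aeval a (τ j (s σ⁻¹)).charpoly = 0 → ∃ i, k' i = j ∧ y' i = a := by
    intro j a ha
    obtain ⟨i, hi⟩ := hy₁' j a ha
    refine ⟨ε.symm ⟨j, i⟩, ?_, ?_⟩
    · change (ε (ε.symm ⟨j, i⟩)).1 = j
      rw [Equiv.apply_symm_apply]
    · change y₁ (ε (ε.symm ⟨j, i⟩)).1 (ε (ε.symm ⟨j, i⟩)).2 = a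
      rw [Equiv.apply_symm_apply]
      exact hi
  have hrootR : ∀ i, aeval (J (y' i)) (∏ a, R v (k' i) a) = 0 := by
    intro i
    have h1 := hy' i
    rw [hchR, aeval_map_iff] at h1
    rw [aeval_J, h1, map_zero]
  obtain ⟨y, hy, hO4⟩ := hO3 y' hy'
  refine ⟨v, hv1, hv2, hv3, ⟨fun j => J (z' j), fun j => ⟨k j, hroot j⟩, fun e he => ?_⟩⟩
  obtain ⟨u, hu, hue⟩ := he
  -- nonzero eigenvalues
  have hunit : ∀ {d : ℕ} (f : Representation ℚ_[ℓ] Γ (Fin d → ℚ_[ℓ])) (γ : Γ)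
      (a : AlgebraicClosure ℚ_[ℓ]), aeval a (f γ).charpoly = 0 → a ≠ 0 := by
    rintro d f γ a ha rfl
    have h1 : LinearMap.det (f γ) ≠ 0 := by
      have h2 : LinearMap.det (f γ) * LinearMap.det (f γ⁻¹) = 1 := by
        rw [← map_mul LinearMap.det, ← map_mul f, mul_inv_cancel, map_one, map_one]
      exact left_ne_zero_of_mul_eq_one h2
    apply h1
    rw [LinearMap.det_eq_sign_charpoly_coeff]
    rw [aeval_def, eval₂_at_zero, map_eq_zero] at ha
    rw [ha, mul_zero]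
  have hJ0 : ∀ i, J (y' i) ≠ 0 := fun i => (map_ne_zero J).2 (hunit _ _ _ (hy' i))
  -- `u` as a product with block sums zero
  have hprod : ∀ u ∈ ratioGroup (fun j => ∏ i, R v j i), ∃ f : Fin N' → ℤ,
      (∀ j, ∑ i, (if k' i = j then 1 else 0) * f i = 0) ∧ (u : ℂ) = ∏ i, J (y' i) ^ f i := by
    intro u hu
    induction hu using Subgroup.closure_induction with
    | mem x hx =>
      obtain ⟨j, a, ha, b, hb, hab⟩ := hx
      rw [mem_aroots] at ha hb
      have hpre : ∀ a : ℂ, aeval a (∏ i, R v j i) = 0 → ∃ i, k' i = j ∧ J (y' i) = a := by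
        intro a ha
        obtain ⟨x, hx, hx'⟩ := exists_pre J (hneR j) ha
        obtain ⟨i, hi, hi'⟩ := hy0 j x (by rw [hchR, aeval_map_iff]; exact hx)
        exact ⟨i, hi, by rw [hi', hx']⟩
      obtain ⟨ia, hia, hia'⟩ := hpre a ha.2
      obtain ⟨ib, hib, hib'⟩ := hpre b hb.2
      refine ⟨Pi.single ia 1 - Pi.single ib 1, fun j' => ?_, ?_⟩
      · simp only [Pi.sub_apply, mul_sub, Finset.sum_sub_distrib, Pi.single_apply, mul_ite, mul_one,
          mul_zero, Finset.sum_ite_eq', Finset.mem_univ, if_true]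
        rw [hia, hib, sub_self]
      · have h5 : ∏ i, J (y' i) ^ ((Pi.single ia 1 - Pi.single ib 1 : Fin N' → ℤ) i) =
            J (y' ia) / J (y' ib) := by
          simp only [Pi.sub_apply, zpow_sub₀ (hJ0 _), Finset.prod_div_distrib]
          congr 1
          · rw [Finset.prod_eq_single ia, Pi.single_eq_same, zpow_one]
            · intro i _ hi
              rw [Pi.single_eq_of_ne hi, zpow_zero]
            · intro h; exact absurd (Finset.mem_univ _) h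
          · rw [Finset.prod_eq_single ib, Pi.single_eq_same, zpow_one]
            · intro i _ hi
              rw [Pi.single_eq_of_ne hi, zpow_zero]
            · intro h; exact absurd (Finset.mem_univ _) h
        rw [h5, hia', hib', ← hab]
        have hb0 : b ≠ 0 := by
          rw [← hib']
          exact hJ0 ib
        rw [mul_div_cancel_right₀ _ hb0]
    | one => exact ⟨0, fun j => by simp, by simp⟩
    | mul x y _ _ hx hy =>
      obtain ⟨f, hf, hf'⟩ := hx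
      obtain ⟨g, hg, hg'⟩ := hy
      refine ⟨f + g, fun j => ?_, ?_⟩
      · simp only [Pi.add_apply, mul_add, Finset.sum_add_distrib]
        rw [hf j, hg j, add_zero]
      · rw [Units.val_mul, hf', hg', ← Finset.prod_mul_distrib]
        refine Finset.prod_congr rfl fun i _ => ?_
        rw [Pi.add_apply, zpow_add₀ (hJ0 i)]
    | inv x _ hx =>
      obtain ⟨f, hf, hf'⟩ := hx
      refine ⟨-f, fun j => ?_, ?_⟩
      · simp only [Pi.neg_apply, mul_neg, Finset.sum_neg_distrib]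
        rw [hf j, neg_zero]
      · rw [Units.val_inv_eq_inv_val, hf', ← Finset.prod_inv_distrib]
        refine Finset.prod_congr rfl fun i _ => ?_
        rw [Pi.neg_apply, zpow_neg]
  obtain ⟨f, hf, hf'⟩ := hprod u hu
  by_contra hne0
  obtain ⟨j₀, hj₀⟩ := Function.ne_iff.1 hne0
  rw [Pi.zero_apply] at hj₀
  have hneRi : ∀ j i, R v j i ≠ 0 := fun j i => Finset.prod_ne_zero_iff.1 (hneR j) i (Finset.mem_univ i)
  have hrelation : ∏ i, (Fin.append (fun j => J (z' j)) (fun i => J (y' i))) i ^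
      (Fin.append e (-f)) i = 1 := by
    rw [Fin.prod_univ_add]
    simp only [Fin.append_left, Fin.append_right]
    rw [← hue, hf', ← Finset.prod_mul_distrib]
    refine Finset.prod_eq_one fun i _ => ?_
    rw [Pi.neg_apply, zpow_neg, mul_inv_cancel₀ (zpow_ne_zero _ (hJ0 i))]
  have hAsum : ∀ (E : Fin (r + N') → ℤ) (j : κ), ∑ i, A j i * E i =
      ∑ i, (if k' i = j then 1 else 0) * E (Fin.natAdd r i) := by
    intro E j
    rw [Fin.sum_univ_add]
    simp only [A, Fin.append_left, Fin.append_right, zero_mul, Finset.sum_const_zero, zero_add]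
  obtain ⟨E, hE1, hE2, hE3, hE4⟩ := hB j₀ p hp (Sum.elim (P v) fun x => R v x.1 x.2)
    (fun i => by
      rcases i with i | ⟨j, i⟩
      · exact ⟨hne i, hdeg i⟩
      · exact ⟨hneRi j i, hdegR j i⟩)
    (fun i => by
      rcases i with i | ⟨j, i⟩
      · exact hWp i
      · exact hWRp j i) (Fin.append (fun j => J (z' j)) (fun i => J (y' i)))
    (fun j => by
      refine Fin.addCases (fun j => ?_) (fun i => ?_) j
      · refine ⟨Sum.inl (k j), ?_⟩
        rw [Fin.append_left]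
        exact (mem_aroots).2 ⟨hne _, hroot j⟩
      · have h1 := hrootR i
        rw [map_prod, Finset.prod_eq_zero_iff] at h1
        obtain ⟨a, -, ha⟩ := h1
        refine ⟨Sum.inr (k' i, a), ?_⟩
        rw [Fin.append_right]
        exact (mem_aroots).2 ⟨hneRi _ _, ha⟩)
    ⟨Fin.append e (-f), fun j => by
      rw [hAsum]
      simp only [Fin.append_right, Pi.neg_apply, mul_neg, Finset.sum_neg_distrib]
      rw [hf j, neg_zero], by rw [Fin.append_left]; exact hj₀, hrelation⟩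
  have hle : ∀ i, |E i| ≤ (B₁ : ℤ) := fun i => (hE3 i).trans (by
    have h1 : B j₀ ≤ B₁ := Finset.single_le_sum (f := B) (fun _ _ => Nat.zero_le _)
      (Finset.mem_univ j₀)
    exact_mod_cast h1)
  have hpow : ((∏ j, z' j ^ E (Fin.castAdd N' j)) * ∏ i, y' i ^ E (Fin.natAdd r i)) ^ M₁ = 1 := by
    have h1 : ((∏ j, z' j ^ E (Fin.castAdd N' j)) * ∏ i, y' i ^ E (Fin.natAdd r i)) ^ M j₀ = 1 := by
      apply J.injective
      rw [map_pow, map_mul, map_prod, map_prod, map_one, ← hE4, Fin.prod_univ_add]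
      simp only [Fin.append_left, Fin.append_right, map_zpow₀]
    obtain ⟨d, hd⟩ : M j₀ ∣ M₁ := Finset.dvd_prod_of_mem M (Finset.mem_univ j₀)
    rw [hd, pow_mul, h1, one_pow]
  have hfin := hO4 (fun j => E (Fin.castAdd N' j)) (fun i => E (Fin.natAdd r i))
    (fun j => hle _) (fun i => hle _) hpow
  -- back to `γ₀`
  have hyne : ∀ i, y i ≠ 0 := fun i => hunit (τ (k' i)) γ₀ (y i) (hy i)
  let Y : Fin N' → (AlgebraicClosure ℚ_[ℓ])ˣ := fun i => Units.mk0 (y i) (hyne i)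
  have hmem : ∏ i, Y i ^ (-((M₁ : ℤ) * E (Fin.natAdd r i))) ∈ eigenRatios τ γ₀ := by
    refine prod_mem_of_blocks (eigenRatios τ γ₀) k' Y (fun i i' h => ?_) _ (fun j => ?_)
    · refine Subgroup.subset_closure ⟨k' i, y i, y i', hy i, ?_, ?_⟩
      · rw [h]
        exact hy i'
      · rw [Units.val_div_eq_div_val]
        change y i / y i' * y i' = y i
        rw [div_mul_cancel₀ _ (hyne i')]
    · have h1 := hE1 j
      rw [hAsum] at h1
      have h2 : ∀ i, (if k' i = j then (1 : ℤ) else 0) * -((M₁ : ℤ) * E (Fin.natAdd r i)) =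
          -(M₁ : ℤ) * ((if k' i = j then 1 else 0) * E (Fin.natAdd r i)) := by
        intro i
        ring
      rw [Finset.sum_congr rfl fun i _ => h2 i, ← Finset.mul_sum, h1, mul_zero]
  have h9 := hind (fun j => (M₁ : ℤ) * E (Fin.castAdd N' j)) ⟨_, hmem, by
    rw [Units.coe_prod]
    have h1 : ∏ i, y i ^ ((M₁ : ℤ) * E (Fin.natAdd r i)) ≠ 0 :=
      Finset.prod_ne_zero_iff.2 fun i _ => zpow_ne_zero _ (hyne i)
    have h2 : (∏ j, z j ^ ((M₁ : ℤ) * E (Fin.castAdd N' j))) *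
        ∏ i, y i ^ ((M₁ : ℤ) * E (Fin.natAdd r i)) = 1 := by
      rw [← hfin, mul_pow, ← Finset.prod_pow, ← Finset.prod_pow]
      congr 1
      · refine Finset.prod_congr rfl fun j _ => ?_
        rw [← zpow_natCast, ← zpow_mul, mul_comm]
      · refine Finset.prod_congr rfl fun j _ => ?_
        rw [← zpow_natCast, ← zpow_mul, mul_comm]
    rw [← mul_left_inj' h1, h2, ← Finset.prod_mul_distrib]
    refine Finset.prod_eq_one fun i _ => ?_
    rw [Units.val_zpow_eq_zpow_val]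
    change y i ^ (-((M₁ : ℤ) * E (Fin.natAdd r i))) * _ = 1
    rw [zpow_neg, inv_mul_cancel₀ (zpow_ne_zero _ (hyne i))]⟩
  have h10 := congrFun h9 j₀
  simp only [Pi.zero_apply, mul_eq_zero] at h10
  rcases h10 with h10 | h10
  · exfalso; omega
  · exact hE2 h10

end Pool.Agent.Y114.OP
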