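import Mathlib
import Pool.Agent.Y114.OP.Mix6

/-!
# Products with an arbitrary representation: the uniform theorem
-/

set_option autoImplicit false
set_option linter.unusedSectionVars false
set_option linter.unusedVariables false

namespace Pool.Agent.Y114.OP

open NumberField IsDedekindDomain Module Polynomial TensorProduct Pool.Agent.TH118.SG
  Pool.Agent.Y114.MU Pool.Agent.Y114.TF Pool.Agent.Y114.GF Pool.Agent.H204R3.GP Pool.Agent.Y114.RM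
  Pool.Agent.W569.FM

variable {Γ : Type} [Group Γ] {ι : Type} [Fintype ι] [DecidableEq ι] {n : ι → ℕ}
  {κ : Type} {m : κ → ℕ}

/-- The representation on `V` is semisimple; the endomorphisms which kill all Tate tensors on `V` are
a reductive subalgebra `𝔥` of `𝔤` of rank `r`, equal to `𝔤` if the endomorphisms of `V` which commute
with a subgroup of finite index commute with `𝔤`; and the brackets of elements of `𝔥` kill all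
multilinear maps from `V ⊕ V^*` to a `τ j` which are equivariant under a subgroup of finite index. -/
def TateTimes {ℓ : ℕ} [Fact ℓ.Prime] (ρ : Reps Γ n ℓ) (τ : Reps Γ m ℓ) (𝔤 : EndSpace n ℓ) (r : ℕ) :
    Prop :=
  Semisimple ρ ∧ ∃ 𝔥 : EndSpace n ℓ, KillsTateTensors ρ 𝔥 ∧ ReductiveOfRank 𝔤 𝔥 r ∧
    (EndTate ρ 𝔤 → 𝔥 = 𝔤) ∧ ∀ j, BracketsKill (sumRep ρ) (τ j) 𝔥

variable [TopologicalSpace Γ] [IsTopologicalGroup Γ] [CompactSpace Γ]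

theorem mix_of (hLAT : S_LAT) (hMIX : S_MIX) {ℓ : ℕ} [Fact ℓ.Prime] (s : GF ℚ →* Γ)
    (hs : Continuous s) {ρ : Reps Γ n ℓ} (hρ : Conts ρ) {𝔤 : EndSpace n ℓ} (h𝔤 : Motivic ρ 𝔤)
    {r : ℕ} (hrank : RankLE 𝔤 r) {w : ι → ℤ} {S : Set (HeightOneSpectrum (𝓞 ℚ))} (hS : S.Finite)
    (P : HeightOneSpectrum (𝓞 ℚ) → ι → ℚ[X])
    (hP : ∀ v ∉ S, ¬ Above v ℓ → ∀ i, GoodReduction (restrictTo ρ s) i (w i) v (P v i))
    (τ : Reps Γ m ℓ) {v₀ : HeightOneSpectrum (𝓞 ℚ)} (hv₀S : v₀ ∉ S) (hv₀ : ¬ Above v₀ ℓ)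
    (R : κ → ℚ[X]) (hR : FrobFor (restrictTo τ s) v₀ R)
    (hind : IndepModulo r (P v₀) R) : TateTimes ρ τ 𝔤 r := by
  have hℓp : ℓ.Prime := Fact.out
  obtain ⟨p₀, hp₀, hvp₀⟩ := exists_above v₀
  have hp₀T : p₀ ∈ goodPrimes S ℓ := by
    refine ⟨hp₀, ?_, fun v hv => ?_⟩
    · rintro rfl
      exact hv₀ hvp₀
    · rw [above_unique hp₀ hv hvp₀]
      exact hv₀S
  obtain ⟨Q, σ, hQ, hQv, hσ⟩ := Pool.Agent.W571.FM.frob_cm v₀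
  obtain ⟨L, alg, hSemi, hbr⟩ := mix_local (w := w) inputs inputs2 inputs3.rank hLAT hMIX ρ s hs hρ 𝔤
    h𝔤 P (goodPrimes S ℓ) (three_le_goodPrimes hS ℓ)
    (fun p hp => ⟨hp.1, hp.2.1, unramifiedIn_rat hp.1⟩)
    (fun p hp v hv => goodPlace_of (restrictTo ρ s)
      (hP v (hp.2.2 v hv) (not_above hp.1 hℓp hp.2.1 hv)))
    hp₀T (independentPlaces_rat P hp₀ hvp₀) hvp₀ r τ R σ ⟨Q, ⟨hQ.isPrime, hQv⟩, hσ⟩
    (fun j => hR j Q ⟨hQ.isPrime, hQv⟩ σ hσ) hind hrank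
  exact ⟨hSemi.ss, L, hSemi.mem, ⟨hSemi.lie, hSemi.nondeg, hSemi.rk, hSemi.le⟩,
    fun hE => eq_of_endTate inputs hLAT hSemi h𝔤 hE, hbr⟩

variable [Fintype κ] {K : Type} [Fintype K]

/-- The Frobenius polynomials of the `τ j`, through `s`: outside a finite set of places the
characteristic polynomial of geometric Frobenius elements on `τ ℓ j` is the product of polynomials
`R v j i` in `ℚ[X]` which do not depend on `ℓ`, pure of weight `w' i`, with roots which are integral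
after multiplication with `q v ^ c`. -/
def MixedPoint (τ : ∀ (ℓ : ℕ) [Fact ℓ.Prime], Reps Γ m ℓ) (w' : K → ℤ) (c : ℕ)
    (s : Gal(AlgebraicClosure ℚ/ℚ) →* Γ) : Prop :=
  ∃ (S : Set (HeightOneSpectrum (𝓞 ℚ))) (R : HeightOneSpectrum (𝓞 ℚ) → κ → K → ℚ[X]),
    S.Finite ∧ (∀ v ∉ S, ∀ (ℓ : ℕ) [Fact ℓ.Prime], ¬ Above v ℓ →
      FrobFor (restrictTo (τ ℓ) s) v fun j => ∏ i, R v j i) ∧
    ∀ v ∉ S, ∀ j, WeilFor w' c v (R v j)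

theorem uniform_mix (hREL : S_REL2) (hROOT : S_ROOT2) (hLAT : S_LAT) (hMIX : S_MIX)
    (ρ : ∀ (ℓ : ℕ) [Fact ℓ.Prime], Reps Γ n ℓ) (hρ : ∀ (ℓ : ℕ) [Fact ℓ.Prime], Conts (ρ ℓ))
    (w : ι → ℤ) (𝔤 : ∀ (ℓ : ℕ) [Fact ℓ.Prime], EndSpace n ℓ)
    (h𝔤 : ∀ (ℓ : ℕ) [Fact ℓ.Prime], Motivic (ρ ℓ) (𝔤 ℓ)) (r : ℕ)
    (hrank : ∀ (ℓ : ℕ) [Fact ℓ.Prime], RankLE (𝔤 ℓ) r)
    (τ : ∀ (ℓ : ℕ) [Fact ℓ.Prime], Reps Γ m ℓ) (hτ : ∀ (ℓ : ℕ) [Fact ℓ.Prime], Conts (τ ℓ))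
    (w' : K → ℤ) (c : ℕ) (ℓ₀ : ℕ) [Fact ℓ₀.Prime] (γ₀ : Γ)
    (hγ₀ : IndepAtModulo (ρ ℓ₀) (τ ℓ₀) r γ₀) :
    ∃ O : Set Γ, IsOpen O ∧ γ₀ ∈ O ∧ ∀ s : Gal(AlgebraicClosure ℚ/ℚ) →* Γ, GoodPoint ρ w c s →
      MixedPoint τ w' c s → (∃ g, s g ∈ O) → ∀ (ℓ : ℕ) [Fact ℓ.Prime],
        TateTimes (ρ ℓ) (τ ℓ) (𝔤 ℓ) r ∧
        TateTimes (restrictTo (ρ ℓ) s) (restrictTo (τ ℓ) s) (𝔤 ℓ) r := by
  obtain ⟨O, hO, hO1, hO2⟩ := uniform_place2 hREL hROOT (ρ ℓ₀) (hρ ℓ₀) (τ ℓ₀) (hτ ℓ₀) w w' c r hγ₀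
  refine ⟨O, hO, hO1, fun s hs hs' hsO ℓ _ => ?_⟩
  obtain ⟨hsc, S, P, hS, hP, hc⟩ := hs
  obtain ⟨S', R, hS', hR, hRW⟩ := hs'
  have hℓp : ℓ.Prime := Fact.out
  obtain ⟨v₀, hv1, hv2, -, hind⟩ := hO2 s hsc hsO (S ∪ S') (hS.union hS') P R
    (fun v hv hvℓ i Q hQ g hg => ((hP v (fun h => hv (Or.inl h)) ℓ₀ hvℓ i).2 Q hQ g).2 hg)
    (fun v hv i a ha => by
      obtain ⟨p, hp, hvp⟩ := exists_above v
      obtain ⟨ℓ', hℓ', hne⟩ : ∃ ℓ : ℕ, ℓ.Prime ∧ p ≠ ℓ := by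
        obtain ⟨ℓ, h1, h2⟩ := Nat.exists_infinite_primes (p + 1)
        exact ⟨ℓ, h2, by omega⟩
      have : Fact ℓ'.Prime := ⟨hℓ'⟩
      exact ⟨(hP v (fun h => hv (Or.inl h)) ℓ' (not_above hp hℓ' hne hvp) i).1 a ha,
        hc v (fun h => hv (Or.inl h)) i a ha⟩)
    (fun v hv hvℓ => hR v (fun h => hv (Or.inr h)) ℓ₀ hvℓ)
    (fun v hv j => hRW v (fun h => hv (Or.inr h)) j)
    {v | Above v ℓ} (finite_above ℓ hℓp)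
  refine ⟨mix_of hLAT hMIX s hsc (hρ ℓ) (h𝔤 ℓ) (hrank ℓ) (hS.union hS') P
    (fun v hv hvℓ i => hP v (fun h => hv (Or.inl h)) ℓ hvℓ i) (τ ℓ) hv2 hv1 _
    (hR v₀ (fun h => hv2 (Or.inr h)) ℓ hv1) hind, ?_⟩
  exact mix_of hLAT hMIX (MonoidHom.id (GF ℚ)) continuous_id (ρ := restrictTo (ρ ℓ) s)
    (fun i => (hρ ℓ i).comp hsc) (motivic_comp s (h𝔤 ℓ)) (hrank ℓ) (hS.union hS') P
    (fun v hv hvℓ i => hP v (fun h => hv (Or.inl h)) ℓ hvℓ i) (restrictTo (τ ℓ) s) hv2 hv1 _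
    (hR v₀ (fun h => hv2 (Or.inr h)) ℓ hv1) hind

end Pool.Agent.Y114.OP
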