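import Mathlib
import Pool.Agent.Y114.OP.Mix7
import Pool.Agent.Y448.OP.Rel2
import Pool.Agent.Y261.OP.Root2
import Pool.Agent.Y833.OP.Mix

/-!
# Products with an arbitrary representation: the theorem
-/

set_option autoImplicit false

namespace Pool.Agent.Y114.OP

open NumberField IsDedekindDomain Module Polynomial TensorProduct Pool.Agent.TH118.SG
  Pool.Agent.Y114.MU Pool.Agent.Y114.TF Pool.Agent.Y114.GF Pool.Agent.H204R3.GP Pool.Agent.Y114.RM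
  Pool.Agent.W569.FM

variable {Γ : Type} [Group Γ] {ι : Type} [Fintype ι] [DecidableEq ι] {n : ι → ℕ}
  {κ : Type} {m : κ → ℕ} [TopologicalSpace Γ] [IsTopologicalGroup Γ] [CompactSpace Γ]
  [Fintype κ] {K : Type} [Fintype K]

theorem mix_complete
    (ρ : ∀ (ℓ : ℕ) [Fact ℓ.Prime], Reps Γ n ℓ) (hρ : ∀ (ℓ : ℕ) [Fact ℓ.Prime], Conts (ρ ℓ))
    (w : ι → ℤ) (𝔤 : ∀ (ℓ : ℕ) [Fact ℓ.Prime], EndSpace n ℓ)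
    (h𝔤 : ∀ (ℓ : ℕ) [Fact ℓ.Prime], Motivic (ρ ℓ) (𝔤 ℓ)) (r : ℕ)
    (hrank : ∀ (ℓ : ℕ) [Fact ℓ.Prime], RankLE (𝔤 ℓ) r)
    (τ : ∀ (ℓ : ℕ) [Fact ℓ.Prime], Reps Γ m ℓ) (hτ : ∀ (ℓ : ℕ) [Fact ℓ.Prime], Conts (τ ℓ))
    (w' : K → ℤ) (c : ℕ) (ℓ₀ : ℕ) [Fact ℓ₀.Prime] (γ₀ : Γ)
    (hγ₀ : IndepAtModulo (ρ ℓ₀) (τ ℓ₀) r γ₀) :
    ∃ O : Set Γ, IsOpen O ∧ γ₀ ∈ O ∧ ∀ s : Gal(AlgebraicClosure ℚ/ℚ) →* Γ, GoodPoint ρ w c s →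
      MixedPoint τ w' c s → (∃ g, s g ∈ O) → ∀ (ℓ : ℕ) [Fact ℓ.Prime],
        TateTimes (ρ ℓ) (τ ℓ) (𝔤 ℓ) r ∧
        TateTimes (restrictTo (ρ ℓ) s) (restrictTo (τ ℓ) s) (𝔤 ℓ) r :=
  uniform_mix Pool.Agent.Y448.OP.rel2 Pool.Agent.Y261.OP.root2 Pool.Agent.Y655.OP.lat
    Pool.Agent.Y833.OP.mix ρ hρ w 𝔤 h𝔤 r hrank τ hτ w' c ℓ₀ γ₀ hγ₀

end Pool.Agent.Y114.OP

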