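import Mathlib
import Pool.Agent.Y833.OP.Mix
import Pool.Agent.Y114.OP.Mix4

/-!
# Products with an arbitrary representation: the central part
-/

set_option autoImplicit false
set_option linter.unusedSectionVars false
set_option linter.unusedVariables false

namespace Pool.Agent.Y114.OP

open NumberField IsDedekindDomain Module Polynomial TensorProduct Pool.Agent.TH118.SG
  Pool.Agent.Y114.MU Pool.Agent.Y114.TF Pool.Agent.Y114.GF Pool.Agent.H204R3.GP Pool.Agent.Y114.RM
open Pool.Agent.Y960.RM (eval_gen ad)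

/-- Additive functions with given values on elements which are independent modulo `H`, zero on
`H`. -/
theorem exists_theta {r : ℕ} (H : Subgroup ℂˣ) (z : Fin r → ℂˣ)
    (hz : ∀ e : Fin r → ℤ, ∏ i, z i ^ e i ∈ H → e = 0) (c : Fin r → ℂ) :
    ∃ θ : Additive ℂˣ →+ ℂ, (∀ u ∈ H, θ (Additive.ofMul u) = 0) ∧
      ∀ i, θ (Additive.ofMul (z i)) = c i := by
  have hB : Module.Baer ℤ ℂ := Module.Baer.of_divisible ℂ
  let π : ℂˣ →* ℂˣ ⧸ H := QuotientGroup.mk' H
  let inst : AddCommGroup (Additive (ℂˣ ⧸ H)) := inferInstance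
  let _ : Module ℤ (Additive (ℂˣ ⧸ H)) := @AddCommGroup.toIntModule _ inst
  let f0 : (Fin r → ℤ) →+ Additive (ℂˣ ⧸ H) :=
    { toFun := fun e => Additive.ofMul (π (∏ i, z i ^ e i))
      map_zero' := by simp
      map_add' := fun a b => by
        rw [← ofMul_mul, ← map_mul, ← Finset.prod_mul_distrib]
        congr 2
        exact Finset.prod_congr rfl fun i _ => by rw [Pi.add_apply, zpow_add] }
  let f : (Fin r → ℤ) →ₗ[ℤ] Additive (ℂˣ ⧸ H) := f0.toIntLinearMap
  have hfa : ∀ e, f e = Additive.ofMul (π (∏ i, z i ^ e i)) := fun e => rfl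
  have hf : Function.Injective f := by
    rw [injective_iff_map_eq_zero]
    intro e he
    exact hz e ((QuotientGroup.eq_one_iff _).1 he)
  have h0 : ∀ j, f (Pi.single j 1) = Additive.ofMul (π (z j)) := by
    intro j
    rw [hfa, Finset.prod_eq_single j]
    · rw [Pi.single_eq_same, zpow_one]
    · intro b _ hb
      rw [Pi.single_eq_of_ne hb, zpow_zero]
    · intro h
      exact absurd (Finset.mem_univ j) h
  obtain ⟨h, hh⟩ := Module.Baer.extension_property hB f hf
    (∑ i, (LinearMap.toSpanSingleton ℤ ℂ (c i)).comp (LinearMap.proj i))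
  refine ⟨h.toAddMonoidHom.comp (MonoidHom.toAdditive π), fun u hu => ?_, fun i => ?_⟩
  · change h (Additive.ofMul (π u)) = 0
    have h1 : π u = 1 := (QuotientGroup.eq_one_iff _).2 hu
    rw [h1, ofMul_one, map_zero]
  · have h1 := congrArg (fun F : (Fin r → ℤ) →ₗ[ℤ] ℂ => F (Pi.single i 1)) hh
    simp only [LinearMap.comp_apply, h0, LinearMap.sum_apply, LinearMap.toSpanSingleton_apply,
      LinearMap.proj_apply] at h1
    change h (Additive.ofMul (π (z i))) = _
    rw [h1, Finset.sum_eq_single i]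
    · rw [Pi.single_eq_same, one_smul]
    · intro b _ hb
      rw [Pi.single_eq_of_ne hb, zero_smul]
    · intro h
      exact absurd (Finset.mem_univ i) h

/-- The first components of the elements of a stable subspace `L₀` of `L`. -/
theorem mix0 {E : Type} [AddCommGroup E] [Module ℂ E] [FiniteDimensional ℂ E]
    {g g' e : End ℂ E} {L L₀ : Submodule ℂ (End ℂ E)} (hgg' : g * g' = 1) (hg'g : g' * g = 1)
    (hge : g * e = e * g) (hle : L₀ ≤ L) (hAd : ∀ X ∈ L₀, AdE g g' X ∈ L₀)
    (hQ : ∀ X ∈ L₀, ∀ c, X ∈ (AdE g g').maxGenEigenspace c → X * e ≠ 0 → X * e ≠ X →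
      ∃ m : ℕ, 0 < m ∧ c ^ m = 1)
    (hC : ∀ X ∈ L₀,
      (∀ (θ : Additive ℂˣ →+ ℂ) (t : End ℂ E), IsOp θ g t → t * (X * e) = X * e * t) →
      X * e ∈ L) : ∀ X ∈ L₀, X * e ∈ L := by
  have heg' : e * g' = g' * e := by
    calc e * g' = (g' * g) * (e * g') := by rw [hg'g, one_mul]
      _ = g' * (g * e) * g' := by simp only [mul_assoc]
      _ = g' * e * (g * g') := by rw [hge]; simp only [mul_assoc]
      _ = g' * e := by rw [hgg', mul_one]
  have step : ∀ X ∈ L₀, ∀ c : ℂ, X ∈ (AdE g g').maxGenEigenspace c → X * e ∈ L := by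
    intro X hX c hc
    by_cases h1 : X * e = 0
    · rw [h1]; exact L.zero_mem
    by_cases h2 : X * e = X
    · rw [h2]; exact hle hX
    obtain ⟨m, hm, hcm1⟩ := hQ X hX c hc h1 h2
    refine hC X hX fun θ t ht => ?_
    have h3 := ad ℂ E θ g g' t hgg' hg'g ht c (X * e) (by
      obtain ⟨n, hn⟩ := mem_gen.1 hc
      exact mem_gen.2 ⟨n, by rw [Pool.Agent.Y833.OP.mul_e heg', hn, zero_mul]⟩)
    have h4 : ext0 θ c = 0 := by
      have h5 := ext0_pow θ c hm
      rw [hcm1, ext0_one] at h5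
      exact (mul_eq_zero.1 h5.symm).resolve_left (Nat.cast_ne_zero.2 hm.ne')
    rw [h4, zero_smul, adE_apply, sub_eq_zero] at h3
    exact h3
  have hL : L₀ = ⨆ c, L₀ ⊓ (AdE g g').maxGenEigenspace c :=
    Submodule.eq_iSup_inf_genEigenspace ⊤ hAd (Module.End.iSup_maxGenEigenspace_eq_top _)
  intro X hX
  rw [hL] at hX
  induction hX using Submodule.iSup_induction' with
  | mem c X hX => exact step X hX.1 c hX.2
  | zero =>
    rw [zero_mul]
    exact L.zero_mem
  | add X X' _ _ h1 h2 =>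
    rw [add_mul]
    exact L.add_mem h1 h2

end Pool.Agent.Y114.OP
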