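import Mathlib
import Pool.Agent.Y114.OP.Zero1

/-!
# Products with an arbitrary representation: the central part, for one element
-/

set_option autoImplicit false
set_option linter.unusedSectionVars false
set_option linter.unusedVariables false

namespace Pool.Agent.Y114.OP

open NumberField IsDedekindDomain Module Polynomial TensorProduct Pool.Agent.TH118.SG
  Pool.Agent.Y114.MU Pool.Agent.Y114.TF Pool.Agent.Y114.GF Pool.Agent.H204R3.GP Pool.Agent.Y114.RM

theorem zpow_natAbs_eq_one {c : ℂ} {N : ℤ} (h : c ^ N = 1) : c ^ N.natAbs = 1 := by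
  rcases Int.natAbs_eq N with h5 | h5
  · rw [h5, zpow_natCast] at h
    exact h
  · rw [h5, zpow_neg, zpow_natCast, inv_eq_one] at h
    exact h

theorem norm_zpow_one {a : ℂ} (ha : ‖a‖ ≠ 1) (ha0 : a ≠ 0) {k : ℤ} (h : ‖a‖ ^ k = 1) : k = 0 := by
  exact (zpow_eq_one_iff_right₀ (norm_nonneg a) ha).1 h

theorem ext0_zpow (θ : Additive ℂˣ →+ ℂ) {a : ℂ} (ha : a ≠ 0) (N : ℤ) :
    ext0 θ (a ^ N) = N * ext0 θ a := by
  rw [ext0_ne θ ha, ext0_ne θ (zpow_ne_zero N ha)]
  have h1 : Units.mk0 (a ^ N) (zpow_ne_zero N ha) = Units.mk0 a ha ^ N := by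
    apply Units.ext
    rw [Units.val_zpow_eq_zpow_val]
    rfl
  rw [h1, ofMul_zpow, map_zsmul, zsmul_eq_mul]

section loc

variable {k : Type} [Field k] [CharZero k] [Algebra k ℂ] {V : Type} [AddCommGroup V] [Module k V]
  [FiniteDimensional k V] {W : Type} [AddCommGroup W] [Module k W] [FiniteDimensional k W]
  {Γ : Type} [Group Γ] (σ : Representation k Γ V) (τ : Representation k Γ W)

theorem inrC_rep (γ : Γ) (x : ℂ ⊗[k] W) :
    (prodRep σ τ γ).baseChange ℂ ((LinearMap.inr k V W).baseChange ℂ x) =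
      (LinearMap.inr k V W).baseChange ℂ ((τ γ).baseChange ℂ x) := by
  have h1 : (prodRep σ τ γ).baseChange ℂ ∘ₗ (LinearMap.inr k V W).baseChange ℂ =
      (LinearMap.inr k V W).baseChange ℂ ∘ₗ (τ γ).baseChange ℂ := by
    rw [← LinearMap.baseChange_comp, ← LinearMap.baseChange_comp]
    congr 1
    refine LinearMap.ext fun y => ?_
    change (σ γ 0, τ γ y) = ((0 : V), τ γ y)
    rw [map_zero]
  exact LinearMap.congr_fun h1 x

/-- The first components of the elements of `L₀`. -/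
theorem zero_mem' (h : Inputs) {L L₀ : Submodule k (End k (V × W))}
    (hL : ∀ X, X ∈ L ↔ X ∈ LT (prodRep σ τ)) (hle : L₀ ≤ L) (γ : Γ)
    (hAd₀ : ∀ X ∈ L₀, AdE (prodRep σ τ γ) (prodRep σ τ γ⁻¹) X ∈ L₀)
    (H : Subgroup ℂˣ) {r : ℕ} (z : Fin r → ℂ) (hz0 : ∀ i, z i ≠ 0)
    (hzi : ∀ e : Fin r → ℤ, (∃ u ∈ H, (u : ℂ) = ∏ i, z i ^ e i) → e = 0)
    (hW : ∀ b, End.HasEigenvalue ((τ γ).baseChange ℂ) b → ∃ u ∈ H, (u : ℂ) = b)
    {a₀ : ℂ} (ha0 : a₀ ≠ 0) (ha₀ : Units.mk0 a₀ ha0 ∈ H) (hnorm : ‖a₀‖ ≠ 1)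
    (hV : ∀ a, End.HasEigenvalue ((σ γ).baseChange ℂ) a → ∃ (N f : ℤ) (e : Fin r → ℤ), N ≠ 0 ∧
      a ^ N * (a₀ ^ f * ∏ i, z i ^ e i) = 1)
    (hkill : ∃ x : ℂ ⊗[k] V, x ≠ 0 ∧ (σ γ).baseChange ℂ x = a₀ • x ∧
      ∀ X ∈ bcS ℂ L₀, cmpC X x = 0)
    (hnrm : ∀ X ∈ bcS ℂ L, ∀ c, X ∈ (AdE ((prodRep σ τ γ).baseChange ℂ)
      ((prodRep σ τ γ⁻¹).baseChange ℂ)).maxGenEigenspace c → cmpC X ≠ 0 → ‖c‖ = 1)
    (hcen : ∀ x ∈ bcS ℂ (L.map (cmp k V W)), (∀ a ∈ tor ((σ γ).baseChange ℂ), a * x = x * a) →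
      x ∈ tor ((σ γ).baseChange ℂ)) :
    ∀ X ∈ L₀, X * prj k V W ∈ L := by
  have hcomm := bcS_prj (L := L) fun X hX => lt_prj ((hL X).1 hX)
  have hgg' : (prodRep σ τ γ).baseChange ℂ * (prodRep σ τ γ⁻¹).baseChange ℂ = 1 := by
    rw [← bc_mul, RM.rho_mul_inv, bc_one]
  have hg'g : (prodRep σ τ γ⁻¹).baseChange ℂ * (prodRep σ τ γ).baseChange ℂ = 1 := by
    rw [← bc_mul, RM.rho_inv_mul, bc_one]
  have hge : (prodRep σ τ γ).baseChange ℂ * (prj k V W).baseChange ℂ =
      (prj k V W).baseChange ℂ * (prodRep σ τ γ).baseChange ℂ := by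
    rw [← bc_mul, ← bc_mul]
    congr 1
    refine LinearMap.ext fun x => ?_
    rw [Module.End.mul_apply, Module.End.mul_apply, prj_apply, prodRep_apply, prj_apply,
      map_zero, prodRep_apply]
  have hprj : ∀ x : ℂ ⊗[k] (V × W), (prj k V W).baseChange ℂ x = inC k V W (prC k V W x) :=
    fun x => (inC_prC x).symm
  -- the `θ`-operators with the given first component
  have hop : ∀ X ∈ bcS ℂ L₀,
      (∀ (θ : Additive ℂˣ →+ ℂ) (t : End ℂ (ℂ ⊗[k] (V × W))),
        IsOp θ ((prodRep σ τ γ).baseChange ℂ) t →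
        t * (X * (prj k V W).baseChange ℂ) = X * (prj k V W).baseChange ℂ * t) →
      X * (prj k V W).baseChange ℂ ∈ bcS ℂ L := by
    intro X hX hXt
    have hXL : X ∈ bcS ℂ L := bcS_mono hle hX
    -- `X` is a `θ`-operator on `V`
    obtain ⟨θ, hθ⟩ : cmpC X ∈ tor ((σ γ).baseChange ℂ) := by
      refine hcen _ (cmpC_mem hXL) ?_
      rintro t' ⟨θ, ht'⟩
      obtain ⟨t, ht⟩ := exists_op ((prodRep σ τ γ).baseChange ℂ) (fun z => ext0 θ z)
      have h1 : inC k V W ∘ₗ t' = t ∘ₗ inC k V W := op_natural ht' ht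
        (LinearMap.ext fun x => (inC_rep σ τ γ x).symm)
      have h2 : prC k V W ∘ₗ t = t' ∘ₗ prC k V W := op_natural ht ht'
        (LinearMap.ext fun x => prC_rep σ τ γ x)
      have h3 := hXt θ t ht
      refine LinearMap.ext fun x => ?_
      have h4 := LinearMap.congr_fun h3 (inC k V W x)
      have h5 : (prj k V W).baseChange ℂ (inC k V W x) = inC k V W x := by
        rw [← inC_prC, prC_inC]
      rw [Module.End.mul_apply, Module.End.mul_apply, Module.End.mul_apply,
        Module.End.mul_apply, h5] at h4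
      have h6 : t (inC k V W x) = inC k V W (t' x) := (LinearMap.congr_fun h1 x).symm
      have h7 : (prj k V W).baseChange ℂ (t (inC k V W x)) = t (inC k V W x) := by
        rw [h6, ← inC_prC, prC_inC]
      rw [h7, h6] at h4
      have h8 := congrArg (prC k V W) h4
      rw [Module.End.mul_apply, Module.End.mul_apply]
      change t' (prC k V W (X (inC k V W x))) = prC k V W (X (inC k V W (t' x)))
      rw [← h8]
      exact (LinearMap.congr_fun h2 _).symm
    have hθ0 : ext0 θ a₀ = 0 := by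
      obtain ⟨x, hx0, hx1, hx2⟩ := hkill
      have h1 := hθ a₀ x (mem_gen.2 ⟨1, by
        rw [pow_one, LinearMap.sub_apply, Module.algebraMap_end_apply, hx1, sub_self]⟩)
      rw [hx2 X hX] at h1
      exact (smul_eq_zero.1 h1.symm).resolve_right hx0
    -- another function, zero on `H`
    obtain ⟨θ', hθ'H, hθ'z⟩ := exists_theta H (fun i => Units.mk0 (z i) (hz0 i)) (by
      intro e he
      refine hzi e ⟨_, he, ?_⟩
      rw [Units.coe_prod]
      refine Finset.prod_congr rfl fun i _ => ?_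
      rw [Units.val_zpow_eq_zpow_val]
      rfl) (fun i => ext0 θ (z i))
    have hθ'0 : ext0 θ' a₀ = 0 := by
      rw [ext0_ne θ' ha0]
      exact hθ'H _ ha₀
    have hθ'z' : ∀ i, ext0 θ' (z i) = ext0 θ (z i) := by
      intro i
      rw [ext0_ne θ' (hz0 i)]
      exact hθ'z i
    have hVne : ∀ a, End.HasEigenvalue ((σ γ).baseChange ℂ) a → a ≠ 0 := by
      rintro a ha rfl
      obtain ⟨x, hx⟩ := ha.exists_hasEigenvector
      refine hx.2 (rep_inj σ γ ?_)
      rw [End.mem_eigenspace_iff.1 hx.1, zero_smul, map_zero]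
    have hVθ : ∀ a, End.HasEigenvalue ((σ γ).baseChange ℂ) a → ext0 θ' a = ext0 θ a := by
      intro a ha
      obtain ⟨N, f, e, hN, hrel⟩ := hV a ha
      have ha0' := hVne a ha
      have hval : ∀ η : Additive ℂˣ →+ ℂ, (N : ℂ) * ext0 η a + ((f : ℂ) * ext0 η a₀ +
          ∑ i, (e i : ℂ) * ext0 η (z i)) = 0 := by
        intro η
        have h1 := congrArg (ext0 η) hrel
        rw [ext0_one, ext0_mul η (zpow_ne_zero _ ha0') (mul_ne_zero (zpow_ne_zero _ ha0)
          (Finset.prod_ne_zero_iff.2 fun i _ => zpow_ne_zero _ (hz0 i))),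
          ext0_mul η (zpow_ne_zero _ ha0)
          (Finset.prod_ne_zero_iff.2 fun i _ => zpow_ne_zero _ (hz0 i)),
          ext0_prod η _ _ (fun i _ => zpow_ne_zero _ (hz0 i)), ext0_zpow η ha0',
          ext0_zpow η ha0] at h1
        rw [← h1]
        congr 2
        exact Finset.sum_congr rfl fun i _ => (ext0_zpow η (hz0 i) (e i)).symm
      have h1 := hval θ
      have h2 := hval θ'
      rw [hθ'0] at h2
      rw [hθ0] at h1
      simp only [hθ'z'] at h2
      have h3 : (N : ℂ) * ext0 θ' a = (N : ℂ) * ext0 θ a := by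
        rw [eq_neg_of_add_eq_zero_left h1, eq_neg_of_add_eq_zero_left h2]
      exact mul_left_cancel₀ (Int.cast_ne_zero.2 hN) h3
    have hWθ : ∀ b, End.HasEigenvalue ((τ γ).baseChange ℂ) b → ext0 θ' b = 0 := by
      intro b hb
      obtain ⟨u, hu, rfl⟩ := hW b hb
      rw [ext0_ne θ' u.ne_zero, Units.mk0_val]
      exact hθ'H u hu
    have hopV : IsOp θ' ((σ γ).baseChange ℂ) (cmpC X) := by
      intro β x hx
      by_cases hx0 : x = 0
      · rw [hx0, map_zero, smul_zero]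
      · rw [hVθ β ?_]
        · exact hθ β x hx
        · obtain ⟨n, hn⟩ := mem_gen.1 hx
          obtain ⟨y, hy0, -, hy⟩ := Pool.Agent.Y833.OP.eig (g := (σ γ).baseChange ℂ) (W := ⊤)
            (fun _ _ => trivial) n x trivial hx0 hn
          exact End.hasEigenvalue_of_hasEigenvector (x := y) ⟨End.mem_eigenspace_iff.2 hy, hy0⟩
    have hopW : IsOp θ' ((τ γ).baseChange ℂ) 0 := by
      intro β x hx
      by_cases hx0 : x = 0
      · rw [hx0, map_zero, smul_zero]
      · rw [hWθ β ?_, zero_smul, LinearMap.zero_apply]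
        obtain ⟨n, hn⟩ := mem_gen.1 hx
        obtain ⟨y, hy0, -, hy⟩ := Pool.Agent.Y833.OP.eig (g := (τ γ).baseChange ℂ) (W := ⊤)
          (fun _ _ => trivial) n x trivial hx0 hn
        exact End.hasEigenvalue_of_hasEigenvector (x := y) ⟨End.mem_eigenspace_iff.2 hy, hy0⟩
    obtain ⟨t, ht⟩ := exists_op ((prodRep σ τ γ).baseChange ℂ) (fun z => ext0 θ' z)
    have h1 : inC k V W ∘ₗ cmpC X = t ∘ₗ inC k V W := op_natural hopV ht
      (LinearMap.ext fun x => (inC_rep σ τ γ x).symm)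
    have h2 : (LinearMap.inr k V W).baseChange ℂ ∘ₗ (0 : End ℂ (ℂ ⊗[k] W)) =
        t ∘ₗ (LinearMap.inr k V W).baseChange ℂ := op_natural hopW ht
      (LinearMap.ext fun x => (inrC_rep σ τ γ x).symm)
    have h3 : X * (prj k V W).baseChange ℂ = t := by
      refine LinearMap.ext fun x => ?_
      conv_rhs => rw [decC x, map_add, hprj]
      have h4 := LinearMap.congr_fun h1 (prC k V W x)
      have h5 := LinearMap.congr_fun h2 ((LinearMap.snd k V W).baseChange ℂ x)
      rw [LinearMap.comp_apply, LinearMap.comp_apply] at h4 h5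
      rw [← h4, ← h5, LinearMap.zero_apply, map_zero, add_zero, cmpC_prj (hcomm X hXL)]
      rfl
    rw [h3]
    exact op_mem (prodRep σ τ) h hL γ θ' t ht
  have key := mix0 (L := bcS ℂ L) (L₀ := bcS ℂ L₀) hgg' hg'g hge (bcS_mono hle)
    (AdE_bcS (C := ℂ) hAd₀) (by
      intro X hX c hc hXe hXe'
      have hXL : X ∈ bcS ℂ L := bcS_mono hle hX
      have hc1 : ‖c‖ = 1 := by
        refine hnrm X hXL c hc fun h0 => hXe ?_
        rw [cmpC_prj (hcomm X hXL), h0, LinearMap.zero_comp, LinearMap.comp_zero]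
      have W1 : ∀ x, x ∈ LinearMap.ker ((prj k V W).baseChange ℂ - 1) ↔
          (prj k V W).baseChange ℂ x = x := by
        intro x
        rw [LinearMap.mem_ker, LinearMap.sub_apply, Module.End.one_apply, sub_eq_zero]
      have ege : ∀ x, (prj k V W).baseChange ℂ ((prodRep σ τ γ).baseChange ℂ x) =
          (prodRep σ τ γ).baseChange ℂ ((prj k V W).baseChange ℂ x) := by
        intro x
        rw [← Module.End.mul_apply, ← hge, Module.End.mul_apply]
      have eee : ∀ x, (prj k V W).baseChange ℂ ((prj k V W).baseChange ℂ x) =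
          (prj k V W).baseChange ℂ x := by
        intro x
        rw [← Module.End.mul_apply, ← bc_mul, prj_idem]
      have eX : ∀ x, (prj k V W).baseChange ℂ (X x) = X ((prj k V W).baseChange ℂ x) := by
        intro x
        rw [← Module.End.mul_apply, ← hcomm X hXL, Module.End.mul_apply]
      have k1 : ∃ x ∈ LinearMap.ker ((prj k V W).baseChange ℂ - 1), X x ≠ 0 := by
        by_contra hcon
        push Not at hcon
        exact hXe (LinearMap.ext fun x => hcon ((prj k V W).baseChange ℂ x) ((W1 _).2 (eee x)))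
      have k2 : ∃ x ∈ LinearMap.ker ((prj k V W).baseChange ℂ), X x ≠ 0 := by
        by_contra hcon
        push Not at hcon
        refine hXe' (LinearMap.ext fun x => ?_)
        have h3 := hcon (x - (prj k V W).baseChange ℂ x) (by
          rw [LinearMap.mem_ker, map_sub, eee, sub_self])
        rw [map_sub, sub_eq_zero] at h3
        exact h3.symm
      obtain ⟨a, ⟨x1, n1, m1, g1⟩, ⟨x2, n2, m2, g2⟩⟩ := Pool.Agent.Y833.OP.part hg'g
        (fun x hx => (W1 _).2 (by rw [ege, (W1 x).1 hx]))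
        (fun x hx => (W1 _).2 (by rw [eX, (W1 x).1 hx])) hc k1
      obtain ⟨b, ⟨x3, n3, m3, g3⟩, ⟨x4, n4, m4, g4⟩⟩ := Pool.Agent.Y833.OP.part hg'g
        (fun x hx => LinearMap.mem_ker.2 (by rw [ege, LinearMap.mem_ker.1 hx, map_zero]))
        (fun x hx => LinearMap.mem_ker.2 (by rw [eX, LinearMap.mem_ker.1 hx, map_zero])) hc k2
      have heig1 : ∀ a : ℂ, ∀ x : ℂ ⊗[k] (V × W), x ≠ 0 → (prj k V W).baseChange ℂ x = x →
          (prodRep σ τ γ).baseChange ℂ x = a • x → End.HasEigenvalue ((σ γ).baseChange ℂ) a := by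
        intro a x hx hx1 hx2
        refine End.hasEigenvalue_of_hasEigenvector (x := prC k V W x) ⟨?_, fun h0 => hx ?_⟩
        · rw [End.mem_eigenspace_iff, ← prC_rep σ τ, hx2, map_smul]
        · rw [← hx1, ← inC_prC, h0, map_zero]
      have heig2 : ∀ a : ℂ, ∀ x : ℂ ⊗[k] (V × W), x ≠ 0 → (prj k V W).baseChange ℂ x = 0 →
          (prodRep σ τ γ).baseChange ℂ x = a • x → End.HasEigenvalue ((τ γ).baseChange ℂ) a := by
        intro a x hx hx1 hx2
        refine End.hasEigenvalue_of_hasEigenvector (x := (LinearMap.snd k V W).baseChange ℂ x)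
          ⟨?_, fun h0 => hx ?_⟩
        · rw [End.mem_eigenspace_iff, ← sndC_rep σ τ, hx2, map_smul]
        · rw [decC x, hx1, h0, map_zero, add_zero]
      obtain ⟨N, f, e, hN, hrel⟩ := hV a (heig1 a x1 n1 ((W1 _).1 m1) g1)
      obtain ⟨N', f', e', hN', hrel'⟩ := hV (c * a) (heig1 _ x2 n2 ((W1 _).1 m2) g2)
      obtain ⟨u, hu, hub⟩ := hW b (heig2 b x3 n3 (LinearMap.mem_ker.1 m3) g3)
      obtain ⟨u', hu', hub'⟩ := hW (c * b) (heig2 _ x4 n4 (LinearMap.mem_ker.1 m4) g4)
      have hb0 : b ≠ 0 := by rw [← hub]; exact u.ne_zero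
      have hc0 : c ≠ 0 := by
        rintro rfl
        rw [norm_zero] at hc1
        exact zero_ne_one hc1
      have ha0' : a ≠ 0 := by
        rintro rfl
        rw [zero_zpow _ hN, zero_mul] at hrel
        exact zero_ne_one hrel
      have hcu : ((u' / u : ℂˣ) : ℂ) = c := by
        rw [Units.val_div_eq_div_val, hub, hub', mul_div_cancel_right₀ _ hb0]
      have hcrel : c ^ (N * N') = a₀ ^ (f * N' - f' * N) * ∏ i, z i ^ (e i * N' - e' i * N) := by
        have h5 : a ^ N = (a₀ ^ f * ∏ i, z i ^ e i)⁻¹ := eq_inv_of_mul_eq_one_left hrel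
        have h6 : (c * a) ^ N' = (a₀ ^ f' * ∏ i, z i ^ e' i)⁻¹ := eq_inv_of_mul_eq_one_left hrel'
        have h7 : c ^ (N * N') = ((c * a) ^ N') ^ N / (a ^ N) ^ N' := by
          rw [← zpow_mul, ← zpow_mul, mul_comm N' N, mul_zpow, mul_div_assoc,
            div_self (zpow_ne_zero _ ha0'), mul_one]
        rw [h7, h5, h6]
        simp only [zpow_sub₀ (hz0 _), zpow_sub₀ ha0, Finset.prod_div_distrib, zpow_mul,
          Finset.prod_zpow, inv_zpow, mul_zpow]
        rw [inv_div_inv]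
        rw [mul_div_mul_comm]
      have he : (fun i => e i * N' - e' i * N) = 0 := by
        refine hzi _ ⟨(u' / u) ^ (N * N') * (Units.mk0 a₀ ha0) ^ (-(f * N' - f' * N)),
          Subgroup.mul_mem _ (Subgroup.zpow_mem _ (Subgroup.div_mem _ hu' hu) _)
            (Subgroup.zpow_mem _ ha₀ _), ?_⟩
        rw [Units.val_mul, Units.val_zpow_eq_zpow_val, Units.val_zpow_eq_zpow_val, hcu,
          Units.val_mk0, hcrel, zpow_neg, mul_comm (a₀ ^ (f * N' - f' * N)), mul_assoc,
          mul_inv_cancel₀ (zpow_ne_zero _ ha0), mul_one]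
      have hprod : ∏ i, z i ^ (e i * N' - e' i * N) = 1 := by
        refine Finset.prod_eq_one fun i _ => ?_
        have h4 := congrFun he i
        simp only [Pi.zero_apply] at h4
        rw [h4, zpow_zero]
      rw [hprod, mul_one] at hcrel
      have hk : f * N' - f' * N = 0 := by
        refine norm_zpow_one hnorm ha0 ?_
        rw [← norm_zpow, ← hcrel, norm_zpow, hc1, one_zpow]
      rw [hk, zpow_zero] at hcrel
      exact ⟨(N * N').natAbs, Int.natAbs_pos.2 (mul_ne_zero hN hN'), zpow_natAbs_eq_one hcrel⟩)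
    hop
  intro X hX
  have h1 := key _ (mem_bcS hX)
  rw [← bc_mul] at h1
  obtain ⟨π, hπ⟩ := exists_pi k ℂ
  have h3 := ((h.bc k ℂ _ L).1 _).1 h1 π
  rwa [pM_bc π hπ] at h3

end loc

end Pool.Agent.Y114.OP
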