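import Mathlib
import Pool.Agent.Y114.OP.Zero2

/-!
# Products with an arbitrary representation: absolute values
-/

set_option autoImplicit false
set_option linter.unusedSectionVars false
set_option linter.unusedVariables false

namespace Pool.Agent.Y114.OP

open NumberField IsDedekindDomain Module Polynomial TensorProduct Pool.Agent.TH118.SG
  Pool.Agent.Y114.MU Pool.Agent.Y114.TF Pool.Agent.Y114.GF Pool.Agent.H204R3.GP Pool.Agent.Y114.RM

section parts

variable {k : Type} [Field k] [CharZero k] [Algebra k ℂ] {ι : Type} [Fintype ι] [DecidableEq ι]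
  {V : ι → Type} [∀ i, AddCommGroup (V i)] [∀ i, Module k (V i)] [∀ i, FiniteDimensional k (V i)]
  {W : Type} [AddCommGroup W] [Module k W] [FiniteDimensional k W]
  {Γ : Type} [Group Γ] (ρ : ∀ i, Representation k Γ (V i)) (τ : Representation k Γ W)

variable (k V W) in
/-- The inclusion of a part. -/
noncomputable def jn (i : ι) : V i →ₗ[k] (∀ i, V i) × W :=
  LinearMap.inl k (∀ i, V i) W ∘ₗ LinearMap.single k V i

variable (k V W) in
/-- The projection to a part. -/
noncomputable def pn (i : ι) : (∀ i, V i) × W →ₗ[k] V i :=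
  LinearMap.proj i ∘ₗ LinearMap.fst k (∀ i, V i) W

theorem pn_jn (i : ι) : pn k V W i ∘ₗ jn k V W i = LinearMap.id := by
  refine LinearMap.ext fun x => ?_
  change (Pi.single i x : ∀ i, V i) i = x
  rw [Pi.single_eq_same]

theorem jn_apply (i : ι) (x : V i) : jn k V W i x = (Pi.single i x, 0) := rfl

theorem pnC_jnC (i : ι) (y : ℂ ⊗[k] V i) :
    (pn k V W i).baseChange ℂ ((jn k V W i).baseChange ℂ y) = y := by
  have h1 : (pn k V W i).baseChange ℂ ∘ₗ (jn k V W i).baseChange ℂ = LinearMap.id := by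
    rw [← LinearMap.baseChange_comp, pn_jn, LinearMap.baseChange_id]
  exact LinearMap.congr_fun h1 y

theorem jnC_rep (γ : Γ) (i : ι) (y : ℂ ⊗[k] V i) :
    (prodRep (sumRep ρ) τ γ).baseChange ℂ ((jn k V W i).baseChange ℂ y) =
      (jn k V W i).baseChange ℂ ((ρ i γ).baseChange ℂ y) := by
  have h1 : (prodRep (sumRep ρ) τ γ).baseChange ℂ ∘ₗ (jn k V W i).baseChange ℂ =
      (jn k V W i).baseChange ℂ ∘ₗ (ρ i γ).baseChange ℂ := by
    rw [← LinearMap.baseChange_comp, ← LinearMap.baseChange_comp]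
    congr 1
    refine LinearMap.ext fun y => ?_
    rw [LinearMap.comp_apply, LinearMap.comp_apply, jn_apply, jn_apply, prodRep_apply, map_zero,
      sumRep_single]
  exact LinearMap.congr_fun h1 y

/-- Elements of the Lie algebra respect the parts. -/
theorem jn_stable {L : Submodule k (End k ((∀ i, V i) × W))}
    (hL : ∀ X, X ∈ L ↔ X ∈ LT (prodRep (sumRep ρ) τ)) {Y : End k ((∀ i, V i) × W)} (hY : Y ∈ L)
    (i : ι) : Y ∘ₗ jn k V W i = jn k V W i ∘ₗ (pn k V W i ∘ₗ Y ∘ₗ jn k V W i) := by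
  refine LinearMap.ext fun x => ?_
  obtain ⟨y, hy⟩ := ((hL Y).1 hY).1 (LinearMap.range (jn k V W i)) ⟨⊤, inferInstance,
    fun γ _ x hx => by
      obtain ⟨y, rfl⟩ := hx
      refine ⟨ρ i γ y, ?_⟩
      rw [jn_apply, jn_apply, prodRep_apply, map_zero, sumRep_single]⟩
    (jn k V W i x) ⟨x, rfl⟩
  rw [LinearMap.comp_apply, LinearMap.comp_apply, LinearMap.comp_apply, LinearMap.comp_apply, ← hy]
  congr 1
  exact (LinearMap.congr_fun (pn_jn (k := k) (V := V) (W := W) i) y).symm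

theorem jnC_stable {L : Submodule k (End k ((∀ i, V i) × W))}
    (hL : ∀ X, X ∈ L ↔ X ∈ LT (prodRep (sumRep ρ) τ)) {X : End ℂ (ℂ ⊗[k] ((∀ i, V i) × W))}
    (hX : X ∈ bcS ℂ L) (i : ι) :
    ∀ x ∈ LinearMap.range ((jn k V W i).baseChange ℂ),
      X x ∈ LinearMap.range ((jn k V W i).baseChange ℂ) := by
  induction hX using Submodule.span_induction with
  | mem X hX =>
    obtain ⟨Y, hY, rfl⟩ := hX
    rintro _ ⟨y, rfl⟩
    refine ⟨(pn k V W i ∘ₗ Y ∘ₗ jn k V W i).baseChange ℂ y, ?_⟩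
    have h1 := congrArg (LinearMap.baseChange ℂ) (jn_stable ρ τ hL hY i)
    rw [LinearMap.baseChange_comp, LinearMap.baseChange_comp _ (jn k V W i)] at h1
    exact (LinearMap.congr_fun h1 y).symm
  | zero => intro x hx; rw [LinearMap.zero_apply]; exact Submodule.zero_mem _
  | add X Y _ _ hX hY => intro x hx; exact Submodule.add_mem _ (hX x hx) (hY x hx)
  | smul c X _ hX => intro x hx; exact Submodule.smul_mem _ c (hX x hx)

theorem exists_block {X : End ℂ (ℂ ⊗[k] ((∀ i, V i) × W))} (hX : cmpC X ≠ 0) :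
    ∃ i, ∃ x ∈ LinearMap.range ((jn k V W i).baseChange ℂ), X x ≠ 0 := by
  by_contra hno
  push Not at hno
  apply hX
  refine LinearMap.ext fun y => ?_
  change prC k (∀ i, V i) W (X (inC k (∀ i, V i) W y)) = 0
  have h1 : X (inC k (∀ i, V i) W y) = 0 := by
    induction y with
    | zero => rw [map_zero, map_zero]
    | add x y hx hy => rw [map_add, map_add, hx, hy, add_zero]
    | tmul c v =>
      have h2 : inC k (∀ i, V i) W (c ⊗ₜ[k] v) =
          ∑ i, (jn k V W i).baseChange ℂ (c ⊗ₜ[k] v i) := by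
        simp only [LinearMap.baseChange_tmul, jn_apply]
        rw [inC, LinearMap.baseChange_tmul, ← TensorProduct.tmul_sum]
        congr 1
        refine Prod.ext ?_ ?_
        · rw [Prod.fst_sum]
          exact (Finset.univ_sum_single v).symm
        · rw [Prod.snd_sum]
          exact (Finset.sum_const_zero).symm
      rw [h2, map_sum]
      exact Finset.sum_eq_zero fun i _ => hno i _ ⟨_, rfl⟩
  rw [h1, map_zero]

theorem norm_part {L : Submodule k (End k ((∀ i, V i) × W))}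
    (hL : ∀ X, X ∈ L ↔ X ∈ LT (prodRep (sumRep ρ) τ)) (γ : Γ)
    (hpure : ∀ i, ∀ a b : ℂ, End.HasEigenvalue ((ρ i γ).baseChange ℂ) a →
      End.HasEigenvalue ((ρ i γ).baseChange ℂ) b → ‖a‖ = ‖b‖) :
    ∀ X ∈ bcS ℂ L, ∀ c, X ∈ (AdE ((prodRep (sumRep ρ) τ γ).baseChange ℂ)
      ((prodRep (sumRep ρ) τ γ⁻¹).baseChange ℂ)).maxGenEigenspace c → cmpC X ≠ 0 → ‖c‖ = 1 := by
  intro X hX c hc hX0
  have hg'g : (prodRep (sumRep ρ) τ γ⁻¹).baseChange ℂ * (prodRep (sumRep ρ) τ γ).baseChange ℂ =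
      1 := by
    rw [← bc_mul, RM.rho_inv_mul, bc_one]
  obtain ⟨i, hi⟩ := exists_block hX0
  obtain ⟨a, ⟨x1, n1, ⟨y1, rfl⟩, g1⟩, ⟨x2, n2, ⟨y2, rfl⟩, g2⟩⟩ := Pool.Agent.Y833.OP.part hg'g
    (fun x hx => by
      obtain ⟨y, rfl⟩ := hx
      exact ⟨_, (jnC_rep ρ τ γ i y).symm⟩)
    (jnC_stable ρ τ hL hX i) hc hi
  have heig : ∀ (a : ℂ) (y : ℂ ⊗[k] V i), (jn k V W i).baseChange ℂ y ≠ 0 →
      (prodRep (sumRep ρ) τ γ).baseChange ℂ ((jn k V W i).baseChange ℂ y) =
        a • (jn k V W i).baseChange ℂ y → End.HasEigenvalue ((ρ i γ).baseChange ℂ) a := by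
    intro a y hy0 hy
    refine End.hasEigenvalue_of_hasEigenvector (x := y) ⟨?_, fun h0 => hy0 ?_⟩
    · rw [jnC_rep] at hy
      have h1 := congrArg ((pn k V W i).baseChange ℂ) hy
      rw [pnC_jnC, map_smul, pnC_jnC] at h1
      rw [End.mem_eigenspace_iff, h1]
    · rw [h0, map_zero]
  have e1 := heig a y1 n1 g1
  have e2 := heig (c * a) y2 n2 g2
  have ha0 : a ≠ 0 := by
    rintro rfl
    obtain ⟨x, hx⟩ := e1.exists_hasEigenvector
    refine hx.2 (rep_inj (ρ i) γ ?_)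
    rw [End.mem_eigenspace_iff.1 hx.1, zero_smul, map_zero]
  have h1 := hpure i _ _ e2 e1
  rw [norm_mul] at h1
  exact mul_right_cancel₀ (norm_ne_zero_iff.2 ha0) (by rw [h1, one_mul])

end parts

end Pool.Agent.Y114.OP
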