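import Mathlib
import Pool.Agent.Y114.OP.Zero3

/-!
# Products with an arbitrary representation: the central part, for one place
-/

set_option autoImplicit false
set_option linter.unusedSectionVars false
set_option linter.unusedVariables false

namespace Pool.Agent.Y114.OP

open NumberField IsDedekindDomain Module Polynomial TensorProduct Pool.Agent.TH118.SG
  Pool.Agent.Y114.MU Pool.Agent.Y114.TF Pool.Agent.Y114.GF Pool.Agent.H204R3.GP Pool.Agent.Y114.RM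
open Pool.Agent.W569.FM Pool.Agent.W571.FM

/-- The group generated by the roots of the polynomials `R j`. -/
noncomputable def rootGroup {κ : Type} (R : κ → ℚ[X]) : Subgroup ℂˣ :=
  Subgroup.closure {u | ∃ j, (u : ℂ) ∈ (R j).aroots ℂ}

/-- There are `r` roots of the polynomials `P i` which are multiplicatively independent modulo the
group generated by the roots of the polynomials `R j`. -/
def IndepOver {ι κ : Type} (r : ℕ) (P : ι → ℚ[X]) (R : κ → ℚ[X]) : Prop :=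
  ∃ z : Fin r → ℂ, (∀ j, ∃ i, aeval (z j) (P i) = 0) ∧
    ∀ e : Fin r → ℤ, (∃ u ∈ rootGroup R, (u : ℂ) = ∏ j, z j ^ e j) → e = 0

section main

variable {F : Type} [Field F] [NumberField F] {ι : Type} [Fintype ι] [DecidableEq ι] {n : ι → ℕ}
  {w : ι → ℤ} {ℓ : ℕ} [hℓ : Fact ℓ.Prime] {Γ : Type} [Group Γ] [TopologicalSpace Γ]
  [IsTopologicalGroup Γ] [CompactSpace Γ]

/-- The elements of `𝔥` which are zero on the part `i₀` kill the maps from `V ⊕ V^*` to `W` which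
are equivariant under a subgroup of finite index. -/
def ZeroPartKills {k : Type} [Field k] {ι : Type} [DecidableEq ι] {V : ι → Type}
    [∀ i, AddCommGroup (V i)] [∀ i, Module k (V i)] {W : Type} [AddCommGroup W] [Module k W]
    {Γ : Type} [Group Γ] (i₀ : ι) (σ : Representation k Γ (∀ i, V i)) (τ : Representation k Γ W)
    (𝔥 : Submodule k (End k (∀ i, V i))) : Prop :=
  ∀ X ∈ 𝔥, (∀ x : V i₀, X (Pi.single i₀ x) = 0) →
    ∀ (m : ℕ) (Φ : MultilinearMap k (fun _ : Fin m => (∀ i, V i) × Dual k (∀ i, V i)) W),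
      TateMap σ τ Φ → KillsMap X Φ

/-- The subspace of the elements which are zero on the part `i₀`. -/
def zeroPart {k : Type} [Field k] {ι : Type} [DecidableEq ι] {V : ι → Type}
    [∀ i, AddCommGroup (V i)] [∀ i, Module k (V i)] {W : Type} [AddCommGroup W] [Module k W]
    (i₀ : ι) (L : Submodule k (End k ((∀ i, V i) × W))) : Submodule k (End k ((∀ i, V i) × W)) where
  carrier := {X | X ∈ L ∧ ∀ x : V i₀, cmp k (∀ i, V i) W X (Pi.single i₀ x) = 0}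
  add_mem' := by
    rintro a b ⟨ha, ha'⟩ ⟨hb, hb'⟩
    exact ⟨L.add_mem ha hb, fun x => by rw [map_add, LinearMap.add_apply, ha', hb', add_zero]⟩
  zero_mem' := ⟨L.zero_mem, fun x => by rw [map_zero, LinearMap.zero_apply]⟩
  smul_mem' := by
    rintro c a ⟨ha, ha'⟩
    exact ⟨L.smul_mem c ha, fun x => by rw [map_smul, LinearMap.smul_apply, ha', smul_zero]⟩

theorem hasEig_root {ℓ : ℕ} [Fact ℓ.Prime] [Algebra ℚ_[ℓ] ℂ] {d : ℕ}
    (f : Representation ℚ_[ℓ] Γ (Fin d → ℚ_[ℓ])) (γ : Γ) {Q : ℚ[X]}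
    (hQ : (f γ).charpoly = Q.map (algebraMap ℚ ℚ_[ℓ])) {c : ℂ}
    (hc : End.HasEigenvalue ((f γ).baseChange ℂ) c) : c ≠ 0 ∧ c ∈ Q.aroots ℂ := by
  refine ⟨?_, ?_⟩
  · rintro rfl
    obtain ⟨x, hx⟩ := hc.exists_hasEigenvector
    refine hx.2 (rep_inj f γ ?_)
    rw [End.mem_eigenspace_iff.1 hx.1, zero_smul, map_zero]
  · rw [Module.End.hasEigenvalue_iff_isRoot_charpoly, LinearMap.charpoly_baseChange, hQ,
      Polynomial.map_map, IsRoot.def, eval_map] at hc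
    rw [mem_aroots]
    refine ⟨?_, ?_⟩
    · intro h0
      have h1 := (LinearMap.charpoly_monic (f γ)).ne_zero
      rw [hQ, h0, Polynomial.map_zero] at h1
      exact h1 rfl
    · rw [aeval_def, ← hc]
      congr 1
      exact Subsingleton.elim _ _

theorem zero_local (h : Inputs) (h2 : Inputs2) (hrank : S_RANK.{0, 0}) (hlat : S_LAT)
    (ρ : ∀ i, Representation ℚ_[ℓ] Γ (Fin (n i) → ℚ_[ℓ])) (s : GF F →* Γ) (hs : Continuous s)
    (hρ : ∀ i, Continuous fun g => LinearMap.toMatrix' (ρ i g))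
    (𝔤 : Submodule ℚ_[ℓ] (End ℚ_[ℓ] (∀ i, Fin (n i) → ℚ_[ℓ]))) (h𝔤 : IsMotivic ρ 𝔤)
    (P : HeightOneSpectrum (𝓞 F) → ι → ℚ[X])
    (T : Set ℕ) (hT3 : 3 ≤ T.encard) (hT : ∀ p ∈ T, p.Prime ∧ p ≠ ℓ ∧ UnramifiedIn F p)
    (hgood : ∀ p ∈ T, ∀ v, Above v p → GoodPlace (fun i => (ρ i).comp s) w v (P v))
    {p₀ : ℕ} (hp₀ : p₀ ∈ T) (hind₀ : IndependentPlaces P p₀) {v₀ : HeightOneSpectrum (𝓞 F)}
    (hv₀ : Above v₀ p₀) (hq : 1 < q v₀) (i₀ : ι) (hn₀ : n i₀ = 1) (hw₀ : w i₀ ≠ 0) (r : ℕ) {κ : Type}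
    {m : κ → ℕ}
    (τ : ∀ j, Representation ℚ_[ℓ] Γ (Fin (m j) → ℚ_[ℓ])) (R : κ → ℚ[X])
    (σ₀ : GF F) (hσ₀ : ∃ Q, PrimeOver Q v₀ ∧ IsFrobAt Q (q v₀) σ₀)
    (hR : ∀ j, (τ j (s σ₀⁻¹)).charpoly = (R j).map (algebraMap ℚ ℚ_[ℓ]))
    (hr : IndepOver r (P v₀) (Sum.elim R fun _ : Unit => P v₀ i₀)) (hrk : RankAtMost 𝔤 (r + 1)) :
    ∃ (L : Submodule ℚ_[ℓ] (End ℚ_[ℓ] (∀ i, Fin (n i) → ℚ_[ℓ]))) (_ : Algebra ℚ_[ℓ] ℂ),
      Semi ρ 𝔤 L (r + 1) (s σ₀⁻¹) ∧ ∀ j, ZeroPartKills i₀ (sumRep ρ) (τ j) L := by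
  obtain ⟨z, hz, hzi⟩ := hr
  have hG₀ := hgood p₀ hp₀ v₀ hv₀
  have hfrob : ∀ i, (ρ i (s σ₀⁻¹)).charpoly = (P v₀ i).map (algebraMap ℚ ℚ_[ℓ]) := by
    intro i
    obtain ⟨Q, hQ, hQσ⟩ := hσ₀
    exact hG₀.frobenius i Q hQ σ₀ hQσ
  -- the scalar on the part `i₀`
  have hfin : finrank ℚ_[ℓ] (Fin (n i₀) → ℚ_[ℓ]) = 1 := by rw [finrank_fin_fun, hn₀]
  obtain ⟨y₀, hy₀, hy₀'⟩ := finrank_eq_one_iff'.1 hfin
  obtain ⟨c₀, hc₀⟩ := hy₀' (ρ i₀ (s σ₀⁻¹) y₀)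
  have hroot₀ : aeval c₀ (P v₀ i₀) = 0 := by
    have h1 : End.HasEigenvalue (ρ i₀ (s σ₀⁻¹)) c₀ :=
      End.hasEigenvalue_of_hasEigenvector (x := y₀) ⟨End.mem_eigenspace_iff.2 hc₀.symm, hy₀⟩
    rw [Module.End.hasEigenvalue_iff_isRoot_charpoly, hfrob, IsRoot.def, eval_map, ← aeval_def] at h1
    exact h1
  -- the independence
  obtain ⟨a₁, ha₁⟩ : ∃ a₁ : ℂ, a₁ ∈ (P v₀ i₀).aroots ℂ ∧
      ∀ alg : Algebra ℚ_[ℓ] ℂ, a₁ = algebraMap ℚ_[ℓ] ℂ c₀ := by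
    have hdeg : (P v₀ i₀).natDegree = 1 := by
      have h1 := LinearMap.charpoly_natDegree (ρ i₀ (s σ₀⁻¹))
      rwa [hfrob, natDegree_map, hfin] at h1
    have hP0 : P v₀ i₀ ≠ 0 := by
      intro h0
      rw [h0, natDegree_zero] at hdeg
      exact zero_ne_one hdeg
    have hP1 : (P v₀ i₀).coeff 1 ≠ 0 := by
      rw [← hdeg]
      exact leadingCoeff_ne_zero.2 hP0
    have hPe : P v₀ i₀ = C ((P v₀ i₀).coeff 1) * X + C ((P v₀ i₀).coeff 0) :=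
      eq_X_add_C_of_natDegree_le_one hdeg.le
    set c := (P v₀ i₀).coeff 1 with hc
    set d := (P v₀ i₀).coeff 0 with hd
    have hx : c₀ = algebraMap ℚ ℚ_[ℓ] (-d / c) := by
      rw [hPe, map_add, map_mul, aeval_C, aeval_X, aeval_C] at hroot₀
      have hc' : algebraMap ℚ ℚ_[ℓ] c ≠ 0 := (_root_.map_ne_zero _).2 hP1
      rw [map_div₀, map_neg, eq_div_iff hc', mul_comm]
      exact eq_neg_of_add_eq_zero_left hroot₀
    refine ⟨algebraMap ℚ ℂ (-d / c), ?_, fun alg => ?_⟩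
    · rw [mem_aroots]
      refine ⟨hP0, ?_⟩
      rw [aeval_algebraMap_apply, hPe]
      rw [map_add, map_mul, aeval_C, aeval_X, aeval_C]
      change algebraMap ℚ ℂ (c * (-d / c) + d) = 0
      rw [mul_div_cancel₀ _ hP1, neg_add_cancel, map_zero]
    · rw [hx]
      have h1 : (algebraMap ℚ_[ℓ] ℂ).comp (algebraMap ℚ ℚ_[ℓ]) = algebraMap ℚ ℂ :=
        Subsingleton.elim _ _
      exact (RingHom.congr_fun h1 _).symm
  have ha₁n : ‖a₁‖ ≠ 1 := by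
    intro h1
    have h3 := hG₀.pure i₀ a₁ ha₁.1
    rw [h1, one_pow] at h3
    have h4 : (1 : ℝ) < (q v₀ : ℝ) := by exact_mod_cast hq
    exact hw₀ ((zpow_eq_one_iff_right₀ (by linarith) h4.ne').1 h3.symm)
  have ha₁0 : a₁ ≠ 0 := by
    rintro rfl
    have h3 := hG₀.pure i₀ 0 ha₁.1
    have h4 : (0 : ℝ) < (q v₀ : ℝ) := by exact_mod_cast (by omega : 0 < q v₀)
    rw [norm_zero, zero_pow two_ne_zero] at h3
    exact (zpow_pos h4 _).ne h3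
  have ha₁H : Units.mk0 a₁ ha₁0 ∈ rootGroup (Sum.elim R fun _ : Unit => P v₀ i₀) :=
    Subgroup.subset_closure ⟨Sum.inr (), ha₁.1⟩
  have hindc : ∀ e : Fin (r + 1) → ℤ, ∏ i, (Fin.cons a₁ z : Fin (r + 1) → ℂ) i ^ e i = 1 →
      e = 0 := by
    intro e he
    rw [Fin.prod_univ_succ, Fin.cons_zero] at he
    simp only [Fin.cons_succ] at he
    have h3 : (fun i => e (Fin.succ i)) = 0 := by
      refine hzi _ ⟨Units.mk0 a₁ ha₁0 ^ (-e 0), Subgroup.zpow_mem _ ha₁H _, ?_⟩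
      rw [Units.val_zpow_eq_zpow_val, Units.val_mk0, zpow_neg]
      exact inv_eq_of_mul_eq_one_right he
    have h4 : ∏ i : Fin r, z i ^ e i.succ = 1 := by
      refine Finset.prod_eq_one fun i _ => ?_
      have h5 := congrFun h3 i
      simp only [Pi.zero_apply] at h5
      rw [h5, zpow_zero]
    rw [h4, mul_one] at he
    have h5 : e 0 = 0 := norm_zpow_one ha₁n ha₁0 (by rw [← norm_zpow, he, norm_one])
    funext i
    refine Fin.cases h5 (fun i => ?_) i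
    exact congrFun h3 i
  have hrind : IndependentRoots (r + 1) (P v₀) := by
    refine ⟨Fin.cons a₁ z, fun j => ?_, hindc⟩
    refine Fin.cases ⟨i₀, ?_⟩ (fun j => ?_) j
    · rw [Fin.cons_zero]
      exact ((mem_aroots).1 ha₁.1).2
    · rw [Fin.cons_succ]
      exact hz j
  obtain ⟨L, alg, hL⟩ := semi_gen (w := w) h h2 hrank ρ s hs hρ 𝔤 h𝔤 P T hT3 hT hgood hp₀ hind₀ hv₀
    (r + 1) hrind hrk
  have hS := hL σ₀ hσ₀
  refine ⟨L, alg, hS, fun j => ?_⟩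
  obtain ⟨L', hL', hLie', hAd', -⟩ := h.lie ℚ_[ℓ] ((∀ i, Fin (n i) → ℚ_[ℓ]) × (Fin (m j) → ℚ_[ℓ])) _
    (prodRep (sumRep ρ) (τ j))
  set A := L'.map (cmp ℚ_[ℓ] (∀ i, Fin (n i) → ℚ_[ℓ]) (Fin (m j) → ℚ_[ℓ])) with hA
  have hAlie : IsLie A := isLie_cmp (sumRep ρ) (τ j) hL' hLie'
  have hAL : A ≤ L := by
    rintro _ ⟨X, hX, rfl⟩
    exact (hS.memLT _).2 (cmp_mem ((hL' X).1 hX))
  have hAad := ad_cmp (sumRep ρ) (τ j) hL' hAd'
  have hAt : ∀ γ, tor ((sumRep ρ γ).baseChange ℂ) ≤ bcS ℂ A := tor_le_cmp (sumRep ρ) (τ j) h hL'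
  have hAnd : NonDeg A := semi_part h h2 ρ s hs hρ 𝔤 h𝔤 P T hT3 hT hgood hp₀ hind₀ hv₀ A hAlie
    (hAL.trans hS.le) hAad hAt σ₀ hσ₀ hS.tor_cen
  have hAeq : A = L := part_eq h h2 hlat hρ hS hAlie hAL hAnd hAad hAt
    (cmp_order (sumRep ρ) (τ j) h h2 hL')
  have hz' : ∀ i, End.HasEigenvalue ((sumRep ρ (s σ₀⁻¹)).baseChange ℂ)
      ((Fin.cons a₁ z : Fin (r + 1) → ℂ) i) := by
    intro i
    refine Fin.cases ?_ (fun i => ?_) i
    · rw [Fin.cons_zero]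
      exact sumRep_eigen ρ (s σ₀⁻¹) (hfrob i₀) ((mem_aroots).1 ha₁.1).2
    · rw [Fin.cons_succ]
      obtain ⟨a, ha⟩ := hz i
      exact sumRep_eigen ρ (s σ₀⁻¹) (hfrob a) ha
  have hne : ∀ a, End.HasEigenvalue ((sumRep ρ (s σ₀⁻¹)).baseChange ℂ) a → a ≠ 0 := by
    rintro a ha rfl
    obtain ⟨x, hx⟩ := ha.exists_hasEigenvector
    refine hx.2 (rep_inj (sumRep ρ) (s σ₀⁻¹) ?_)
    rw [End.mem_eigenspace_iff.1 hx.1, zero_smul, map_zero]
  have hz0 : ∀ i, z i ≠ 0 := fun i => by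
    have h1 := hne _ (hz' i.succ)
    rwa [Fin.cons_succ] at h1
  have hmix := zero_mem' (sumRep ρ) (τ j) h (L := L') (L₀ := zeroPart i₀ L') hL'
    (fun X hX => hX.1) (s σ₀⁻¹)
    (by
      rintro X ⟨hX, hX'⟩
      refine ⟨hAd' _ X hX, fun x => ?_⟩
      rw [cmp_apply, AdE_apply, Module.End.mul_apply, Module.End.mul_apply, prodRep_apply,
        prodRep_apply, map_zero, sumRep_single]
      have h1 := hX' (ρ i₀ (s σ₀⁻¹)⁻¹ x)
      rw [cmp_apply] at h1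
      rw [h1, map_zero])
    (rootGroup (Sum.elim R fun _ : Unit => P v₀ i₀)) z hz0 hzi
    (by
      intro b hb
      obtain ⟨hb0, hb1⟩ := hasEig_root (τ j) (s σ₀⁻¹) (hR j) hb
      exact ⟨Units.mk0 b hb0, Subgroup.subset_closure ⟨Sum.inl j, hb1⟩, rfl⟩)
    ha₁0 ha₁H ha₁n
    (by
      intro a ha
      obtain ⟨N, e, hN, hrel⟩ := eigen_rel (sumRep ρ) h hrank hS.memLT hS.le h𝔤.bracket hrk
        (s σ₀⁻¹) (Fin.cons a₁ z) hz' hindc a ha
      rw [Fin.prod_univ_succ, Fin.cons_zero] at hrel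
      simp only [Fin.cons_succ] at hrel
      exact ⟨N, e 0, fun i => e i.succ, hN, hrel⟩)
    (by
      refine ⟨1 ⊗ₜ[ℚ_[ℓ]] Pi.single i₀ y₀, ?_, ?_, ?_⟩
      · intro h0
        obtain ⟨π, hπ⟩ := exists_pi ℚ_[ℓ] ℂ
        have h1 := congrArg (pv π) h0
        rw [pv_tmul, map_zero, hπ, one_smul] at h1
        have h3 := congrFun h1 i₀
        rw [Pi.single_eq_same] at h3
        exact hy₀ h3
      · rw [LinearMap.baseChange_tmul, sumRep_single, ← hc₀, ha₁.2 alg]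
        have h1 : (Pi.single i₀ (c₀ • y₀) : ∀ i, Fin (n i) → ℚ_[ℓ]) = c₀ • Pi.single i₀ y₀ :=
          (LinearMap.single ℚ_[ℓ] (fun i => Fin (n i) → ℚ_[ℓ]) i₀).map_smul c₀ y₀
        rw [h1, TensorProduct.tmul_smul, TensorProduct.smul_tmul',
          TensorProduct.smul_tmul', smul_eq_mul, mul_one, Algebra.smul_def, mul_one]
      · intro X hX
        induction hX using Submodule.span_induction with
        | mem X hX =>
          obtain ⟨Y, hY, rfl⟩ := hX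
          change prC ℚ_[ℓ] _ _ ((Y.baseChange ℂ) (inC ℚ_[ℓ] _ _ (1 ⊗ₜ[ℚ_[ℓ]] Pi.single i₀ y₀))) = 0
          rw [inC, prC, LinearMap.baseChange_tmul, LinearMap.baseChange_tmul,
            LinearMap.baseChange_tmul]
          have h1 := hY.2 y₀
          rw [cmp_apply] at h1
          change (1 : ℂ) ⊗ₜ[ℚ_[ℓ]] (Y (Pi.single i₀ y₀, 0)).1 = 0
          rw [h1, TensorProduct.tmul_zero]
        | zero =>
          change prC ℚ_[ℓ] (∀ i, Fin (n i) → ℚ_[ℓ]) (Fin (m j) → ℚ_[ℓ]) 0 = 0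
          rw [map_zero]
        | add X Y _ _ hX hY =>
          change prC ℚ_[ℓ] (∀ i, Fin (n i) → ℚ_[ℓ]) (Fin (m j) → ℚ_[ℓ]) (X _ + Y _) = 0
          rw [map_add]
          exact (congrArg₂ (· + ·) hX hY).trans (add_zero _)
        | smul c X _ hX =>
          change prC ℚ_[ℓ] (∀ i, Fin (n i) → ℚ_[ℓ]) (Fin (m j) → ℚ_[ℓ]) (c • X _) = 0
          rw [map_smul]
          exact (congrArg (c • ·) hX).trans (smul_zero _))
    (norm_part ρ (τ j) hL' (s σ₀⁻¹) (by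
      intro i a b ha hb
      have h1 := hG₀.pure i a (hasEig_root (ρ i) (s σ₀⁻¹) (hfrob i) ha).2
      have h3 := hG₀.pure i b (hasEig_root (ρ i) (s σ₀⁻¹) (hfrob i) hb).2
      rw [← h3] at h1
      exact (sq_eq_sq₀ (norm_nonneg _) (norm_nonneg _)).1 h1))
    (fun x hx hxt => hS.tor_cen x (bcS_mono (hAL.trans hS.le) hx) hxt)
  intro X hX hX0 m' Φ hΦ
  rw [← hAeq] at hX
  obtain ⟨X', hX', rfl⟩ := hX
  have h1 := (hL' _).1 (hmix X' ⟨hX', hX0⟩)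
  refine kills_of (fun m'' φ hφ => ?_) hΦ
  have h3 := h1.2 m'' φ hφ
  have h4 : LinearMap.inl ℚ_[ℓ] (∀ i, Fin (n i) → ℚ_[ℓ]) (Fin (m j) → ℚ_[ℓ]) ∘ₗ
      cmp ℚ_[ℓ] _ _ X' ∘ₗ LinearMap.fst ℚ_[ℓ] _ _ = X' * prj ℚ_[ℓ] _ _ := by
    have hX1 := lt_prj ((hL' _).1 hX')
    refine LinearMap.ext fun x => ?_
    rw [Module.End.mul_apply, prj_apply, cmp_prj hX1]
    rfl
  rw [h4]
  exact h3

end main

end Pool.Agent.Y114.OP
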