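import Mathlib
import Pool.Agent.Y114.OP.Zero5
import Pool.Agent.Y114.OP.MixComplete

/-!
# Products with an arbitrary representation: the theorem on the part of weight zero
-/

set_option autoImplicit false
set_option linter.unusedSectionVars false
set_option linter.unusedVariables false

namespace Pool.Agent.Y114.OP

open NumberField IsDedekindDomain Module Polynomial TensorProduct Pool.Agent.TH118.SG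
  Pool.Agent.Y114.MU Pool.Agent.Y114.TF Pool.Agent.Y114.GF Pool.Agent.H204R3.GP Pool.Agent.Y114.RM
  Pool.Agent.W569.FM

section defs

variable {Γ : Type} [Group Γ] {ι : Type} [Fintype ι] [DecidableEq ι] {n : ι → ℕ}
  {κ : Type} {m : κ → ℕ} {ℓ : ℕ} [Fact ℓ.Prime]

/-- The group generated by the eigenvalues of `γ` on all `τ j` and on the part `ρ i₀`. -/
noncomputable def otherEigenvalues (ρ : Reps Γ n ℓ) (i₀ : ι) (τ : Reps Γ m ℓ) (γ : Γ) :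
    Subgroup (AlgebraicClosure ℚ_[ℓ])ˣ :=
  Subgroup.closure {u | (∃ j, aeval (u : AlgebraicClosure ℚ_[ℓ]) (τ j γ).charpoly = 0) ∨
    aeval (u : AlgebraicClosure ℚ_[ℓ]) (ρ i₀ γ).charpoly = 0}

/-- There are `r` eigenvalues of `γ` on the `ρ i` which are multiplicatively independent modulo the
group generated by the eigenvalues of `γ` on all `τ j` and on the part `ρ i₀`. -/
def IndepFrom (ρ : Reps Γ n ℓ) (i₀ : ι) (τ : Reps Γ m ℓ) (r : ℕ) (γ : Γ) : Prop :=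
  ∃ z : Fin r → AlgebraicClosure ℚ_[ℓ], (∀ j, ∃ i, aeval (z j) (ρ i γ).charpoly = 0) ∧
    ∀ e : Fin r → ℤ, (∃ u ∈ otherEigenvalues ρ i₀ τ γ,
      (u : AlgebraicClosure ℚ_[ℓ]) = ∏ j, z j ^ e j) → e = 0

/-- The representation on `V` is semisimple; the endomorphisms which kill all Tate tensors on `V` are
a reductive subalgebra `𝔥` of `𝔤` of rank `r`, equal to `𝔤` if the endomorphisms of `V` which commute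
with a subgroup of finite index commute with `𝔤`; and all elements of `𝔥` which are zero on the part
`i₀` kill all multilinear maps from `V ⊕ V^*` to a `τ j` which are equivariant under a subgroup of
finite index. -/
def TateSplit (ρ : Reps Γ n ℓ) (i₀ : ι) (τ : Reps Γ m ℓ) (𝔤 : EndSpace n ℓ) (r : ℕ) : Prop :=
  Semisimple ρ ∧ ∃ 𝔥 : EndSpace n ℓ, KillsTateTensors ρ 𝔥 ∧ ReductiveOfRank 𝔤 𝔥 r ∧
    (EndTate ρ 𝔤 → 𝔥 = 𝔤) ∧ ∀ j, ZeroPartKills i₀ (sumRep ρ) (τ j) 𝔥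

end defs

variable {Γ : Type} [Group Γ] {ι : Type} [Fintype ι] [DecidableEq ι] {n : ι → ℕ}
  {κ : Type} {m : κ → ℕ}

theorem indepOverAt_of {ℓ : ℕ} [Fact ℓ.Prime] {ρ : Reps Γ n ℓ} {i₀ : ι} {τ : Reps Γ m ℓ} {r : ℕ}
    {γ : Γ} (h : IndepFrom ρ i₀ τ r γ) :
    IndepOverAt ρ (both τ fun _ : Unit => ρ i₀) r γ := by
  obtain ⟨z, hz, h⟩ := h
  refine ⟨z, hz, fun e he => h e ?_⟩
  obtain ⟨u, hu, hu'⟩ := he
  refine ⟨u, ?_, hu'⟩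
  refine (Subgroup.closure_mono ?_) hu
  rintro x ⟨j, hj⟩
  rcases j with j | j
  · exact Or.inl ⟨j, hj⟩
  · exact Or.inr hj

variable [TopologicalSpace Γ] [IsTopologicalGroup Γ] [CompactSpace Γ]

theorem zero_of (hLAT : S_LAT) {ℓ : ℕ} [Fact ℓ.Prime] (s : GF ℚ →* Γ)
    (hs : Continuous s) {ρ : Reps Γ n ℓ} (hρ : Conts ρ) {𝔤 : EndSpace n ℓ} (h𝔤 : Motivic ρ 𝔤)
    {r : ℕ} (hrank : RankLE 𝔤 (r + 1)) {w : ι → ℤ} {S : Set (HeightOneSpectrum (𝓞 ℚ))}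
    (hS : S.Finite) (P : HeightOneSpectrum (𝓞 ℚ) → ι → ℚ[X])
    (hP : ∀ v ∉ S, ¬ Above v ℓ → ∀ i, GoodReduction (restrictTo ρ s) i (w i) v (P v i))
    (i₀ : ι) (hn₀ : n i₀ = 1) (hw₀ : w i₀ ≠ 0)
    (τ : Reps Γ m ℓ) {v₀ : HeightOneSpectrum (𝓞 ℚ)} (hv₀S : v₀ ∉ S) (hv₀ : ¬ Above v₀ ℓ)
    (R : κ → ℚ[X]) (hR : FrobFor (restrictTo τ s) v₀ R)
    (hind : IndepOver r (P v₀) (Sum.elim R fun _ : Unit => P v₀ i₀)) :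
    TateSplit ρ i₀ τ 𝔤 (r + 1) := by
  have hℓp : ℓ.Prime := Fact.out
  obtain ⟨p₀, hp₀, hvp₀⟩ := exists_above v₀
  have hp₀T : p₀ ∈ goodPrimes S ℓ := by
    refine ⟨hp₀, ?_, fun v hv => ?_⟩
    · rintro rfl
      exact hv₀ hvp₀
    · rw [above_unique hp₀ hv hvp₀]
      exact hv₀S
  obtain ⟨Q, σ, hQ, hQv, hσ⟩ := Pool.Agent.W571.FM.frob_cm v₀
  obtain ⟨L, alg, hSemi, hbr⟩ := zero_local (w := w) inputs inputs2 inputs3.rank hLAT ρ s hs hρ 𝔤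
    h𝔤 P (goodPrimes S ℓ) (three_le_goodPrimes hS ℓ)
    (fun p hp => ⟨hp.1, hp.2.1, unramifiedIn_rat hp.1⟩)
    (fun p hp v hv => goodPlace_of (restrictTo ρ s)
      (hP v (hp.2.2 v hv) (not_above hp.1 hℓp hp.2.1 hv)))
    hp₀T (independentPlaces_rat P hp₀ hvp₀) hvp₀
    (by rw [q_eq hp₀ hvp₀]; exact hp₀.one_lt) i₀ hn₀ hw₀ r τ R σ ⟨Q, ⟨hQ.isPrime, hQv⟩, hσ⟩
    (fun j => hR j Q ⟨hQ.isPrime, hQv⟩ σ hσ) hind hrank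
  exact ⟨hSemi.ss, L, hSemi.mem, ⟨hSemi.lie, hSemi.nondeg, hSemi.rk, hSemi.le⟩,
    fun hE => eq_of_endTate inputs hLAT hSemi h𝔤 hE, hbr⟩

variable [Fintype κ] {K : Type} [Fintype K]

theorem uniform_zero (hREL : S_REL2) (hROOT : S_ROOT2) (hLAT : S_LAT)
    (ρ : ∀ (ℓ : ℕ) [Fact ℓ.Prime], Reps Γ n ℓ) (hρ : ∀ (ℓ : ℕ) [Fact ℓ.Prime], Conts (ρ ℓ))
    (w : ι → ℤ) (𝔤 : ∀ (ℓ : ℕ) [Fact ℓ.Prime], EndSpace n ℓ)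
    (h𝔤 : ∀ (ℓ : ℕ) [Fact ℓ.Prime], Motivic (ρ ℓ) (𝔤 ℓ)) (r : ℕ)
    (hrank : ∀ (ℓ : ℕ) [Fact ℓ.Prime], RankLE (𝔤 ℓ) (r + 1))
    (i₀ : ι) (hn₀ : n i₀ = 1) (hw₀ : w i₀ ≠ 0)
    (τ : ∀ (ℓ : ℕ) [Fact ℓ.Prime], Reps Γ m ℓ) (hτ : ∀ (ℓ : ℕ) [Fact ℓ.Prime], Conts (τ ℓ))
    (w' : K → ℤ) (c : ℕ) (ℓ₀ : ℕ) [Fact ℓ₀.Prime] (γ₀ : Γ)
    (hγ₀ : IndepFrom (ρ ℓ₀) i₀ (τ ℓ₀) r γ₀) :
    ∃ O : Set Γ, IsOpen O ∧ γ₀ ∈ O ∧ ∀ s : Gal(AlgebraicClosure ℚ/ℚ) →* Γ, GoodPoint ρ w c s →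
      MixedPoint τ w' c s → (∃ g, s g ∈ O) → ∀ (ℓ : ℕ) [Fact ℓ.Prime],
        TateSplit (ρ ℓ) i₀ (τ ℓ) (𝔤 ℓ) (r + 1) ∧
        TateSplit (restrictTo (ρ ℓ) s) i₀ (restrictTo (τ ℓ) s) (𝔤 ℓ) (r + 1) := by
  obtain ⟨O, hO, hO1, hO2⟩ := uniform_place3 hREL hROOT (ρ ℓ₀) (hρ ℓ₀)
    (both (τ ℓ₀) fun _ : Unit => ρ ℓ₀ i₀)
    (fun j => by
      rcases j with j | j
      · exact hτ ℓ₀ j
      · exact hρ ℓ₀ i₀) w (Sum.elim w' fun _ : Unit => w i₀) c r (indepOverAt_of hγ₀)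
  refine ⟨O, hO, hO1, fun s hs hs' hsO ℓ _ => ?_⟩
  obtain ⟨hsc, S, P, hS, hP, hc⟩ := hs
  obtain ⟨S', R, hS', hR, hRW⟩ := hs'
  have hℓp : ℓ.Prime := Fact.out
  -- the polynomials
  let R' : HeightOneSpectrum (𝓞 ℚ) → κ ⊕ Unit → K ⊕ Unit → ℚ[X] := fun v =>
    Sum.elim (fun j => Sum.elim (R v j) fun _ => 1) fun _ => Sum.elim (fun _ => 1) fun _ => P v i₀
  have hR' : ∀ v, (fun j => ∏ i, R' v j i) =
      Sum.elim (fun j => ∏ i, R v j i) fun _ : Unit => P v i₀ := by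
    intro v
    funext j
    rcases j with j | j
    · rw [Fintype.prod_sum_type]
      simp [R']
    · rw [Fintype.prod_sum_type]
      simp [R']
  have hW : ∀ v ∉ S ∪ S', WeilFor w c v (P v) := fun v hv i a ha => by
    obtain ⟨p, hp, hvp⟩ := exists_above v
    obtain ⟨ℓ', hℓ', hne⟩ : ∃ ℓ : ℕ, ℓ.Prime ∧ p ≠ ℓ := by
      obtain ⟨ℓ, h1, h2⟩ := Nat.exists_infinite_primes (p + 1)
      exact ⟨ℓ, h2, by omega⟩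
    have : Fact ℓ'.Prime := ⟨hℓ'⟩
    exact ⟨(hP v (fun h => hv (Or.inl h)) ℓ' (not_above hp hℓ' hne hvp) i).1 a ha,
      hc v (fun h => hv (Or.inl h)) i a ha⟩
  obtain ⟨v₀, hv1, hv2, -, hind⟩ := hO2 s hsc hsO (S ∪ S') (hS.union hS') P R'
    (fun v hv hvℓ i Q hQ g hg => ((hP v (fun h => hv (Or.inl h)) ℓ₀ hvℓ i).2 Q hQ g).2 hg)
    hW
    (fun v hv hvℓ j => by
      have h1 : ∏ i, R' v j i = Sum.elim (fun j => ∏ i, R v j i) (fun _ : Unit => P v i₀) j :=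
        congrFun (hR' v) j
      intro Q hQ g hg
      refine Eq.trans ?_ (congrArg (Polynomial.map (algebraMap ℚ ℚ_[ℓ₀])) h1).symm
      rcases j with j | j
      · exact hR v (fun h => hv (Or.inr h)) ℓ₀ hvℓ j Q hQ g hg
      · exact ((hP v (fun h => hv (Or.inl h)) ℓ₀ hvℓ i₀).2 Q hQ g).2 hg)
    (fun v hv j i a ha => by
      rcases j with j | j
      · rcases i with i | i
        · exact hRW v (fun h => hv (Or.inr h)) j i a ha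
        · simp [R'] at ha
      · rcases i with i | i
        · simp [R'] at ha
        · exact hW v hv i₀ a ha)
    {v | Above v ℓ} (finite_above ℓ hℓp)
  rw [hR'] at hind
  refine ⟨zero_of hLAT s hsc (hρ ℓ) (h𝔤 ℓ) (hrank ℓ) (hS.union hS') P
    (fun v hv hvℓ i => hP v (fun h => hv (Or.inl h)) ℓ hvℓ i) i₀ hn₀ hw₀ (τ ℓ) hv2 hv1 _
    (hR v₀ (fun h => hv2 (Or.inr h)) ℓ hv1) hind, ?_⟩
  exact zero_of hLAT (MonoidHom.id (GF ℚ)) continuous_id (ρ := restrictTo (ρ ℓ) s)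
    (fun i => (hρ ℓ i).comp hsc) (motivic_comp s (h𝔤 ℓ)) (hrank ℓ) (hS.union hS') P
    (fun v hv hvℓ i => hP v (fun h => hv (Or.inl h)) ℓ hvℓ i) i₀ hn₀ hw₀ (restrictTo (τ ℓ) s)
    hv2 hv1 _ (hR v₀ (fun h => hv2 (Or.inr h)) ℓ hv1) hind

theorem zero_complete
    (ρ : ∀ (ℓ : ℕ) [Fact ℓ.Prime], Reps Γ n ℓ) (hρ : ∀ (ℓ : ℕ) [Fact ℓ.Prime], Conts (ρ ℓ))
    (w : ι → ℤ) (𝔤 : ∀ (ℓ : ℕ) [Fact ℓ.Prime], EndSpace n ℓ)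
    (h𝔤 : ∀ (ℓ : ℕ) [Fact ℓ.Prime], Motivic (ρ ℓ) (𝔤 ℓ)) (r : ℕ)
    (hrank : ∀ (ℓ : ℕ) [Fact ℓ.Prime], RankLE (𝔤 ℓ) (r + 1))
    (i₀ : ι) (hn₀ : n i₀ = 1) (hw₀ : w i₀ ≠ 0)
    (τ : ∀ (ℓ : ℕ) [Fact ℓ.Prime], Reps Γ m ℓ) (hτ : ∀ (ℓ : ℕ) [Fact ℓ.Prime], Conts (τ ℓ))
    (w' : K → ℤ) (c : ℕ) (ℓ₀ : ℕ) [Fact ℓ₀.Prime] (γ₀ : Γ)
    (hγ₀ : IndepFrom (ρ ℓ₀) i₀ (τ ℓ₀) r γ₀) :
    ∃ O : Set Γ, IsOpen O ∧ γ₀ ∈ O ∧ ∀ s : Gal(AlgebraicClosure ℚ/ℚ) →* Γ, GoodPoint ρ w c s →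
      MixedPoint τ w' c s → (∃ g, s g ∈ O) → ∀ (ℓ : ℕ) [Fact ℓ.Prime],
        TateSplit (ρ ℓ) i₀ (τ ℓ) (𝔤 ℓ) (r + 1) ∧
        TateSplit (restrictTo (ρ ℓ) s) i₀ (restrictTo (τ ℓ) s) (𝔤 ℓ) (r + 1) :=
  uniform_zero Pool.Agent.Y448.OP.rel2 Pool.Agent.Y261.OP.root2 Pool.Agent.Y655.OP.lat
    ρ hρ w 𝔤 h𝔤 r hrank i₀ hn₀ hw₀ τ hτ w' c ℓ₀ γ₀ hγ₀

end Pool.Agent.Y114.OP
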