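import Mathlib
import Pool.Agent.Y114.OP.Uniform

/-!
# Semisimplicity of Frobenius elements with a maximal torus
-/

set_option autoImplicit false
set_option linter.unusedSectionVars false
set_option linter.unusedVariables false

namespace Pool.Agent.Y114.OP

open NumberField IsDedekindDomain Module Polynomial TensorProduct Pool.Agent.TH118.SG
  Pool.Agent.Y114.MU Pool.Agent.Y114.TF Pool.Agent.Y114.GF Pool.Agent.H204R3.GP Pool.Agent.Y114.RM
open Pool.Agent.W569.FM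

section lin

variable {V : Type} [AddCommGroup V] [Module ℂ V] [FiniteDimensional ℂ V]

theorem eq_zero_of_diag {N : End ℂ V} (hd : ⨆ μ, End.eigenspace N μ = ⊤) (hn : IsNilpotent N) :
    N = 0 := by
  obtain ⟨d, hd'⟩ := hn
  refine LinearMap.ext fun x => ?_
  have hx : x ∈ ⨆ μ, End.eigenspace N μ := by
    rw [hd]
    exact Submodule.mem_top
  rw [LinearMap.zero_apply]
  induction hx using Submodule.iSup_induction' with
  | mem μ x hx =>
    have h1 := End.mem_eigenspace_iff.1 hx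
    have h2 : ∀ m : ℕ, (N ^ m) x = μ ^ m • x := by
      intro m
      induction m with
      | zero => rw [pow_zero, pow_zero, one_smul]; rfl
      | succ m ih => rw [pow_succ', Module.End.mul_apply, ih, map_smul, h1, smul_smul, pow_succ]
    have h3 := h2 d
    rw [hd', LinearMap.zero_apply] at h3
    rcases smul_eq_zero.1 h3.symm with h4 | h4
    · rw [h1, eq_zero_of_pow_eq_zero h4, zero_smul]
    · rw [h4, map_zero]
  | zero => rw [map_zero]
  | add x y _ _ hx hy => rw [map_add, hx, hy, add_zero]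

theorem gen_sub {G : End ℂ V} {β : ℂ} {x : V} (hx : x ∈ G.maxGenEigenspace β) :
    ∃ k : ℕ, ((G - algebraMap ℂ (End ℂ V) β) ^ k) x = 0 := mem_gen.1 hx

theorem aeval_sub_C (G : End ℂ V) (β : ℂ) :
    aeval G (X - C β) = G - algebraMap ℂ (End ℂ V) β := by
  rw [map_sub, aeval_X, aeval_C]

/-- If all endomorphisms which commute with the operators which are scalars on the generalized
eigenspaces of `G` commute with a power of `G` then `G` is diagonalizable. -/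
theorem diag_of_comm {G : End ℂ V} (hinj : Function.Injective G) {M : ℕ} (hM : 0 < M)
    (h : ∀ Y : End ℂ V, (∀ (t : ℂ → ℂ) (Z : End ℂ V),
      (∀ β, ∀ x ∈ G.maxGenEigenspace β, Z x = t β • x) → Z * Y = Y * Z) →
      G ^ M * Y = Y * G ^ M) (β : ℂ) : ∀ x ∈ G.maxGenEigenspace β, G x = β • x := by
  classical
  intro x hx
  by_cases hx0 : x = 0
  · rw [hx0, map_zero, smul_zero]
  -- an eigenvector
  obtain ⟨y, hy0, hy⟩ : ∃ y : V, y ≠ 0 ∧ G y = β • y := by
    obtain ⟨k, hk⟩ := gen_sub hx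
    have hex : ∃ k : ℕ, ((G - algebraMap ℂ (End ℂ V) β) ^ k) x = 0 := ⟨k, hk⟩
    have h1 := Nat.find_spec hex
    have h2 : Nat.find hex ≠ 0 := by
      intro h0
      rw [h0, pow_zero, Module.End.one_apply] at h1
      exact hx0 h1
    obtain ⟨m, hm⟩ := Nat.exists_eq_succ_of_ne_zero h2
    refine ⟨((G - algebraMap ℂ (End ℂ V) β) ^ m) x, Nat.find_min hex (by omega), ?_⟩
    rw [hm, Nat.succ_eq_add_one, pow_succ', Module.End.mul_apply, LinearMap.sub_apply,
      Module.algebraMap_end_apply, sub_eq_zero] at h1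
    exact h1
  have hβ : β ≠ 0 := by
    rintro rfl
    rw [zero_smul] at hy
    exact hy0 (hinj (by rw [hy, map_zero]))
  have hpow : ∀ m : ℕ, (G ^ m) y = β ^ m • y := by
    intro m
    induction m with
    | zero => rw [pow_zero, pow_zero, one_smul]; rfl
    | succ m ih => rw [pow_succ', Module.End.mul_apply, ih, map_smul, hy, smul_smul, pow_succ]
  -- the power is a scalar on the generalized eigenspace
  have hGM : ∀ x ∈ G.maxGenEigenspace β, (G ^ M) x = β ^ M • x := by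
    intro x hx
    by_contra hne
    have hv0 : (G ^ M) x - β ^ M • x ≠ 0 := fun h0 => hne (sub_eq_zero.1 h0)
    have hvm : (G ^ M) x - β ^ M • x ∈ G.maxGenEigenspace β := by
      refine Submodule.sub_mem _ ?_ (Submodule.smul_mem _ _ hx)
      obtain ⟨k, hk⟩ := gen_sub hx
      refine mem_gen.2 ⟨k, ?_⟩
      have h1 : Commute ((G - algebraMap ℂ (End ℂ V) β) ^ k) (G ^ M) := by
        refine Commute.pow_pow ?_ _ _
        exact (Commute.refl G).sub_left (Algebra.commutes _ _)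
      rw [← Module.End.mul_apply, h1.eq, Module.End.mul_apply, hk, map_zero]
    have hS : (G ^ M) x - β ^ M • x ∉ ⨆ γ, ⨆ (_ : γ ≠ β), G.maxGenEigenspace γ := by
      intro hmem
      have h1 := (Module.End.independent_maxGenEigenspace G) β
      exact hv0 (Submodule.disjoint_def.1 h1 _ hvm hmem)
    obtain ⟨φ, hφ1, hφ2⟩ := Submodule.exists_dual_map_eq_bot_of_notMem hS inferInstance
    have hφ3 : ∀ γ, γ ≠ β → ∀ x ∈ G.maxGenEigenspace γ, φ x = 0 := by
      intro γ hγ x hx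
      have h1 : φ x ∈ (⨆ γ, ⨆ (_ : γ ≠ β), G.maxGenEigenspace γ).map φ :=
        Submodule.mem_map_of_mem (Submodule.mem_iSup_of_mem γ (Submodule.mem_iSup_of_mem hγ hx))
      rw [hφ2] at h1
      exact (Submodule.mem_bot ℂ).1 h1
    have hy' : y ∈ G.maxGenEigenspace β := mem_gen.2 ⟨1, by
      rw [pow_one, LinearMap.sub_apply, Module.algebraMap_end_apply, hy, sub_self]⟩
    have h2 := h (φ.smulRight y) (fun t Z hZ => by
      refine op_ext G fun γ x hx => ?_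
      rw [Module.End.mul_apply, Module.End.mul_apply, LinearMap.smulRight_apply,
        LinearMap.smulRight_apply, map_smul, hZ γ x hx, map_smul, hZ β y hy']
      by_cases hγ : γ = β
      · rw [hγ, smul_smul, smul_eq_mul, mul_comm]
      · rw [hφ3 γ hγ x hx, smul_zero, zero_smul, zero_smul])
    have h3 := LinearMap.congr_fun h2 x
    rw [Module.End.mul_apply, Module.End.mul_apply, LinearMap.smulRight_apply,
      LinearMap.smulRight_apply, map_smul, hpow, smul_smul, ← sub_eq_zero, ← sub_smul] at h3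
    rcases smul_eq_zero.1 h3 with h4 | h4
    · apply hφ1
      rw [map_sub, map_smul, smul_eq_mul, mul_comm, ← neg_sub, h4, neg_zero]
    · exact hy0 h4
  -- coprimality
  obtain ⟨Q, hQ⟩ : X - C β ∣ (X ^ M - C (β ^ M) : ℂ[X]) := by
    rw [dvd_iff_isRoot, IsRoot.def, eval_sub, eval_pow, eval_X, eval_C, sub_self]
  have hQβ : ¬ (X - C β ∣ Q) := by
    rw [dvd_iff_isRoot, IsRoot.def]
    intro h0
    have h1 := congrArg (fun f => (derivative f).eval β) hQ
    simp only [derivative_sub, derivative_X_pow, derivative_C, sub_zero, derivative_mul,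
      eval_mul, eval_natCast, eval_pow, eval_X, eval_add, eval_sub,
      eval_C, sub_self, zero_mul, mul_zero, add_zero, h0, map_natCast] at h1
    rcases mul_eq_zero.1 h1 with h2 | h2
    · exact hM.ne' (Nat.cast_eq_zero.1 h2)
    · exact hβ (eq_zero_of_pow_eq_zero h2)
  obtain ⟨k, hk⟩ := gen_sub hx
  have hcop : IsCoprime ((X - C β) ^ k) Q :=
    (((irreducible_X_sub_C β).coprime_iff_not_dvd).2 hQβ).pow_left
  obtain ⟨a, b, hab⟩ := hcop
  have h5 : aeval G (X - C β) x = 0 := by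
    have h6 : aeval G ((a * (X - C β) ^ k + b * Q) * (X - C β)) x = 0 := by
      have h7 : (a * (X - C β) ^ k + b * Q) * (X - C β) =
          (a * (X - C β)) * (X - C β) ^ k + b * ((X - C β) * Q) := by ring
      rw [h7, ← hQ, map_add, LinearMap.add_apply, map_mul, map_mul _ b, Module.End.mul_apply,
        Module.End.mul_apply, map_pow, aeval_sub_C, hk, map_zero, zero_add, map_sub, map_pow,
        aeval_X, aeval_C, LinearMap.sub_apply, Module.algebraMap_end_apply, hGM x hx, sub_self,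
        map_zero]
    rwa [hab, one_mul] at h6
  rw [aeval_sub_C, LinearMap.sub_apply, Module.algebraMap_end_apply, sub_eq_zero] at h5
  exact h5

end lin

section semi

theorem rep_inj' {k : Type} [Field k] [CharZero k] [Algebra k ℂ] {V : Type} [AddCommGroup V]
    [Module k V] [FiniteDimensional k V] {Γ : Type} [Group Γ] (σ : Representation k Γ V) (γ : Γ) :
    Function.Injective ((σ γ).baseChange ℂ) :=
  injective_of_mul (g' := (σ γ⁻¹).baseChange ℂ) (by rw [← bc_mul, RM.rho_inv_mul, bc_one])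

variable {k : Type} [Field k] [CharZero k] [Algebra k ℂ] {V : Type} [AddCommGroup V] [Module k V]
  [FiniteDimensional k V]

/-- An endomorphism which is diagonalizable after base change is semisimple. -/
theorem isSemisimple_of_bc {g : End k V} {G : End ℂ (ℂ ⊗[k] V)} (hG : G = g.baseChange ℂ)
    (h : ∀ β : ℂ, ∀ x ∈ G.maxGenEigenspace β, G x = β • x) : g.IsSemisimple := by
  classical
  set p := UniqueFactorizationMonoid.radical g.charpoly with hp
  have hc0 : g.charpoly ≠ 0 := (LinearMap.charpoly_monic g).ne_zero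
  refine Module.End.isSemisimple_of_squarefree_aeval_eq_zero
    (UniqueFactorizationMonoid.squarefree_radical (a := g.charpoly)) ?_
  rw [← hp]
  have h1 : aeval G (p.map (algebraMap k ℂ)) = 0 := by
    refine op_ext G fun β x hx => ?_
    rw [LinearMap.zero_apply]
    by_cases hx0 : x = 0
    · rw [hx0, map_zero]
    have h2 := h β x hx
    have h3 : aeval G (p.map (algebraMap k ℂ)) x =
        ((p.map (algebraMap k ℂ)).eval β) • x :=
      Module.End.aeval_apply_of_hasEigenvector ⟨End.mem_eigenspace_iff.2 h2, hx0⟩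
    have h4 : (g.charpoly.map (algebraMap k ℂ)).eval β = 0 := by
      have h5 : End.HasEigenvalue G β :=
        End.hasEigenvalue_of_hasEigenvector ⟨End.mem_eigenspace_iff.2 h2, hx0⟩
      rw [hG] at h5
      rwa [Module.End.hasEigenvalue_iff_isRoot_charpoly, LinearMap.charpoly_baseChange,
        IsRoot.def] at h5
    obtain ⟨m, hm⟩ := UniqueFactorizationMonoid.exists_dvd_radical_self_pow hc0
    rw [← hp] at hm
    have h7 : (p.map (algebraMap k ℂ)).eval β = 0 := by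
      obtain ⟨c, hc⟩ := hm
      have h8 : ((p ^ m).map (algebraMap k ℂ)).eval β = 0 := by
        rw [hc, Polynomial.map_mul, eval_mul, h4, zero_mul]
      rw [Polynomial.map_pow, eval_pow] at h8
      exact eq_zero_of_pow_eq_zero h8
    rw [h3, h7, zero_smul]
  have h2 : (aeval g p).baseChange ℂ = aeval G (p.map (algebraMap k ℂ)) := by
    rw [aeval_map_algebraMap, hG]
    exact (aeval_algHom_apply (Module.End.baseChangeHom k ℂ V) g p).symm
  rw [← h2] at h1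
  exact bc_inj (h1.trans LinearMap.baseChange_zero.symm)

end semi

section main

variable {ℓ : ℕ} [hℓ : Fact ℓ.Prime] {Γ : Type} [Group Γ] {ι : Type} [Fintype ι] [DecidableEq ι]
  {n : ι → ℕ}

/-- An element with a maximal torus is semisimple. -/
theorem frob_semisimple (h : Inputs) (h2 : Inputs2)
    (ρ : ∀ i, Representation ℚ_[ℓ] Γ (Fin (n i) → ℚ_[ℓ]))
    (𝔤 : Submodule ℚ_[ℓ] (End ℚ_[ℓ] (∀ i, Fin (n i) → ℚ_[ℓ]))) (h𝔤 : IsMotivic ρ 𝔤) {r : ℕ}
    (hrk : RankAtMost 𝔤 r) (g : Γ) {P : ι → ℚ[X]}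
    (hP : ∀ i, (ρ i g).charpoly = (P i).map (algebraMap ℚ ℚ_[ℓ])) (hind : IndependentRoots r P) :
    Module.End.IsSemisimple (sumRep ρ g) := by
  classical
  obtain ⟨j, hj⟩ := Pool.Agent.Y115.R.exists_j ℓ ℚ_[ℓ] ℚ (algebraMap ℚ ℚ_[ℓ]) (algebraMap ℚ ℂ)
  let _ : Algebra ℚ_[ℓ] ℂ := j.toAlgebra
  obtain ⟨L, hL, -, -, -⟩ := h.lie ℚ_[ℓ] (∀ i, Fin (n i) → ℚ_[ℓ]) _ (sumRep ρ)
  have hLG : L ≤ 𝔤 := fun X hX => h𝔤.algebraic X fun m φ hφ => ((hL X).1 hX).2 m φ (h𝔤.tate m φ hφ)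
  obtain ⟨z, hz, hz1⟩ := hind
  have hz' : ∀ i, End.HasEigenvalue ((sumRep ρ g).baseChange ℂ) (z i) := by
    intro i
    obtain ⟨a, ha⟩ := hz i
    exact sumRep_eigen ρ g (hP a) ha
  have hcen := torus_cen (sumRep ρ) h h2.jord h2.cartan hL hLG h𝔤.bracket h𝔤.nondeg h𝔤.algebraic
    hrk g z hz' hz1
  obtain ⟨N, M, hN, hM, h1, h3, h4⟩ := h2.uni ℚ_[ℓ] ℂ (∀ i, Fin (n i) → ℚ_[ℓ]) (sumRep ρ g)
    (sumRep ρ g⁻¹) (RM.rho_mul_inv _ g) (RM.rho_inv_mul _ g)
  have hNL : N ∈ bcS ℂ L := by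
    rw [(h.bc ℚ_[ℓ] ℂ _ L).1]
    intro π
    rw [hL]
    refine ⟨?_, ?_⟩
    · rintro W ⟨Δ, hΔ, hW⟩
      obtain ⟨M, hM0, -, hM⟩ := Subgroup.exists_pow_mem_of_index_ne_zero hΔ.index_ne_zero g
      exact (h3 M hM0 π).1 W (fun x hx => by rw [← map_pow]; exact hW _ hM x hx)
    · rintro m φ ⟨Δ, hΔ, hφ⟩
      obtain ⟨M, hM0, -, hM⟩ := Subgroup.exists_pow_mem_of_index_ne_zero hΔ.index_ne_zero g
      exact (h3 M hM0 π).2 m φ
        (fun v => by rw [← map_pow, ← map_pow, inv_pow]; exact hφ _ hM v)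
  have hNt := hcen N (bcS_mono hLG hNL) (fun Z hZ => by
    obtain ⟨θ, hθ⟩ := hZ
    exact h1 θ Z hθ)
  have hN0 : N = 0 := eq_zero_of_diag (tor_diag _ N hNt) hN
  refine isSemisimple_of_bc rfl fun β => diag_of_comm (rep_inj' (sumRep ρ) g) hM (fun Y hY => ?_) β
  have h5 := h4 Y (by rw [hN0, zero_mul, mul_zero]) fun θ Z hZ => hY (fun β => ext0 θ β) Z hZ
  have h6 : ((sumRep ρ g) ^ M).baseChange ℂ = ((sumRep ρ g).baseChange ℂ : End ℂ _) ^ M :=
    map_pow (Module.End.baseChangeHom ℚ_[ℓ] ℂ (∀ i, Fin (n i) → ℚ_[ℓ])) (sumRep ρ g) M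
  rw [h6] at h5
  exact h5

end main

section uniform

variable {Γ : Type} [Group Γ] [TopologicalSpace Γ] [IsTopologicalGroup Γ] {ι : Type} [Fintype ι]
  {n : ι → ℕ}

/-- `g` acts like a geometric Frobenius element at a place with residue field of order `p`: the
characteristic polynomials of `g` are given by polynomials `P i` in `ℚ[X]` for all `ℓ ≠ p`, pure of
weight `w i`, with roots which are integral after multiplication with `p ^ c`. -/
def LikeFrobenius (ρ : ∀ (ℓ : ℕ) [Fact ℓ.Prime], Reps Γ n ℓ) (w : ι → ℤ) (c p : ℕ) (g : Γ) : Prop :=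
  ∃ P : ι → ℚ[X], (∀ (ℓ : ℕ) [Fact ℓ.Prime], ℓ ≠ p → ∀ i, HasPoly (ρ ℓ) i g (P i)) ∧
    ∀ i, ∀ a ∈ (P i).aroots ℂ, ‖a‖ ^ 2 = (p : ℝ) ^ w i ∧ IsIntegral ℤ ((p : ℂ) ^ c * a)

theorem uniform_roots (hREL : S_REL) (hROOT : S_ROOT) {ℓ : ℕ} [Fact ℓ.Prime] (ρ : Reps Γ n ℓ)
    (hρ : Conts ρ) (w : ι → ℤ) (c r : ℕ) {γ₀ : Γ} (hγ₀ : IndepAt ρ r γ₀) :
    ∃ O : Set Γ, IsOpen O ∧ γ₀ ∈ O ∧ ∀ g ∈ O, ∀ p : ℕ, p.Prime → ∀ P : ι → ℚ[X],
      (∀ i, (ρ i g).charpoly = (P i).map (algebraMap ℚ ℚ_[ℓ])) →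
      (∀ i, ∀ a ∈ (P i).aroots ℂ, ‖a‖ ^ 2 = (p : ℝ) ^ w i ∧ IsIntegral ℤ ((p : ℂ) ^ c * a)) →
      IndependentRoots r P := by
  classical
  obtain ⟨B, M, hM, hB⟩ := hREL ι n w c r
  obtain ⟨z, hz, hind⟩ := hγ₀
  choose k hk using hz
  obtain ⟨O, hO, hO1, hO2⟩ := hROOT ℓ ι n Γ ρ hρ B M r k γ₀ hM
  refine ⟨O, hO, hO1, fun g hg p hp P hch hWp => ?_⟩
  have hne : ∀ i, P i ≠ 0 := by
    intro i h0
    have h1 := (LinearMap.charpoly_monic (ρ i g)).ne_zero
    rw [hch i, h0, Polynomial.map_zero] at h1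
    exact h1 rfl
  have hdeg : ∀ i, (P i).natDegree ≤ n i := by
    intro i
    have h1 := LinearMap.charpoly_natDegree (ρ i g)
    rw [hch i, natDegree_map, finrank_fin_fun] at h1
    exact h1.le
  obtain ⟨z', hz', hz''⟩ := (hO2 g hg).1 z hk
  obtain ⟨J, -⟩ := exists_J ℓ
  have hroot : ∀ j, aeval (J (z' j)) (P (k j)) = 0 := by
    intro j
    have h1 := hz' j
    rw [hch, aeval_map_iff] at h1
    rw [aeval_J, h1, map_zero]
  refine ⟨fun j => J (z' j), fun j => ⟨k j, hroot j⟩, fun e he => ?_⟩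
  by_contra hne0
  obtain ⟨e', he', hbd, hpow⟩ := (hB p hp P (fun i => ⟨hne i, hdeg i⟩) hWp
    (fun j => J (z' j)) (fun j => ⟨k j, (mem_aroots).2 ⟨hne _, hroot j⟩⟩)).1 ⟨e, hne0, he⟩
  refine hz'' e' hbd ?_ ?_
  · intro h1
    apply he'
    have h2 := hind (fun j => (M : ℤ) * e' j) (by
      rw [← h1, ← Finset.prod_pow]
      refine Finset.prod_congr rfl fun j _ => ?_
      rw [← zpow_natCast, ← zpow_mul, mul_comm])
    funext j
    have h3 := congrFun h2 j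
    simp only [Pi.zero_apply, mul_eq_zero] at h3
    rcases h3 with h3 | h3
    · exfalso; omega
    · exact h3
  · apply J.injective
    rw [map_pow, map_prod, map_one, ← hpow]
    congr 1
    refine Finset.prod_congr rfl fun j _ => ?_
    rw [map_zpow₀]

variable [DecidableEq ι]

theorem frob_uniform (ρ : ∀ (ℓ : ℕ) [Fact ℓ.Prime], Reps Γ n ℓ)
    (hρ : ∀ (ℓ : ℕ) [Fact ℓ.Prime], Conts (ρ ℓ)) (w : ι → ℤ)
    (𝔤 : ∀ (ℓ : ℕ) [Fact ℓ.Prime], EndSpace n ℓ)
    (h𝔤 : ∀ (ℓ : ℕ) [Fact ℓ.Prime], Motivic (ρ ℓ) (𝔤 ℓ)) (r : ℕ)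
    (hrank : ∀ (ℓ : ℕ) [Fact ℓ.Prime], RankLE (𝔤 ℓ) r) (c : ℕ) (ℓ₀ : ℕ) [Fact ℓ₀.Prime] :
    ∃ O : Set Γ, IsOpen O ∧ (∀ γ₀, IndepEigenvalues (ρ ℓ₀) r γ₀ → γ₀ ∈ O) ∧
      ∀ g ∈ O, ∀ p : ℕ, p.Prime → p ≠ ℓ₀ → LikeFrobenius ρ w c p g →
        ∀ (ℓ : ℕ) [Fact ℓ.Prime], ℓ ≠ p → Module.End.IsSemisimple (sumRep (ρ ℓ) g) := by
  classical
  have h1 : ∀ γ₀ : Γ, IndepEigenvalues (ρ ℓ₀) r γ₀ → _ := fun γ₀ hγ₀ =>
    uniform_roots Pool.Agent.Y678.OP.t_REL Pool.Agent.Y25.OP.root (ρ ℓ₀) (hρ ℓ₀) w c r hγ₀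
  choose O hO hO1 hO2 using h1
  refine ⟨⋃ γ₀, ⋃ h, O γ₀ h, isOpen_iUnion fun γ₀ => isOpen_iUnion fun h => hO γ₀ h,
    fun γ₀ h => Set.mem_iUnion.2 ⟨γ₀, Set.mem_iUnion.2 ⟨h, hO1 γ₀ h⟩⟩, ?_⟩
  intro g hg p hp hpℓ ⟨P, hP, hW⟩ ℓ _ hℓp
  obtain ⟨γ₀, hg⟩ := Set.mem_iUnion.1 hg
  obtain ⟨h, hg⟩ := Set.mem_iUnion.1 hg
  exact frob_semisimple inputs inputs2 (ρ ℓ) (𝔤 ℓ) (h𝔤 ℓ) (hrank ℓ) g (fun i => hP ℓ hℓp i)
    (hO2 γ₀ h g hg p hp P (fun i => hP ℓ₀ hpℓ.symm i) hW)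

end uniform

end Pool.Agent.Y114.OP
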